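import Pool.Agent.Lib.TS4.Defs
import Pool.Agent.Lib.TSP.MSq

/-!
# TS4.App: approximation of the quartic sum (1.3 h)
PROOF. `φ(x) = e(β P3r x)`. `f(a/q+β) = ∑_{r<q} e(a P₃(r)/q) ∑_{s : qs+r<T} φ(qs+r)` (`t = qs + r`, `P₃(qs+r) ≡ P₃(r)`), `S(a,q)/q · II = ∑_{r<q} e(aP₃(r)/q) (1/q) ∫_0^T φ`. So the difference is
`∑_{r<q} e(aP₃(r)/q) Δ_r`, `Δ_r = ∑_s φ(qs+r) - (1/q)∫_0^T φ`. Bounds: (i) `|Δ_r| ≤ (T/q + 1) + T/q`; (ii) comparing `φ(qs+r)` with the mean of `φ` over `[qs, q(s+1)]` for the complete steps inside `[0,T]`: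
`|Δ_r| ≤ ∫_0^T |φ'| + 2 ≤ 2π|β| P3r(T) + 2 ≤ C|β|T⁴ + 2` (`P3r` increasing on `[0, ∞)`, `≤ 1.2·10^7 T⁴` for `T ≥ 1`; `T = 0` trivial). So `|Δ_r| ≤ C (1 + min(|β|T⁴, T/q))`. Sum over `a`: `sum_e`:
`∑_a |∑_r e(aP₃(r)/q) Δ_r|² = q ∑_{q ∣ P₃(r)-P₃(r')} Δ_r conj Δ_r' ≤ q D2 b q q max|Δ|²`. (TSP/MSq.lean has a general weighted mean square lemma if `private`, copy it.)
-/

set_option autoImplicit false

open Finset

namespace Pool.Agent.Lib.TS4

open Pool.Agent.Lib.TSP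

namespace AppAux

/-- weighted mean square -/
theorem msqw (b : Bool) {q : ℕ} (hq : 0 < q) (D : ℕ → ℂ) (M : ℝ)
    (hD : ∀ r ∈ range q, ‖D r‖ ≤ M) :
    ∑ a ∈ range q, ‖∑ r ∈ range q, e ((((a : ℤ) * P3 b r : ℤ) : ℝ) / q) * D r‖ ^ 2
      ≤ (q : ℝ) * D2 b q q * M ^ 2 := by
  have h1 : ((∑ a ∈ range q, ‖∑ r ∈ range q, e ((((a : ℤ) * P3 b r : ℤ) : ℝ) / q) * D r‖ ^ 2 : ℝ) : ℂ) =
      ∑ p ∈ range q ×ˢ range q, (if (q : ℤ) ∣ P3 b p.1 - P3 b p.2 then (q : ℂ) else 0) *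
        (D p.1 * (starRingEnd ℂ) (D p.2)) := by
    push_cast
    have h2 : ∀ a ∈ range q, (‖∑ r ∈ range q, e ((((a : ℤ) * P3 b r : ℤ) : ℝ) / q) * D r‖ : ℂ) ^ 2 =
        ∑ p ∈ range q ×ˢ range q, e ((((a : ℤ) * (P3 b p.1 - P3 b p.2) : ℤ) : ℝ) / q) *
          (D p.1 * (starRingEnd ℂ) (D p.2)) := by
      intro a _
      rw [← Complex.mul_conj', map_sum, sum_mul_sum, ← sum_product']
      refine sum_congr rfl fun p _ => ?_
      have h3 : e ((((a : ℤ) * (P3 b p.1 - P3 b p.2) : ℤ) : ℝ) / q) =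
          e ((((a : ℤ) * P3 b p.1 : ℤ) : ℝ) / q) *
            (starRingEnd ℂ) (e ((((a : ℤ) * P3 b p.2 : ℤ) : ℝ) / q)) := by
        rw [← e_neg, ← e_add]
        congr 1
        push_cast
        ring
      rw [h3, map_mul]
      ring
    have h2' : ∀ a ∈ range q, (‖∑ r ∈ range q, e ((((a : ℝ) * (P3 b r : ℝ)) : ℝ) / q) * D r‖ : ℂ) ^ 2 =
        ∑ p ∈ range q ×ˢ range q, e ((((a : ℤ) * (P3 b p.1 - P3 b p.2) : ℤ) : ℝ) / q) *
          (D p.1 * (starRingEnd ℂ) (D p.2)) := by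
      intro a ha
      rw [← h2 a ha]
      push_cast
      rfl
    rw [sum_congr rfl h2', sum_comm]
    refine sum_congr rfl fun p _ => ?_
    rw [← sum_mul, sum_e hq]
  have h0 : 0 ≤ ∑ a ∈ range q, ‖∑ r ∈ range q, e ((((a : ℤ) * P3 b r : ℤ) : ℝ) / q) * D r‖ ^ 2 :=
    sum_nonneg fun _ _ => by positivity
  have h4 : ∑ a ∈ range q, ‖∑ r ∈ range q, e ((((a : ℤ) * P3 b r : ℤ) : ℝ) / q) * D r‖ ^ 2 =
      ‖((∑ a ∈ range q, ‖∑ r ∈ range q, e ((((a : ℤ) * P3 b r : ℤ) : ℝ) / q) * D r‖ ^ 2 : ℝ) : ℂ)‖ := by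
    rw [Complex.norm_real, Real.norm_of_nonneg h0]
  rw [h4, h1]
  refine (norm_sum_le _ _).trans ?_
  have h5 : ∀ p ∈ range q ×ˢ range q, ‖(if (q : ℤ) ∣ P3 b p.1 - P3 b p.2 then (q : ℂ) else 0) *
        (D p.1 * (starRingEnd ℂ) (D p.2))‖ ≤
        if (q : ℤ) ∣ P3 b p.1 - P3 b p.2 then (q : ℝ) * M ^ 2 else 0 := by
    intro p hp
    rw [mem_product] at hp
    split_ifs with h
    · rw [norm_mul, norm_mul, RCLike.norm_conj, Complex.norm_natCast]
      have h6 := hD p.1 hp.1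
      have h7 := hD p.2 hp.2
      have : ‖D p.1‖ * ‖D p.2‖ ≤ M ^ 2 := by
        rw [sq]
        exact mul_le_mul h6 h7 (norm_nonneg _) ((norm_nonneg _).trans h6)
      exact mul_le_mul_of_nonneg_left this (by positivity)
    · simp
  refine (sum_le_sum h5).trans ?_
  rw [← sum_filter, sum_const, nsmul_eq_mul]
  have h8 : (((range q ×ˢ range q).filter fun t : ℕ × ℕ => (q : ℤ) ∣ P3 b t.1 - P3 b t.2).card : ℝ) = D2 b q q := by
    rfl
  rw [h8]
  exact le_of_eq (by ring)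

/-- range decomposition -/
theorem sum_range_dec (g : ℕ → ℂ) (q K : ℕ) :
    ∑ t ∈ range (q * K), g t = ∑ r ∈ range q, ∑ s ∈ range K, g (q * s + r) := by
  induction K with
  | zero => simp
  | succ n ih =>
    rw [Nat.mul_succ, Finset.sum_range_add, ih, ← sum_add_distrib]
    refine sum_congr rfl fun r _ => ?_
    rw [sum_range_succ]

theorem dvd_P3' (b : Bool) (q r s : ℕ) : (q : ℤ) ∣ P3 b ((q * s + r : ℕ) : ℤ) - P3 b (r : ℤ) := by
  cases b
  · refine ⟨s * (32 + 3360 * (2 * r + q * s) + 156800 * (3 * r ^ 2 + 3 * r * (q * s) + (q * s) ^ 2) +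
      2744000 * (4 * r ^ 3 + 6 * r ^ 2 * (q * s) + 4 * r * (q * s) ^ 2 + (q * s) ^ 3)), ?_⟩
    unfold P3
    push_cast
    ring
  · refine ⟨s * (16 + 3360 * (2 * r + q * s) + 313600 * (3 * r ^ 2 + 3 * r * (q * s) + (q * s) ^ 2) +
      10976000 * (4 * r ^ 3 + 6 * r ^ 2 * (q * s) + 4 * r * (q * s) ^ 2 + (q * s) ^ 3)), ?_⟩
    unfold P3
    push_cast
    rw [if_pos rfl, if_pos rfl]
    ring

theorem P3r_nat (b : Bool) (t : ℕ) : P3r b t = ((P3 b t : ℤ) : ℝ) := by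
  cases b <;> simp [P3r, P3]

theorem P3r_cont (b : Bool) : Continuous (P3r b) := by
  cases b
  · have : P3r false = fun x => 32 * x + 3360 * x ^ 2 + 156800 * x ^ 3 + 2744000 * x ^ 4 := by
      funext x
      unfold P3r
      rw [if_neg (by decide)]
    rw [this]
    fun_prop
  · have : P3r true = fun x => 16 * x + 3360 * x ^ 2 + 313600 * x ^ 3 + 10976000 * x ^ 4 := by
      funext x
      unfold P3r
      rw [if_pos rfl]
    rw [this]
    fun_prop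

theorem P3r_mono (b : Bool) {x y : ℝ} (hx : 0 ≤ x) (hxy : x ≤ y) : P3r b x ≤ P3r b y := by
  have h2 : x ^ 2 ≤ y ^ 2 := pow_le_pow_left₀ hx hxy 2
  have h3 : x ^ 3 ≤ y ^ 3 := pow_le_pow_left₀ hx hxy 3
  have h4 : x ^ 4 ≤ y ^ 4 := pow_le_pow_left₀ hx hxy 4
  unfold P3r
  split_ifs <;> linarith

theorem P3r_zero (b : Bool) : P3r b 0 = 0 := by
  unfold P3r
  split_ifs <;> simp

theorem P3r_le (b : Bool) (T : ℕ) : P3r b T ≤ 2 * 10 ^ 7 * (T : ℝ) ^ 4 := by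
  rcases Nat.eq_zero_or_pos T with rfl | hT
  · simp [P3r_zero]
  · have h1 : (1 : ℝ) ≤ T := by exact_mod_cast hT
    have h4 : (T : ℝ) ≤ (T : ℝ) ^ 4 := by
      calc (T : ℝ) = (T : ℝ) ^ 1 := (pow_one _).symm
        _ ≤ (T : ℝ) ^ 4 := pow_le_pow_right₀ h1 (by norm_num)
    have h5 : (T : ℝ) ^ 2 ≤ (T : ℝ) ^ 4 := pow_le_pow_right₀ h1 (by norm_num)
    have h6 : (T : ℝ) ^ 3 ≤ (T : ℝ) ^ 4 := pow_le_pow_right₀ h1 (by norm_num)
    unfold P3r
    split_ifs <;> linarith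

/-- the phase -/
noncomputable def ph (b : Bool) (β x : ℝ) : ℂ := e (β * P3r b x)

theorem ph_cont (b : Bool) (β : ℝ) : Continuous (ph b β) := by
  unfold ph
  exact continuous_e.comp (continuous_const.mul (P3r_cont b))

theorem norm_ph (b : Bool) (β x : ℝ) : ‖ph b β x‖ = 1 := norm_e _

theorem ph_sub (b : Bool) (β x y : ℝ) : ‖ph b β x - ph b β y‖ ≤ 2 * Real.pi * |β| * |P3r b x - P3r b y| := by
  unfold ph
  refine (norm_e_sub_le _ _).trans (le_of_eq ?_)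
  rw [← mul_sub, abs_mul]
  ring

/-- one step -/
theorem step (b : Bool) (β : ℝ) {q : ℕ} (hq : 0 < q) (r s : ℕ) (hr : r < q) :
    ‖ph b β ((q * s + r : ℕ) : ℝ) - (1 / (q : ℂ)) * ∫ x in ((q * s : ℕ) : ℝ)..((q * (s + 1) : ℕ) : ℝ), ph b β x‖
      ≤ 2 * Real.pi * |β| * (P3r b ((q * (s + 1) : ℕ) : ℝ) - P3r b ((q * s : ℕ) : ℝ)) := by
  have hq' : (0 : ℝ) < q := by exact_mod_cast hq
  have hqc : (q : ℂ) ≠ 0 := by exact_mod_cast hq.ne'
  have hlen : ((q * (s + 1) : ℕ) : ℝ) - ((q * s : ℕ) : ℝ) = q := by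
    push_cast
    ring
  have hle : ((q * s : ℕ) : ℝ) ≤ ((q * (s + 1) : ℕ) : ℝ) := by linarith
  have h1 : ph b β ((q * s + r : ℕ) : ℝ) - (1 / (q : ℂ)) * ∫ x in ((q * s : ℕ) : ℝ)..((q * (s + 1) : ℕ) : ℝ), ph b β x
      = (1 / (q : ℂ)) * ∫ x in ((q * s : ℕ) : ℝ)..((q * (s + 1) : ℕ) : ℝ),
        (ph b β ((q * s + r : ℕ) : ℝ) - ph b β x) := by
    rw [intervalIntegral.integral_sub intervalIntegrable_const
      ((ph_cont b β).intervalIntegrable _ _), intervalIntegral.integral_const, hlen, mul_sub]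
    congr 1
    rw [Complex.real_smul]
    push_cast
    field_simp
  rw [h1, norm_mul, norm_div, norm_one, Complex.norm_natCast]
  have h2 : ‖∫ x in ((q * s : ℕ) : ℝ)..((q * (s + 1) : ℕ) : ℝ), (ph b β ((q * s + r : ℕ) : ℝ) - ph b β x)‖
      ≤ (2 * Real.pi * |β| * (P3r b ((q * (s + 1) : ℕ) : ℝ) - P3r b ((q * s : ℕ) : ℝ))) *
        |((q * (s + 1) : ℕ) : ℝ) - ((q * s : ℕ) : ℝ)| := by
    refine intervalIntegral.norm_integral_le_of_norm_le_const fun x hx => ?_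
    rw [Set.uIoc_of_le hle] at hx
    refine (ph_sub b β _ _).trans ?_
    refine mul_le_mul_of_nonneg_left ?_ (by positivity)
    have hs0 : (0 : ℝ) ≤ ((q * s : ℕ) : ℝ) := by positivity
    have hx0 : (0 : ℝ) ≤ x := hs0.trans hx.1.le
    have e1 : P3r b ((q * s : ℕ) : ℝ) ≤ P3r b x := P3r_mono b hs0 hx.1.le
    have e2 : P3r b x ≤ P3r b ((q * (s + 1) : ℕ) : ℝ) := P3r_mono b hx0 hx.2
    have e3 : P3r b ((q * s : ℕ) : ℝ) ≤ P3r b ((q * s + r : ℕ) : ℝ) :=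
      P3r_mono b hs0 (by exact_mod_cast Nat.le_add_right _ _)
    have e4 : P3r b ((q * s + r : ℕ) : ℝ) ≤ P3r b ((q * (s + 1) : ℕ) : ℝ) :=
      P3r_mono b (by positivity) (by
        have : q * s + r ≤ q * (s + 1) := by
          rw [Nat.mul_succ]
          omega
        exact_mod_cast this)
    rw [abs_le]
    constructor <;> linarith
  rw [hlen, abs_of_pos hq'] at h2
  calc 1 / (q : ℝ) * ‖∫ x in ((q * s : ℕ) : ℝ)..((q * (s + 1) : ℕ) : ℝ), (ph b β ((q * s + r : ℕ) : ℝ) - ph b β x)‖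
      ≤ 1 / (q : ℝ) * ((2 * Real.pi * |β| * (P3r b ((q * (s + 1) : ℕ) : ℝ) - P3r b ((q * s : ℕ) : ℝ))) * q) :=
        mul_le_mul_of_nonneg_left h2 (by positivity)
    _ = _ := by field_simp

/-- the difference -/
noncomputable def De (b : Bool) (T q : ℕ) (β : ℝ) (r : ℕ) : ℂ :=
  (∑ s ∈ range (T / q + 1), if q * s + r < T then ph b β ((q * s + r : ℕ) : ℝ) else 0) -
    (1 / (q : ℂ)) * II b T β

theorem II_le' (b : Bool) (T : ℕ) (β : ℝ) : ‖II b T β‖ ≤ T := by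
  unfold II
  have := intervalIntegral.norm_integral_le_of_norm_le_const (a := (0 : ℝ)) (b := (T : ℝ))
    (f := fun x => e (β * P3r b x)) (C := 1) (fun x _ => le_of_eq (norm_e _))
  refine this.trans (le_of_eq ?_)
  rw [sub_zero, abs_of_nonneg (by positivity), one_mul]

theorem De_le1 (b : Bool) (T q : ℕ) (β : ℝ) (hq : 0 < q) (r : ℕ) :
    ‖De b T q β r‖ ≤ 2 * (1 + (T : ℝ) / q) := by
  have hq' : (0 : ℝ) < q := by exact_mod_cast hq
  unfold De
  refine (norm_sub_le _ _).trans ?_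
  have h1 : ‖∑ s ∈ range (T / q + 1), if q * s + r < T then ph b β ((q * s + r : ℕ) : ℝ) else 0‖
      ≤ (T : ℝ) / q + 1 := by
    refine (norm_sum_le _ _).trans ?_
    have : ∀ s ∈ range (T / q + 1), ‖if q * s + r < T then ph b β ((q * s + r : ℕ) : ℝ) else 0‖ ≤ 1 := by
      intro s _
      split_ifs
      · exact le_of_eq (norm_ph _ _ _)
      · simp
    refine (sum_le_sum this).trans ?_
    rw [sum_const, card_range, nsmul_eq_mul, mul_one]
    push_cast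
    have : ((T / q : ℕ) : ℝ) ≤ (T : ℝ) / q := Nat.cast_div_le
    linarith
  have h2 : ‖(1 / (q : ℂ)) * II b T β‖ ≤ (T : ℝ) / q := by
    rw [norm_mul, norm_div, norm_one, Complex.norm_natCast]
    calc 1 / (q : ℝ) * ‖II b T β‖ ≤ 1 / (q : ℝ) * T := mul_le_mul_of_nonneg_left (II_le' b T β) (by positivity)
      _ = (T : ℝ) / q := by ring
  linarith

theorem De_le2 (b : Bool) (T q : ℕ) (β : ℝ) (hq : 0 < q) (r : ℕ) (hr : r < q) :
    ‖De b T q β r‖ ≤ 2 * Real.pi * |β| * (2 * 10 ^ 7 * (T : ℝ) ^ 4) + 2 := by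
  have hq' : (0 : ℝ) < q := by exact_mod_cast hq
  set K := T / q with hK
  have hKT : q * K ≤ T := Nat.mul_div_le T q
  have hTK : T < q * (K + 1) := Nat.lt_mul_div_succ T hq
  have hTK' : (T : ℝ) < ((q * (K + 1) : ℕ) : ℝ) := by exact_mod_cast hTK
  have hKT' : ((q * K : ℕ) : ℝ) ≤ T := by exact_mod_cast hKT
  have hsum : ∑ s ∈ range K, (if q * s + r < T then ph b β ((q * s + r : ℕ) : ℝ) else 0) =
      ∑ s ∈ range K, ph b β ((q * s + r : ℕ) : ℝ) := by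
    refine sum_congr rfl fun s hs => ?_
    rw [mem_range] at hs
    rw [if_pos]
    have : q * (s + 1) ≤ q * K := Nat.mul_le_mul_left q hs
    rw [Nat.mul_succ] at this
    omega
  have hint : ∀ x y : ℝ, IntervalIntegrable (ph b β) MeasureTheory.volume x y :=
    fun x y => (ph_cont b β).intervalIntegrable _ _
  have hII : II b T β = (∑ s ∈ range K, ∫ x in ((q * s : ℕ) : ℝ)..((q * (s + 1) : ℕ) : ℝ), ph b β x) +
      ∫ x in ((q * K : ℕ) : ℝ)..(T : ℝ), ph b β x := by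
    have h1 := intervalIntegral.sum_integral_adjacent_intervals (μ := MeasureTheory.volume)
      (f := ph b β) (a := fun s : ℕ => ((q * s : ℕ) : ℝ)) (n := K) (fun k _ => hint _ _)
    rw [h1]
    simp only [Nat.mul_zero, Nat.cast_zero]
    rw [intervalIntegral.integral_add_adjacent_intervals (hint _ _) (hint _ _)]
    rfl
  have hDe : De b T q β r = (∑ s ∈ range K, (ph b β ((q * s + r : ℕ) : ℝ) -
      (1 / (q : ℂ)) * ∫ x in ((q * s : ℕ) : ℝ)..((q * (s + 1) : ℕ) : ℝ), ph b β x)) +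
      ((if q * K + r < T then ph b β ((q * K + r : ℕ) : ℝ) else 0) -
        (1 / (q : ℂ)) * ∫ x in ((q * K : ℕ) : ℝ)..(T : ℝ), ph b β x) := by
    unfold De
    rw [← hK, sum_range_succ, hsum, hII, sum_sub_distrib, mul_add, mul_sum]
    ring
  rw [hDe]
  have hA : ‖∑ s ∈ range K, (ph b β ((q * s + r : ℕ) : ℝ) -
      (1 / (q : ℂ)) * ∫ x in ((q * s : ℕ) : ℝ)..((q * (s + 1) : ℕ) : ℝ), ph b β x)‖ ≤
      2 * Real.pi * |β| * (2 * 10 ^ 7 * (T : ℝ) ^ 4) := by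
    refine (norm_sum_le _ _).trans ?_
    refine (sum_le_sum fun s _ => step b β hq r s hr).trans ?_
    rw [← mul_sum]
    refine mul_le_mul_of_nonneg_left ?_ (by positivity)
    rw [Finset.sum_range_sub (fun s => P3r b ((q * s : ℕ) : ℝ))]
    simp only [Nat.mul_zero, Nat.cast_zero, P3r_zero, sub_zero]
    exact (P3r_mono b (by positivity) hKT').trans (P3r_le b T)
  have hB : ‖(if q * K + r < T then ph b β ((q * K + r : ℕ) : ℝ) else 0)‖ ≤ 1 := by
    split_ifs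
    · exact le_of_eq (norm_ph _ _ _)
    · simp
  have hC : ‖(1 / (q : ℂ)) * ∫ x in ((q * K : ℕ) : ℝ)..(T : ℝ), ph b β x‖ ≤ 1 := by
    rw [norm_mul, norm_div, norm_one, Complex.norm_natCast]
    have h1 := intervalIntegral.norm_integral_le_of_norm_le_const (a := ((q * K : ℕ) : ℝ)) (b := (T : ℝ))
      (f := ph b β) (C := 1) (fun x _ => le_of_eq (norm_ph _ _ _))
    have h2 : |(T : ℝ) - ((q * K : ℕ) : ℝ)| ≤ q := by
      rw [abs_of_nonneg (by linarith)]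
      have : ((q * (K + 1) : ℕ) : ℝ) = ((q * K : ℕ) : ℝ) + q := by
        push_cast
        ring
      linarith
    calc 1 / (q : ℝ) * ‖∫ x in ((q * K : ℕ) : ℝ)..(T : ℝ), ph b β x‖
        ≤ 1 / (q : ℝ) * (1 * |(T : ℝ) - ((q * K : ℕ) : ℝ)|) :=
          mul_le_mul_of_nonneg_left h1 (by positivity)
      _ ≤ 1 / (q : ℝ) * q := by
          rw [one_mul]
          exact mul_le_mul_of_nonneg_left h2 (by positivity)
      _ = 1 := by field_simp
  refine (norm_add_le _ _).trans ?_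
  have := (norm_sub_le (if q * K + r < T then ph b β ((q * K + r : ℕ) : ℝ) else 0)
    ((1 / (q : ℂ)) * ∫ x in ((q * K : ℕ) : ℝ)..(T : ℝ), ph b β x))
  linarith

/-- the identity -/
theorem diff_eq (b : Bool) (T q : ℕ) (β : ℝ) (hq : 0 < q) (a : ℕ) :
    f b T ((a : ℝ) / q + β) - (1 / (q : ℂ)) * S b a q * II b T β =
      ∑ r ∈ range q, e ((((a : ℤ) * P3 b r : ℤ) : ℝ) / q) * De b T q β r := by
  set K := T / q with hK
  have hTK : T < q * (K + 1) := Nat.lt_mul_div_succ T hq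
  have h1 : f b T ((a : ℝ) / q + β) = ∑ t ∈ range (q * (K + 1)),
      if t < T then e ((((a : ℤ) * P3 b t : ℤ) : ℝ) / q) * ph b β t else 0 := by
    unfold f
    rw [← sum_filter]
    have : (range (q * (K + 1))).filter (fun t => t < T) = range T := by
      ext t
      rw [mem_filter, mem_range, mem_range]
      omega
    rw [this]
    refine sum_congr rfl fun t _ => ?_
    unfold ph
    rw [← e_add, P3r_nat]
    congr 1
    push_cast
    ring
  rw [h1, sum_range_dec]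
  have h2 : (1 / (q : ℂ)) * S b a q * II b T β = ∑ r ∈ range q, e ((((a : ℤ) * P3 b r : ℤ) : ℝ) / q) *
      ((1 / (q : ℂ)) * II b T β) := by
    unfold S
    rw [← sum_mul]
    ring
  rw [h2, ← sum_sub_distrib]
  refine sum_congr rfl fun r _ => ?_
  unfold De
  rw [mul_sub, mul_sum, ← hK]
  congr 1
  refine sum_congr rfl fun s _ => ?_
  rw [mul_ite, mul_zero]
  split_ifs
  · have : e ((((a : ℤ) * P3 b ((q * s + r : ℕ) : ℤ) : ℤ) : ℝ) / q) = e ((((a : ℤ) * P3 b r : ℤ) : ℝ) / q) := by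
      refine e_div_congr hq ?_
      rw [← mul_sub]
      exact Dvd.dvd.mul_left (dvd_P3' b q r s) _
    rw [this]
  · rfl

end AppAux

open AppAux in
theorem f_app4 (b : Bool) : ∃ C : ℝ, 0 < C ∧ ∀ (T q : ℕ) (β : ℝ), 0 < q →
    ∑ a ∈ range q, ‖f b T ((a : ℝ) / q + β) - (1 / (q : ℂ)) * S b a q * II b T β‖ ^ 2
      ≤ C * q * D2 b q q * (1 + min (|β| * (T : ℝ) ^ 4) ((T : ℝ) / q)) ^ 2 := by
  set C0 : ℝ := 2 * Real.pi * (2 * 10 ^ 7) + 2 with hC0
  have hC0p : 2 ≤ C0 := by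
    have : 0 ≤ 2 * Real.pi * (2 * 10 ^ 7) := by positivity
    linarith
  refine ⟨C0 ^ 2, by positivity, fun T q β hq => ?_⟩
  have hq' : (0 : ℝ) < q := by exact_mod_cast hq
  set m := min (|β| * (T : ℝ) ^ 4) ((T : ℝ) / q) with hm
  have hm0 : 0 ≤ m := le_min (by positivity) (by positivity)
  have hD : ∀ r ∈ range q, ‖De b T q β r‖ ≤ C0 * (1 + m) := by
    intro r hr
    rw [mem_range] at hr
    have h1 := De_le1 b T q β hq r
    have h2 := De_le2 b T q β hq r hr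
    rcases min_choice (|β| * (T : ℝ) ^ 4) ((T : ℝ) / q) with h | h
    · rw [hm, h]
      refine h2.trans ?_
      have e1 : 0 ≤ |β| * (T : ℝ) ^ 4 := by positivity
      have e2 : 0 ≤ 2 * Real.pi * (2 * 10 ^ 7) := by positivity
      rw [hC0]
      nlinarith [mul_nonneg e1 e2]
    · rw [hm, h]
      refine h1.trans ?_
      exact mul_le_mul_of_nonneg_right hC0p (by positivity)
  have h3 := msqw b hq (De b T q β) (C0 * (1 + m)) hD
  rw [sum_congr rfl fun a _ => by rw [diff_eq b T q β hq a]]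
  refine h3.trans (le_of_eq ?_)
  ring

/-- trivial bounds -/
theorem II_le (b : Bool) (T : ℕ) (β : ℝ) : ‖II b T β‖ ≤ T := AppAux.II_le' b T β

theorem II_cont (b : Bool) (T : ℕ) : Continuous (II b T) := by
  unfold II
  refine intervalIntegral.continuous_parametric_intervalIntegral_of_continuous' ?_ _ _
  refine continuous_e.comp ?_
  exact continuous_fst.mul ((AppAux.P3r_cont b).comp continuous_snd)

end Pool.Agent.Lib.TS4
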