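import Pool.Agent.Lib.TS4.Mom
import Pool.Agent.Lib.TSP.Cheb

/-!
# TS4.Cheb: few `n` have a large block (1.2 h)  (adapt TSP.Cheb)
PROOF. `z = zp A0 N = ⌈(log N)^A0⌉`, `L = log N`. If `Y ≤ z` there is no nonempty such `S`: the sum is `0`. Let `Y > z`. `k` = the largest integer with `Y^(2k) ≤ N` (`Nat.log (Y^2) N`); `k ≥ 2` as `Y^4 ≤ N`,
`k ≤ L`, so `k^10 ≤ L^10 ≤ z` (`A0 ≥ 10`). `Y^(2(k+1)) > N`, so `Y^(4k/5) = (Y^(2(k+1)))^{(2/5) k/(k+1)} ≥ N^(4/15)`. Markov with `moment4`: the number is at most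
`L^(4k) C (N + Y^(2k)) (2^(4k/5) N^(-4/15) e^4000) ≤ 2 C e^4000 L^(4k) 2^k N^(11/15)`. `L^k ≤ Y^(k/A0) ≤ N^(1/(2 A0))`, `2^k ≤ L^k`: at most `N^(11/15 + 3/A0)` times a constant, `≤ N^(3/4)` for large `N` if
`A0 ≥ 200` (`3/4 - 11/15 = 1/60`).
-/

set_option autoImplicit false

open Finset

namespace Pool.Agent.Lib.TS4

open Pool.Agent.Lib.TSP

namespace ChebAux

private theorem real4 (L l y K A B : ℝ) (h1 : 2 * K * y ≤ L) (h2 : L < 2 * (K + 1) * y) (h3 : 2 ≤ K)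
    (h4 : A * l ≤ y) (h5 : 1 ≤ l) (h6 : 200 ≤ A) (h7 : 240 * (4000 + B) ≤ L) (h8 : 3 ≤ L) :
    4 * K * l + B + L - 4 / 5 * K * (y - Real.log 2) + 4000 ≤ 3 / 4 * L := by
  have hl2 : Real.log 2 ≤ 1 := by
    have := Real.log_two_lt_d9
    linarith
  have hy : 0 < y := by nlinarith
  have e1 : K * l * 200 ≤ K * y := by
    have : 200 * l ≤ y := by nlinarith
    nlinarith
  have e2 : 2 * (K * y) ≤ L := by linarith
  have e3 : 400 * (K * l) ≤ L := by linarith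
  have e4 : L ≤ 3 * (K * y) := by nlinarith
  have e5 : K * Real.log 2 ≤ K * l := by nlinarith
  have e6 : 0 ≤ K * l := by positivity
  nlinarith

end ChebAux

theorem cheb4 : ∃ A1 : ℕ, ∀ A0 : ℕ, A1 ≤ A0 → ∃ N0 : ℕ, ∀ N : ℕ, N0 ≤ N →
    ∀ (g : ℕ → ℕ → ℝ) (P : Finset ℕ) (Y : ℕ) (SS : Finset (Finset ℕ)), Y ^ 4 ≤ N →
    (∀ p ∈ P, p.Prime ∧ zp A0 N < p) → (∀ p ∈ P, ∀ n, g p (n + p) = g p n) →
    (∀ p ∈ P, ∑ n ∈ range p, g p n = 0) → (∀ p ∈ P, ∀ n, |g p n| ≤ 3 / (p : ℝ)) →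
    (∀ S ∈ SS, S.Nonempty ∧ S ⊆ P ∧ Y < 2 * ∏ p ∈ S, p ∧ ∏ p ∈ S, p ≤ Y) →
    (((range N).filter fun n => 1 / (Real.log N) ^ 2 < |∑ S ∈ SS, ∏ p ∈ S, g p n|).card : ℝ)
      ≤ (N : ℝ) ^ (3 / 4 : ℝ) := by
  classical
  obtain ⟨C, hC1, hmoment⟩ := moment4
  refine ⟨200, fun A0 hA0 => ⟨⌈Real.exp (960003 + 480 * C)⌉₊, ?_⟩⟩
  intro N hN g P Y SS hYN hP hper hmean hg hS
  -- sizes
  have hA200 : (200 : ℝ) ≤ A0 := by exact_mod_cast hA0
  have hNexp : Real.exp (960003 + 480 * C) ≤ N := (Nat.le_ceil _).trans (by exact_mod_cast hN)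
  have hNpos : (0 : ℝ) < N := lt_of_lt_of_le (Real.exp_pos _) hNexp
  obtain ⟨L, hLdef⟩ : ∃ L : ℝ, L = Real.log N := ⟨_, rfl⟩
  have hL : 960003 + 480 * C ≤ L := by
    rw [hLdef, Real.le_log_iff_exp_le hNpos]
    exact hNexp
  have hL3 : 3 ≤ L := by linarith
  have hLpos : 0 < L := by linarith
  have hCpos : (0 : ℝ) < C := by linarith
  have hB : 240 * (4000 + Real.log (2 * C)) ≤ L := by
    have h1 := Real.log_le_sub_one_of_pos (show (0 : ℝ) < 2 * C by positivity)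
    linarith
  have hl : 1 ≤ Real.log L := by
    rw [Real.le_log_iff_exp_le hLpos]
    have := Real.exp_one_lt_d9
    linarith
  have hzz : zp A0 N = ⌈L ^ A0⌉₊ := by rw [zp, hLdef]
  have hz : L ^ A0 ≤ (zp A0 N : ℝ) := by
    rw [hzz]
    exact Nat.le_ceil _
  have hz1 : (3 : ℝ) ≤ zp A0 N := by
    have h1 : L ^ 1 ≤ L ^ A0 := pow_le_pow_right₀ (by linarith) (by omega)
    rw [pow_one] at h1
    linarith
  rw [← hLdef]
  by_cases hYz : Y ≤ zp A0 N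
  · have hSS : SS = ∅ := by
      rw [Finset.eq_empty_iff_forall_notMem]
      intro S hSS
      obtain ⟨⟨p, hp⟩, hSP, -, hSY⟩ := hS S hSS
      have h1 : p ≤ ∏ q ∈ S, q :=
        Nat.le_of_dvd (Finset.prod_pos fun q hq => (hP q (hSP hq)).1.pos) (Finset.dvd_prod_of_mem _ hp)
      have h2 := (hP p (hSP hp)).2
      omega
    have h0 : ((range N).filter fun n => 1 / L ^ 2 < |∑ S ∈ SS, ∏ p ∈ S, g p n|) = ∅ := by
      rw [Finset.filter_eq_empty_iff]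
      intro n _ h
      rw [hSS, Finset.sum_empty, abs_zero] at h
      have : 0 < 1 / L ^ 2 := by positivity
      linarith
    rw [h0, Finset.card_empty, Nat.cast_zero]
    positivity
  push Not at hYz
  have hY3 : (3 : ℝ) ≤ Y := hz1.trans (by exact_mod_cast hYz.le)
  have hY3' : 3 ≤ Y := by exact_mod_cast hY3
  have hYpos : (0 : ℝ) < Y := by linarith
  have hy1 : 1 ≤ Real.log Y := by
    rw [Real.le_log_iff_exp_le hYpos]
    have := Real.exp_one_lt_d9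
    linarith
  have hY2 : 1 < Y ^ 2 := Nat.one_lt_pow (by norm_num) (by omega)
  have hN0 : N ≠ 0 := by
    intro h
    rw [h] at hNpos
    simp at hNpos
  obtain ⟨k, hk⟩ : ∃ k : ℕ, k = Nat.log (Y ^ 2) N := ⟨_, rfl⟩
  have hk1 : (Y ^ 2) ^ k ≤ N := by
    rw [hk]
    exact Nat.pow_log_le_self _ hN0
  have hk2 : N < (Y ^ 2) ^ (k + 1) := by
    rw [hk]
    exact Nat.lt_pow_succ_log_self hY2 _
  have hk3 : 2 ≤ k := by
    by_contra hcon
    push Not at hcon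
    have h1 : (Y ^ 2) ^ (k + 1) ≤ (Y ^ 2) ^ 2 := Nat.pow_le_pow_right (by omega) (by omega)
    have h2 : (Y ^ 2) ^ 2 = Y ^ 4 := by ring
    omega
  have hk3' : (2 : ℝ) ≤ k := by exact_mod_cast hk3
  have hk1' : (((Y : ℝ) ^ 2) ^ k) ≤ (N : ℝ) := by exact_mod_cast hk1
  have r1 : 2 * (k : ℝ) * Real.log Y ≤ L := by
    have h2 := Real.log_le_log (by positivity) hk1'
    rw [Real.log_pow, Real.log_pow, ← hLdef] at h2
    push_cast at h2
    linarith
  have r2 : L < 2 * ((k : ℝ) + 1) * Real.log Y := by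
    have h1 : (N : ℝ) < (((Y : ℝ) ^ 2) ^ (k + 1)) := by exact_mod_cast hk2
    have h2 := Real.log_lt_log (by positivity) h1
    rw [Real.log_pow, Real.log_pow, ← hLdef] at h2
    push_cast at h2
    linarith
  have r4 : (A0 : ℝ) * Real.log L ≤ Real.log Y := by
    rw [← Real.log_pow]
    exact Real.log_le_log (by positivity) (hz.trans (by exact_mod_cast hYz.le))
  have hkL : (k : ℝ) ≤ L := by nlinarith
  have hk10 : (k : ℝ) ^ 10 ≤ zp A0 N := by
    have h1 : (k : ℝ) ^ 10 ≤ L ^ 10 := pow_le_pow_left₀ (by positivity) hkL 10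
    have h2 : L ^ 10 ≤ L ^ A0 := pow_le_pow_right₀ (by linarith) (by omega)
    linarith
  have hmom := hmoment g P k (zp A0 N) Y N (by exact_mod_cast (by linarith : (2 : ℝ) ≤ zp A0 N)) hP hper
    hmean hg hk10 (by omega) SS (fun S h => ⟨(hS S h).2.1, (hS S h).2.2.1, (hS S h).2.2.2⟩)
  have hmk := TSP.ChebAux.markov N k L _ hLpos (fun n => ∑ S ∈ SS, ∏ p ∈ S, g p n) hmom
  refine hmk.trans ?_
  have hNe : (N : ℝ) = Real.exp L := by rw [hLdef, Real.exp_log hNpos]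
  have hLe : L ^ (4 * k) = Real.exp (4 * k * Real.log L) := by
    rw [show 4 * (k : ℝ) * Real.log L = ((4 * k : ℕ) : ℝ) * Real.log L by push_cast; ring, ← Real.log_pow,
      Real.exp_log (by positivity)]
  have h1 : ((Y : ℝ) / 2) ^ (-(4 / 5 * (k : ℝ))) =
      Real.exp ((Real.log Y - Real.log 2) * (-(4 / 5 * (k : ℝ)))) := by
    rw [Real.rpow_def_of_pos (by positivity), Real.log_div (by positivity) (by norm_num)]
  have hYk : (Y : ℝ) ^ (2 * k) ≤ N := by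
    rw [pow_mul]
    exact hk1'
  have h2 : C * ((N : ℝ) + (Y : ℝ) ^ (2 * k)) ≤ Real.exp (Real.log (2 * C) + L) := by
    rw [Real.exp_add, Real.exp_log (by positivity), ← hNe]
    nlinarith
  have h3 : (N : ℝ) ^ (3 / 4 : ℝ) = Real.exp (3 / 4 * L) := by
    rw [Real.rpow_def_of_pos hNpos, ← hLdef, mul_comm]
  rw [h3, h1, hLe]
  calc Real.exp (4 * k * Real.log L) * (C * ((N : ℝ) + (Y : ℝ) ^ (2 * k)) *
        (Real.exp ((Real.log Y - Real.log 2) * (-(4 / 5 * (k : ℝ)))) * Real.exp 4000))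
      ≤ Real.exp (4 * k * Real.log L) * (Real.exp (Real.log (2 * C) + L) *
        (Real.exp ((Real.log Y - Real.log 2) * (-(4 / 5 * (k : ℝ)))) * Real.exp 4000)) := by
        apply mul_le_mul_of_nonneg_left _ (Real.exp_pos _).le
        exact mul_le_mul_of_nonneg_right h2 (by positivity)
    _ ≤ Real.exp (3 / 4 * L) := by
        rw [← Real.exp_add, ← Real.exp_add, ← Real.exp_add]
        apply Real.exp_le_exp.2
        have := ChebAux.real4 L (Real.log L) (Real.log Y) k A0 (Real.log (2 * C)) r1 r2 hk3' r4 hl hA200 hB hL3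
        linarith

end Pool.Agent.Lib.TS4
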