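import Pool.Agent.Lib.TS4.Defs
import Pool.Agent.Lib.TSP.Jn

/-!
# TS4.Jx: the singular integral is bounded below (1.3 h)
PROOF. For real `y` put `Jr(y) = ∫_{-B}^{B} (1-|β|/B) exp(2πc₁w)/w e(-yβ) dβ`, `w = zz N β`. As in TSP/Jn.lean (where `y = m` is an integer; the proof does not use this; copy it):
`Jr(y) = exp(2πc₁/N) 2π ∫_0^∞ exp(-2πu/N) K(u - y - c₁) du`, `K(s) = ∫_{-B}^{B}(1-|β|/B) e(sβ) dβ ≥ 0` real, so `Jr(y)` is real and `≥ 0` for EVERY real `y`, and `≥ c` for `0 ≤ y ≤ N`. Fubini (continuous integrand on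
`[0,T] × [-B,B]`): `Jt = ∫_0^T Jr(m - P3r x) dx`. If `P₃(T) ≤ m ≤ N` then `0 ≤ m - P3r x ≤ N` for `0 ≤ x ≤ T`, so `Jt ≥ cT`.
-/

set_option autoImplicit false

open Finset

namespace Pool.Agent.Lib.TS4

open Pool.Agent.Lib.TSP

namespace JxAux

open Pool.Agent.Lib.TSP.JnAux

theorem continuous_P3r (b : Bool) : Continuous (P3r b) := by
  unfold P3r
  cases b
  · simp only [Bool.false_eq_true, if_false]
    fun_prop
  · simp only [if_true]
    fun_prop

theorem P3r_mono (b : Bool) {x y : ℝ} (hx : 0 ≤ x) (hxy : x ≤ y) : P3r b x ≤ P3r b y := by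
  have h2 : x ^ 2 ≤ y ^ 2 := pow_le_pow_left₀ hx hxy 2
  have h3 : x ^ 3 ≤ y ^ 3 := pow_le_pow_left₀ hx hxy 3
  have h4 : x ^ 4 ≤ y ^ 4 := pow_le_pow_left₀ hx hxy 4
  unfold P3r
  cases b
  · simp only [Bool.false_eq_true, if_false]
    linarith
  · simp only [if_true]
    linarith

theorem P3r_zero (b : Bool) : P3r b 0 = 0 := by
  unfold P3r
  cases b <;> simp

theorem P3r_nonneg (b : Bool) {x : ℝ} (hx : 0 ≤ x) : 0 ≤ P3r b x := by
  rw [← P3r_zero b]
  exact P3r_mono b le_rfl hx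

theorem P3r_nat (b : Bool) (T : ℕ) : P3r b T = ((P3 b T : ℤ) : ℝ) := by
  unfold P3r P3
  cases b
  · simp only [Bool.false_eq_true, if_false]
    push_cast
    ring
  · simp only [if_true]
    push_cast
    ring

theorem continuous_R {N : ℕ} (hN : 1 ≤ N) (B : ℝ) : Continuous (R N B) := by
  have hK := continuous_K B
  have hc : Continuous fun u : ℝ => 2 * Real.pi * Real.exp (2 * Real.pi * u / N) * K B u := by
    refine Continuous.mul ?_ hK
    fun_prop
  have h : R N B = fun t => R N B 0 +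
      ∫ u in (0 : ℝ)..t, 2 * Real.pi * Real.exp (2 * Real.pi * u / N) * K B u := by
    funext t
    have := R_sub hN B 0 t
    linarith
  rw [h]
  refine continuous_const.add ?_
  exact intervalIntegral.continuous_primitive (fun a c => hc.intervalIntegrable a c) 0

theorem continuous_e : Continuous e := by
  unfold e
  fun_prop

/-- the integral for a real number `y` -/
theorem Jr_eq (b : Bool) {N : ℕ} (hN : 1 ≤ N) (B y : ℝ) :
    ∫ β in (-B)..B, ((1 - |β| / B : ℝ) : ℂ) *
      (Complex.exp (2 * Real.pi * (c1 b : ℂ) * zz N β) / zz N β) * e (-(y * β)) =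
    ((Real.exp (-(2 * Real.pi * y / N)) * R N B (c1 b + y) : ℝ) : ℂ) := by
  rw [Complex.ofReal_mul, ← P_eq hN, P, ← intervalIntegral.integral_const_mul]
  refine intervalIntegral.integral_congr fun β _ => ?_
  show ((1 - |β| / B : ℝ) : ℂ) * (Complex.exp (2 * Real.pi * (c1 b : ℂ) * zz N β) / zz N β) *
    e (-(y * β)) = ((Real.exp (-(2 * Real.pi * y / N)) : ℝ) : ℂ) * (((w B β : ℝ) : ℂ) *
      (Complex.exp (2 * Real.pi * ((c1 b + y : ℝ) : ℂ) * zz N β) / zz N β))
  have h : Complex.exp (2 * Real.pi * (c1 b : ℂ) * zz N β) * e (-(y * β)) =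
      ((Real.exp (-(2 * Real.pi * y / N)) : ℝ) : ℂ) *
        Complex.exp (2 * Real.pi * ((c1 b + y : ℝ) : ℂ) * zz N β) := by
    rw [e, Complex.ofReal_exp, ← Complex.exp_add, ← Complex.exp_add]
    congr 1
    rw [zz]
    push_cast
    ring
  rw [w]
  calc ((1 - |β| / B : ℝ) : ℂ) * (Complex.exp (2 * Real.pi * (c1 b : ℂ) * zz N β) / zz N β) *
      e (-(y * β)) = ((1 - |β| / B : ℝ) : ℂ) *
        ((Complex.exp (2 * Real.pi * (c1 b : ℂ) * zz N β) * e (-(y * β))) / zz N β) := by ring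
    _ = _ := by rw [h]; ring

theorem e_mul (β p m : ℝ) : e (β * p) * e (-(m * β)) = e (-((m - p) * β)) := by
  rw [e, e, e, ← Complex.exp_add]
  congr 1
  push_cast
  ring

theorem Jt_eq (b : Bool) (T : ℕ) {N : ℕ} (hN : 1 ≤ N) (B : ℝ) (m : ℤ) :
    Jt b T N B m = ((∫ x in (0 : ℝ)..T, Real.exp (-(2 * Real.pi * (m - P3r b x) / N)) *
      R N B (c1 b + (m - P3r b x)) : ℝ) : ℂ) := by
  have hP := continuous_P3r b
  have he := continuous_e
  have hz := continuous_zz N
  have h1 : Jt b T N B m = ∫ β in (-B)..B, ∫ x in (0 : ℝ)..T, ((1 - |β| / B : ℝ) : ℂ) *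
      (Complex.exp (2 * Real.pi * (c1 b : ℂ) * zz N β) / zz N β) * e (-((m - P3r b x) * β)) := by
    rw [Jt]
    refine intervalIntegral.integral_congr fun β _ => ?_
    show ((1 - |β| / B : ℝ) : ℂ) *
      (Complex.exp (2 * Real.pi * (c1 b : ℂ) * zz N β) / zz N β) * II b T β * e (-((m : ℝ) * β)) =
      ∫ x in (0 : ℝ)..T, ((1 - |β| / B : ℝ) : ℂ) *
      (Complex.exp (2 * Real.pi * (c1 b : ℂ) * zz N β) / zz N β) * e (-((m - P3r b x) * β))
    rw [II, intervalIntegral.integral_const_mul, mul_assoc, ← intervalIntegral.integral_mul_const]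
    congr 1
    refine intervalIntegral.integral_congr fun x _ => ?_
    exact e_mul _ _ _
  rw [h1, MeasureTheory.intervalIntegral_intervalIntegral_swap]
  · rw [← intervalIntegral.integral_ofReal]
    refine intervalIntegral.integral_congr fun x _ => ?_
    exact Jr_eq b hN B _
  · have hc : Continuous (Function.uncurry fun β x : ℝ => ((1 - |β| / B : ℝ) : ℂ) *
        (Complex.exp (2 * Real.pi * (c1 b : ℂ) * zz N β) / zz N β) *
          e (-((m - P3r b x) * β))) := by
      have hc1 : Continuous fun β : ℝ => ((1 - |β| / B : ℝ) : ℂ) := by fun_prop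
      have hc2 : Continuous fun β : ℝ =>
          Complex.exp (2 * Real.pi * (c1 b : ℂ) * zz N β) / zz N β := by
        refine Continuous.div ?_ hz (zz_ne hN)
        exact Complex.continuous_exp.comp (continuous_const.mul hz)
      have hc3 : Continuous fun s : ℝ × ℝ => e (-((m - P3r b s.2) * s.1)) := by
        refine he.comp ?_
        exact ((continuous_const.sub (hP.comp continuous_snd)).mul continuous_fst).neg
      exact ((hc1.comp continuous_fst).mul (hc2.comp continuous_fst)).mul hc3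
    have hk : IsCompact (Set.uIcc (-B) B ×ˢ Set.uIcc (0 : ℝ) T) :=
      isCompact_uIcc.prod isCompact_uIcc
    refine (hc.continuousOn.integrableOn_compact hk).mono_set ?_
    exact Set.prod_mono Set.uIoc_subset_uIcc Set.uIoc_subset_uIcc

end JxAux

theorem Jt_lower (b : Bool) : ∃ c : ℝ, 0 < c ∧ ∀ (T N : ℕ) (B : ℝ) (m : ℤ), 1 ≤ N → 1 / (N : ℝ) ≤ B →
    P3 b T ≤ m → m ≤ N → ∃ r : ℝ, Jt b T N B m = (r : ℂ) ∧ c * T ≤ r := by
  have hpi := Real.pi_pos
  refine ⟨Real.exp (-(2 * Real.pi)) * (Real.pi / 8 * Real.exp (-(Real.pi / 4))), by positivity,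
    fun T N B m hN hB hm hmN => ⟨_, JxAux.Jt_eq b T hN B m, ?_⟩⟩
  have hN' : (0 : ℝ) < (N : ℝ) := by exact_mod_cast hN
  have hm' : P3r b T ≤ (m : ℝ) := by
    rw [JxAux.P3r_nat]
    exact_mod_cast hm
  have hmN' : (m : ℝ) ≤ (N : ℝ) := by exact_mod_cast hmN
  have hT : (0 : ℝ) ≤ (T : ℝ) := Nat.cast_nonneg T
  have hP := JxAux.continuous_P3r b
  have hR := JxAux.continuous_R hN B
  have h0 : ∫ x in (0 : ℝ)..T, Real.exp (-(2 * Real.pi)) *
      (Real.pi / 8 * Real.exp (-(Real.pi / 4))) = Real.exp (-(2 * Real.pi)) *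
      (Real.pi / 8 * Real.exp (-(Real.pi / 4))) * T := by
    rw [intervalIntegral.integral_const, smul_eq_mul]
    ring
  rw [← h0]
  refine intervalIntegral.integral_mono_on hT (by simp) ?_ fun x hx => ?_
  · refine Continuous.intervalIntegrable ?_ _ _
    refine Continuous.mul ?_ (hR.comp (by fun_prop))
    fun_prop
  · have hx0 : 0 ≤ P3r b x := JxAux.P3r_nonneg b hx.1
    have hx1 : P3r b x ≤ P3r b T := JxAux.P3r_mono b hx.1 hx.2
    have hy0 : 0 ≤ (m : ℝ) - P3r b x := by linarith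
    have h1 := JnAux.R_lower hN hB (add_nonneg (JnAux.c1_nonneg b) hy0)
    have h2 : Real.exp (-(2 * Real.pi)) ≤
        Real.exp (-(2 * Real.pi * ((m : ℝ) - P3r b x) / N)) := by
      rw [Real.exp_le_exp, neg_le_neg_iff, div_le_iff₀ hN']
      nlinarith
    exact mul_le_mul h2 h1 (by positivity) (Real.exp_pos _).le

end Pool.Agent.Lib.TS4
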