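import Pool.Agent.Lib.TSP.VarB

/-!
# TS4.VarB: the minor arcs, `Q ≤ N^(1/4)` (0.7 h)
PROOF. Exactly as TSP/VarB.lean: the hypotheses `T^5 ≤ N`, `Q^9 ≤ N²` were used only for `Q ≤ Nat.sqrt N` and `T ≤ N`. (`Q^4 ≤ N` gives `Q² ≤ N`; `T ≤ Q`.)
-/

set_option autoImplicit false

open Finset

namespace Pool.Agent.Lib.TS4

open Pool.Agent.Lib.TSP

open VarAAux VarBAux in
theorem varB4 (b : Bool) (ε : ℝ) (hε : 0 < ε) : ∃ C : ℝ, 0 < C ∧ ∀ N T Q : ℕ, 1 ≤ T → T ≤ Q →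
    Q ^ 4 ≤ N → ∑ q ∈ Icc 1 Q, ∑ a ∈ cop q,
      (∫ β in {β : ℝ | (T : ℝ) / N ≤ |β| ∧ |β| ≤ 1 / ((q : ℝ) * (Nat.sqrt N : ℕ))},
        ‖F b T N ((a : ℝ) / q + β)‖ ^ 2) ≤ C * (N : ℝ) ^ (1 + ε) * Q := by
  obtain ⟨C₁, hC₁, hprod⟩ := prod_bounds b
  refine ⟨2 * C₁ ^ 2 * (1 + 1 / ε), by positivity, ?_⟩
  intro N T Q hT hTQ hQN
  have hQ1 : 1 ≤ Q := hT.trans hTQ
  have hN : 1 ≤ N := le_trans (Nat.one_le_pow _ _ hQ1) hQN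
  have hQ2 : Q ^ 2 ≤ N := le_trans (Nat.pow_le_pow_right hQ1 (by norm_num)) hQN
  have hQle : Q ≤ N := le_trans (Nat.le_self_pow (by norm_num) Q) hQ2
  have hN' : (0 : ℝ) < N := by exact_mod_cast hN
  have hT' : (1 : ℝ) ≤ T := by exact_mod_cast hT
  have hTQ' : (T : ℝ) ≤ Q := by exact_mod_cast hTQ
  have hQR : Q ≤ Nat.sqrt N := by
    rw [Nat.le_sqrt']
    exact hQ2
  have hper : ∀ q ∈ Icc 1 Q, ∑ a ∈ cop q,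
      (∫ β in {β : ℝ | (T : ℝ) / N ≤ |β| ∧ |β| ≤ 1 / ((q : ℝ) * (Nat.sqrt N : ℕ))},
        ‖F b T N ((a : ℝ) / q + β)‖ ^ 2) ≤ 2 * C₁ ^ 2 * N * T * (1 / (q : ℝ)) := by
    intro q hq
    obtain ⟨hq1, hqQ⟩ := mem_Icc.mp hq
    have hq' : (0 : ℝ) < q := by exact_mod_cast hq1
    refine (sum_le_sum fun a ha => oneB hN hT hq1 (hqQ.trans hQR) ha hprod).trans ?_
    rw [sum_const, nsmul_eq_mul]
    calc ((cop q).card : ℝ) * (2 * C₁ ^ 2 * N * T / (q : ℝ) ^ 2)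
        ≤ q * (2 * C₁ ^ 2 * N * T / (q : ℝ) ^ 2) := by
          exact mul_le_mul_of_nonneg_right (cop_card q) (by positivity)
      _ = 2 * C₁ ^ 2 * N * T * (1 / (q : ℝ)) := by
          field_simp
  refine (sum_le_sum hper).trans ?_
  rw [← mul_sum]
  have s1 := harm hN hQ1 hQle hε
  have hNe : (N : ℝ) ^ (1 + ε) = N * (N : ℝ) ^ ε := by
    rw [Real.rpow_add hN', Real.rpow_one]
  have hNe0 : 0 ≤ (N : ℝ) ^ ε := by positivity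
  calc 2 * C₁ ^ 2 * N * T * (∑ q ∈ Icc 1 Q, 1 / (q : ℝ))
      ≤ 2 * C₁ ^ 2 * N * Q * ((1 + 1 / ε) * (N : ℝ) ^ ε) := by gcongr
    _ = _ := by
        rw [hNe]
        ring

open VarAAux VarBAux in
theorem varC4 (b : Bool) (ε : ℝ) (hε : 0 < ε) : ∃ C : ℝ, 0 < C ∧ ∀ N T : ℕ, 1 ≤ T → T ≤ N →
    ∑ q ∈ Ioc T (Nat.sqrt N), ∑ a ∈ cop q,
      (∫ β in {β : ℝ | |β| ≤ 1 / ((q : ℝ) * (Nat.sqrt N : ℕ))},
        ‖F b T N ((a : ℝ) / q + β)‖ ^ 2) ≤ C * (N : ℝ) ^ (1 + ε) * T := by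
  obtain ⟨C₁, hC₁, hprod⟩ := prod_bounds b
  obtain ⟨C₃, hC₃, hdiv⟩ := div_sum1 b ε hε
  refine ⟨2 * Real.pi * C₁ ^ 2 * C₃, ?_, ?_⟩
  · have := Real.pi_pos
    positivity
  intro N T hT hTle
  have hπ := Real.pi_pos
  have hN : 1 ≤ N := le_trans hT hTle
  have hN' : (0 : ℝ) < N := by exact_mod_cast hN
  have hT' : (0 : ℝ) < T := by exact_mod_cast hT
  have hper : ∀ q ∈ Ioc T (Nat.sqrt N), ∑ a ∈ cop q,
      (∫ β in {β : ℝ | |β| ≤ 1 / ((q : ℝ) * (Nat.sqrt N : ℕ))},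
        ‖F b T N ((a : ℝ) / q + β)‖ ^ 2) ≤ Real.pi * C₁ ^ 2 * N * (D2 b T q / q) := by
    intro q hq
    obtain ⟨hq1, hqQ⟩ := mem_Ioc.mp hq
    exact oneC hN (by omega) hqQ hprod
  refine (sum_le_sum hper).trans ?_
  rw [← mul_sum]
  have s2 := hdiv T T (Nat.sqrt N) N hT hTle (Nat.sqrt_le_self N) hT
  have hNe : (N : ℝ) ^ (1 + ε) = N * (N : ℝ) ^ ε := by
    rw [Real.rpow_add hN', Real.rpow_one]
  calc Real.pi * C₁ ^ 2 * N * (∑ q ∈ Ioc T (Nat.sqrt N), (D2 b T q : ℝ) / q)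
      ≤ Real.pi * C₁ ^ 2 * N * (C₃ * (N : ℝ) ^ ε * (T + (T : ℝ) ^ 2 / T)) := by gcongr
    _ = _ := by
        rw [hNe]
        field_simp
        ring

end Pool.Agent.Lib.TS4
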