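import Pool.Agent.Lib.TS4.VarA
import Pool.Agent.Lib.TS4.VarB
import Pool.Agent.Lib.TSP.Var

/-!
# TS4.Var: the variance, `Q ≤ N^(1/4)` (1 h)  (adapt TSP/Var.lean)
PROOF. `arc` with `F = F b T N`, `Ψ a q β = Psi4 b T N B a q β` (continuous), `B = T/N`, `R = Nat.sqrt N` (`2BQ² ≤ 2Q³/N ≤ 2 N^(-1/4) < 1` for `N ≥ 17`). For `¬ Rep b T m` the integral of `F` is `0` (`coef_zero`). The other term:
`∑_a e(-ma/q) ∫ Psi4 e(-mβ) = C0 Jt b T N B m (∑_a G G S e(-ma/q))/q³ = C0 Jt A b m q` (`expo`).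
-/

set_option autoImplicit false

open Finset

namespace Pool.Agent.Lib.TS4

open Pool.Agent.Lib.TSP

namespace VarAux

theorem cont_e : Continuous e := by
  unfold e
  fun_prop

theorem cont_II (b : Bool) (T : ℕ) : Continuous (II b T) := by
  unfold II
  apply intervalIntegral.continuous_parametric_intervalIntegral_of_continuous'
  have h : Continuous fun p : ℝ × ℝ => p.1 * P3r b p.2 := by
    unfold P3r
    cases b
    · simp only [Bool.false_eq_true, if_false]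
      fun_prop
    · simp only [if_true]
      fun_prop
  exact cont_e.comp h

theorem cont_Psi4 (b : Bool) (T : ℕ) {N : ℕ} (hN : 1 ≤ N) (B : ℝ) (a q : ℕ) :
    Continuous (Psi4 b T N B a q) := by
  have hz : Continuous (zz N) := by
    unfold zz
    fun_prop
  have hI := cont_II b T
  unfold Psi4 M12
  have h1 : Continuous fun β : ℝ => ((1 - |β| / B : ℝ) : ℂ) := by
    refine Complex.continuous_ofReal.comp ?_
    exact continuous_const.sub (continuous_abs.div_const B)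
  have h2 : Continuous fun β : ℝ => Complex.exp (2 * Real.pi * (c1 b : ℂ) * zz N β) / zz N β := by
    refine Continuous.div ?_ hz (Pool.Agent.Lib.TSP.VarAux.zz_ne hN)
    exact Complex.continuous_exp.comp (continuous_const.mul hz)
  exact h1.mul ((continuous_const.mul h2).mul (continuous_const.mul hI))

theorem inner_int4 (b : Bool) (T N : ℕ) (B : ℝ) (a q : ℕ) (m : ℤ) :
    (∫ β in (-B)..B, Psi4 b T N B a q β * e (-((m : ℝ) * β))) =
      ((C0 : ℂ) * (G 490 (v1 b) a 0 q * G 350 (v2 b) a 0 q * S b a q) / (q : ℂ) ^ 3) *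
        Jt b T N B m := by
  rw [Jt, ← intervalIntegral.integral_const_mul]
  refine intervalIntegral.integral_congr fun β _ => ?_
  show Psi4 b T N B a q β * e (-((m : ℝ) * β)) = _
  rw [Psi4, M12]
  by_cases hq : (q : ℂ) = 0
  · simp [hq]
  · field_simp

theorem main_term4 (b : Bool) (T N : ℕ) (B : ℝ) (m : ℤ) (M : Finset ℕ) (hM : ∀ q ∈ M, 0 < q) :
    (∑ q ∈ M, ∑ a ∈ cop q, e (-((m : ℝ) * ((a : ℝ) / q))) *
      ∫ β in (-B)..B, Psi4 b T N B a q β * e (-((m : ℝ) * β))) =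
      ((C0 * ∑ q ∈ M, A b m q : ℝ) : ℂ) * Jt b T N B m := by
  have h1 : ∀ q ∈ M, (∑ a ∈ cop q, e (-((m : ℝ) * ((a : ℝ) / q))) *
      ∫ β in (-B)..B, Psi4 b T N B a q β * e (-((m : ℝ) * β))) =
      (C0 : ℂ) * (A b m q : ℂ) * Jt b T N B m := by
    intro q hq
    have h2 := expo b m (hM q hq)
    rw [← h2, Finset.sum_div, Finset.mul_sum, Finset.sum_mul]
    refine Finset.sum_congr rfl fun a _ => ?_
    rw [inner_int4]
    ring
  rw [Finset.sum_congr rfl h1]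
  push_cast
  rw [Finset.mul_sum, Finset.sum_mul]

end VarAux

open Pool.Agent.Lib.TS4.VarAux in
theorem var4 (b : Bool) (ε : ℝ) (hε : 0 < ε) : ∃ C : ℝ, 0 < C ∧ ∀ N T Q : ℕ, 17 ≤ N → 1 ≤ T →
    T ≤ Q → Q ^ 4 ≤ N → ∀ M : Finset ℕ, Icc 1 T ⊆ M → M ⊆ Icc 1 Q → ∀ X : Finset ℤ,
    (∀ m ∈ X, ¬ Rep b T m) →
    ∑ m ∈ X, ‖((C0 * ∑ q ∈ M, A b m q : ℝ) : ℂ) * Jt b T N ((T : ℝ) / N) m‖ ^ 2
      ≤ C * (N : ℝ) ^ (1 + ε) * Q := by
  obtain ⟨CA, hCA, hA⟩ := varA4 b ε hε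
  obtain ⟨CB, hCB, hB⟩ := varB4 b ε hε
  obtain ⟨CC, hCC, hC⟩ := varC4 b ε hε
  refine ⟨CA + 5 * CB + 5 * CC, by positivity, ?_⟩
  intro N T Q hN17 hT hTQ hQN M hTM hMQ X hX
  have hN : 1 ≤ N := by omega
  have hN' : (0 : ℝ) < N := by exact_mod_cast hN
  have hT' : (0 : ℝ) < T := by exact_mod_cast hT
  have hQ1 : 1 ≤ Q := le_trans hT hTQ
  have hBpos : (0 : ℝ) < (T : ℝ) / N := by positivity
  have hMm : ∀ q ∈ M, 1 ≤ q ∧ q ≤ Q := fun q hq => Finset.mem_Icc.1 (hMQ hq)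
  have hTNle : T ≤ N := by
    calc T ≤ Q := hTQ
      _ = Q ^ 1 := (pow_one Q).symm
      _ ≤ Q ^ 4 := Nat.pow_le_pow_right hQ1 (by norm_num)
      _ ≤ N := hQN
  have h3 : 2 * Q ^ 3 < N := by
    by_contra hcon
    push Not at hcon
    have h4 : N ^ 4 ≤ (2 * Q ^ 3) ^ 4 := Nat.pow_le_pow_left hcon 4
    have h5 : (2 * Q ^ 3) ^ 4 = 16 * (Q ^ 4) ^ 3 := by ring
    rw [h5] at h4
    have h6 : N ^ 4 ≤ 16 * N ^ 3 := by
      calc N ^ 4 ≤ 16 * (Q ^ 4) ^ 3 := h4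
        _ ≤ 16 * N ^ 3 := by gcongr
    have h7 : 17 * N ^ 3 ≤ N ^ 4 := by
      calc 17 * N ^ 3 ≤ N * N ^ 3 := by gcongr
        _ = N ^ 4 := by ring
    have h8 : 0 < N ^ 3 := by positivity
    omega
  have hBQ : 2 * ((T : ℝ) / N) * (Q : ℝ) ^ 2 < 1 := by
    have h4 : 2 * T * Q ^ 2 ≤ 2 * Q ^ 3 := by
      calc 2 * T * Q ^ 2 ≤ 2 * Q * Q ^ 2 := by gcongr
        _ = 2 * Q ^ 3 := by ring
    have h5 : 2 * T * Q ^ 2 < N := lt_of_le_of_lt h4 h3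
    have h6 : (2 : ℝ) * T * (Q : ℝ) ^ 2 < N := by exact_mod_cast h5
    have h7 : 2 * ((T : ℝ) / N) * (Q : ℝ) ^ 2 = (2 * T * (Q : ℝ) ^ 2) / N := by ring
    rw [h7, div_lt_one hN']
    exact h6
  have hR : 1 ≤ Nat.sqrt N := Nat.sqrt_pos.2 (by omega)
  have key := arc (F b T N) (F_cont b T hN) (F_per b T N) (fun a q => Psi4 b T N ((T : ℝ) / N) a q)
    (fun a q => cont_Psi4 b T hN _ a q) M Q (Nat.sqrt N) hQ1 hMm ((T : ℝ) / N) hBpos hBQ hR X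
  have hL : ∑ m ∈ X, ‖((C0 * ∑ q ∈ M, A b m q : ℝ) : ℂ) * Jt b T N ((T : ℝ) / N) m‖ ^ 2 =
      ∑ m ∈ X, ‖(∫ α in (-(1 / (2 * (Q : ℝ))))..(1 - 1 / (2 * (Q : ℝ))),
          F b T N α * e (-((m : ℝ) * α))) -
        ∑ q ∈ M, ∑ a ∈ cop q, e (-((m : ℝ) * ((a : ℝ) / q))) *
          ∫ β in (-((T : ℝ) / N))..((T : ℝ) / N),
            Psi4 b T N ((T : ℝ) / N) a q β * e (-((m : ℝ) * β))‖ ^ 2 := by
    refine Finset.sum_congr rfl fun m hm => ?_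
    rw [coef_zero b T hN m (hX m hm) _ _ (by ring), main_term4 b T N _ m M (fun q hq => (hMm q hq).1),
      zero_sub, norm_neg]
  rw [hL]
  refine key.trans ?_
  have hab : -((T : ℝ) / N) ≤ (T : ℝ) / N := by linarith
  have s1 : (∑ q ∈ M, ∑ a ∈ cop q, ∫ β in (-((T : ℝ) / N))..((T : ℝ) / N),
      ‖F b T N ((a : ℝ) / q + β) - Psi4 b T N ((T : ℝ) / N) a q β‖ ^ 2) ≤
      CA * (N : ℝ) ^ (1 + ε) * Q := by
    refine le_trans (Finset.sum_le_sum_of_subset_of_nonneg hMQ ?_) (hA N T Q hT hTQ hQN)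
    intro q _ _
    refine Finset.sum_nonneg fun a _ => ?_
    exact intervalIntegral.integral_nonneg hab fun β _ => by positivity
  have s2 : (∑ q ∈ M, ∑ a ∈ cop q,
      ∫ β in {β : ℝ | (T : ℝ) / N ≤ |β| ∧ |β| ≤ 1 / ((q : ℝ) * (Nat.sqrt N : ℕ))},
        ‖F b T N ((a : ℝ) / q + β)‖ ^ 2) ≤ CB * (N : ℝ) ^ (1 + ε) * Q := by
    refine le_trans (Finset.sum_le_sum_of_subset_of_nonneg hMQ ?_) (hB N T Q hT hTQ hQN)
    intro q _ _
    refine Finset.sum_nonneg fun a _ => ?_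
    exact MeasureTheory.integral_nonneg fun β => by positivity
  have s3 : (∑ q ∈ Icc 1 (Nat.sqrt N) \ M, ∑ a ∈ cop q,
      ∫ β in {β : ℝ | |β| ≤ 1 / ((q : ℝ) * (Nat.sqrt N : ℕ))},
        ‖F b T N ((a : ℝ) / q + β)‖ ^ 2) ≤ CC * (N : ℝ) ^ (1 + ε) * T := by
    refine le_trans (Finset.sum_le_sum_of_subset_of_nonneg ?_ ?_) (hC N T hT hTNle)
    · intro q hq
      rw [Finset.mem_sdiff, Finset.mem_Icc] at hq
      rw [Finset.mem_Ioc]
      refine ⟨?_, hq.1.2⟩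
      by_contra hcon
      push Not at hcon
      exact hq.2 (hTM (Finset.mem_Icc.2 ⟨hq.1.1, hcon⟩))
    · intro q _ _
      refine Finset.sum_nonneg fun a _ => ?_
      exact MeasureTheory.integral_nonneg fun β => by positivity
  have hTQ' : (T : ℝ) ≤ Q := by exact_mod_cast hTQ
  have s4 : CC * (N : ℝ) ^ (1 + ε) * T ≤ CC * (N : ℝ) ^ (1 + ε) * Q := by
    have : 0 ≤ CC * (N : ℝ) ^ (1 + ε) := by positivity
    exact mul_le_mul_of_nonneg_left hTQ' this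
  calc _ ≤ CA * (N : ℝ) ^ (1 + ε) * Q + 5 * (CB * (N : ℝ) ^ (1 + ε) * Q) +
        5 * (CC * (N : ℝ) ^ (1 + ε) * T) := by
        refine add_le_add (add_le_add s1 ?_) ?_
        · exact mul_le_mul_of_nonneg_left s2 (by norm_num)
        · exact mul_le_mul_of_nonneg_left s3 (by norm_num)
    _ ≤ CA * (N : ℝ) ^ (1 + ε) * Q + 5 * (CB * (N : ℝ) ^ (1 + ε) * Q) +
        5 * (CC * (N : ℝ) ^ (1 + ε) * Q) := by linarith
    _ = (CA + 5 * CB + 5 * CC) * (N : ℝ) ^ (1 + ε) * Q := by ring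

end Pool.Agent.Lib.TS4
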