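import Pool.Agent.Lib.TS4.Ser
import Pool.Agent.Lib.TS4.Var
import Pool.Agent.Lib.TS4.Jx
import Pool.Agent.Lib.TSP.CoreF

/-!
# TS4.Core: the core theorem, `T ≤ N^(1/4)` (1.2 h)  (adapt TSP/CoreF.lean)
PROOF. We may assume `ε ≤ 1`; `ε' = ε/100`, `U = ⌈N^ε'⌉`, `T' = ⌊T/(100 U)⌋`. If `T' = 0` then `T < 100 U` and the number is `≤ N + 1 ≤ 2N·100U/T ≤ C N^(1+ε)/T`. Let `T' ≥ 1`, so `T' ≥ T/(200U)`, `Q = T' U ≤ T/100`, `Q⁴ ≤ N`, `T'⁴ ≤ N`,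
`P₃(T') ≤ 1.2·10^7 T'⁴ ≤ 1.2·10^7 T⁴/(10^8) ≤ N/8 ≤ N/2` (natural division, `N ≥ 2`). `¬ Rep b T m` implies `¬ Rep b T' m`. For `N ≥ N0`: `ser_low4` with `ε'` and `T'`, `M = Qs z T' U`, `Icc 1 T' ⊆ M ⊆ Icc 1 Q` (`Qs_sub`).
`X` = the `m ∈ [N/2, N]` in question outside the exceptional set. `var4` with `ε'`: `∑_{m∈X} |C0 (∑_M A) Jt|² ≤ C N^(1+ε') Q`, each term is `≥ (C0 N^(-ε') c T')²` (`Jt_lower`, `B = T'/N`). So `|X| ≤ C' N^(1+3ε') Q/T'² = C' N^(1+3ε') U/T'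
≤ C'' N^(1+5ε')/T`. The exceptional set has at most `N^(3/4+ε') ≤ N^(1+ε')/T` elements (`T ≤ N^(1/4)`). `N < N0`: at most `N + 1`.
-/

set_option autoImplicit false

open Finset

namespace Pool.Agent.Lib.TS4

open Pool.Agent.Lib.TSP

namespace CoreAux

open Pool.Agent.Lib.TSP.CoreFAux

theorem T_le4 {N T : ℕ} (hT : T ^ 4 ≤ N) : (T : ℝ) ≤ (N : ℝ) ^ ((1 : ℝ) / 4) := by
  have h1 : ((T : ℝ) ^ 4) ≤ N := by exact_mod_cast hT
  have h2 : ((T : ℝ) ^ 4) ^ ((1 : ℝ) / 4) ≤ (N : ℝ) ^ ((1 : ℝ) / 4) :=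
    Real.rpow_le_rpow (by positivity) h1 (by norm_num)
  have h3 : ((T : ℝ) ^ 4) ^ ((1 : ℝ) / 4) = T := by
    rw [← Real.rpow_natCast, ← Real.rpow_mul (by positivity)]
    norm_num
  rwa [h3] at h2

theorem Rep_mono (b : Bool) {T T' : ℕ} (h : T' ≤ T) {m : ℤ} (hr : Rep b T' m) : Rep b T m := by
  obtain ⟨x, y, t, ht, hm⟩ := hr
  exact ⟨x, y, t, lt_of_lt_of_le ht h, hm⟩

theorem P3_le (b : Bool) {T : ℕ} (hT : 1 ≤ T) : P3 b T ≤ 12000000 * (T : ℤ) ^ 4 := by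
  have h1 : (1 : ℤ) ≤ T := by exact_mod_cast hT
  have h2 : (T : ℤ) ≤ (T : ℤ) ^ 4 := le_self_pow₀ h1 (by norm_num)
  have h3 : (T : ℤ) ^ 2 ≤ (T : ℤ) ^ 4 := pow_le_pow_right₀ h1 (by norm_num)
  have h4 : (T : ℤ) ^ 3 ≤ (T : ℤ) ^ 4 := pow_le_pow_right₀ h1 (by norm_num)
  unfold P3
  split_ifs <;> linarith

theorem P3_le_half (b : Bool) {T N : ℕ} (hT : 1 ≤ T) (h : (100 * T) ^ 4 ≤ N) :
    P3 b T ≤ ((N / 2 : ℕ) : ℤ) := by
  have h1 := P3_le b hT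
  have h2 : (100000000 : ℤ) * (T : ℤ) ^ 4 ≤ N := by
    have : ((100 * (T : ℤ)) ^ 4) ≤ N := by exact_mod_cast h
    linarith [this, mul_pow (100 : ℤ) (T : ℤ) 4]
  have h3 : (1 : ℤ) ≤ (T : ℤ) ^ 4 := one_le_pow₀ (by exact_mod_cast hT)
  have h4 : (N : ℤ) ≤ 2 * ((N / 2 : ℕ) : ℤ) + 1 := by
    have : N ≤ 2 * (N / 2) + 1 := by omega
    exact_mod_cast this
  linarith

/-- the size of the set of the non-represented numbers with large singular series -/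
theorem card_X4 (b : Bool) {e CV c : ℝ} (he : 0 < e) (hc : 0 < c)
    (hCV : 0 < CV)
    (hvar : ∀ N T Q : ℕ, 17 ≤ N → 1 ≤ T →
      T ≤ Q → Q ^ 4 ≤ N → ∀ M : Finset ℕ, Icc 1 T ⊆ M → M ⊆ Icc 1 Q → ∀ X : Finset ℤ,
      (∀ m ∈ X, ¬ Rep b T m) →
      ∑ m ∈ X, ‖((C0 * ∑ q ∈ M, A b m q : ℝ) : ℂ) * Jt b T N ((T : ℝ) / N) m‖ ^ 2
        ≤ CV * (N : ℝ) ^ (1 + e) * Q)
    (hJ : ∀ (T N : ℕ) (B : ℝ) (m : ℤ), 1 ≤ N → 1 / (N : ℝ) ≤ B →
      P3 b T ≤ m → m ≤ N → ∃ r : ℝ, Jt b T N B m = (r : ℂ) ∧ c * T ≤ r)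
    (z : ℕ) {N T : ℕ} (hN : 17 ≤ N) (hT : 1 ≤ T)
    (hQN : (T * ⌈(N : ℝ) ^ e⌉₊) ^ 4 ≤ N) (hP : P3 b T ≤ ((N / 2 : ℕ) : ℤ)) (Y : Finset ℕ)
    (hY1 : ∀ m ∈ Y, N / 2 ≤ m ∧ m ≤ N) (hY2 : ∀ m ∈ Y, ¬ Rep b T m)
    (hY3 : ∀ m ∈ Y, (N : ℝ) ^ (-e) ≤ ∑ q ∈ Qs z T ⌈(N : ℝ) ^ e⌉₊, A b m q) :
    (Y.card : ℝ) ≤ 2 * CV / (C0 * c) ^ 2 * (N : ℝ) ^ (1 + 4 * e) / T := by
  have hN1 : 1 ≤ N := le_trans (by norm_num) hN
  have hN1' : (1 : ℝ) ≤ N := by exact_mod_cast hN1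
  have hN0 : (0 : ℝ) < N := by linarith
  have hT0 : (0 : ℝ) < T := by exact_mod_cast hT
  have hC0 := C0_pos
  set U := ⌈(N : ℝ) ^ e⌉₊ with hU
  have hU1 : 1 ≤ U := by
    rw [hU, Nat.one_le_iff_ne_zero, Ne, Nat.ceil_eq_zero, not_le]
    positivity
  have hU2 := U_le hN1 he
  have hUT : T ≤ T * U := Nat.le_mul_of_pos_right _ hU1
  have h1 := hvar N T (T * U) hN hT hUT hQN
    (Qs z T U) (Qs_sub z T U hU1) (Qs_sub' z T U) (Y.image (fun m : ℕ => (m : ℤ))) (by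
      intro m hm
      obtain ⟨m', hm', rfl⟩ := mem_image.1 hm
      exact hY2 m' hm')
  rw [sum_image (fun a _ b _ h => by exact_mod_cast h)] at h1
  set L : ℝ := C0 * (N : ℝ) ^ (-e) * (c * T) with hL
  have hL0 : 0 < L := by positivity
  have h2 : ∀ m ∈ Y, L ^ 2 ≤
      ‖((C0 * ∑ q ∈ Qs z T U, A b m q : ℝ) : ℂ) * Jt b T N ((T : ℝ) / N) m‖ ^ 2 := by
    intro m hm
    obtain ⟨r, hr, hcr⟩ := hJ T N ((T : ℝ) / N) m hN1 (by
      have : (1 : ℝ) ≤ T := by exact_mod_cast hT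
      gcongr) (hP.trans (by exact_mod_cast (hY1 m hm).1)) (by exact_mod_cast (hY1 m hm).2)
    have h3 := hY3 m hm
    have h4 : 0 < (N : ℝ) ^ (-e) := by positivity
    rw [hr, norm_mul, Complex.norm_real, Complex.norm_real, Real.norm_eq_abs, Real.norm_eq_abs]
    have h5 : C0 * (N : ℝ) ^ (-e) ≤ |C0 * ∑ q ∈ Qs z T U, A b m q| := by
      refine le_trans ?_ (le_abs_self _)
      gcongr
    have h6 : c * T ≤ |r| := hcr.trans (le_abs_self _)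
    have h7 : L ≤ |C0 * ∑ q ∈ Qs z T U, A b m q| * |r| := by
      rw [hL]
      exact mul_le_mul h5 h6 (by positivity) (abs_nonneg _)
    exact pow_le_pow_left₀ hL0.le h7 2
  have h3 : (Y.card : ℝ) * L ^ 2 ≤ CV * (N : ℝ) ^ (1 + e) * ((T * U : ℕ) : ℝ) := by
    refine le_trans ?_ h1
    rw [← nsmul_eq_mul]
    exact card_nsmul_le_sum _ _ _ h2
  have h4 : CV * (N : ℝ) ^ (1 + e) * ((T * U : ℕ) : ℝ) ≤
      2 * CV * T * (N : ℝ) ^ (1 + 2 * e) := by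
    have h5 : (N : ℝ) ^ (1 + 2 * e) = (N : ℝ) ^ (1 + e) * (N : ℝ) ^ e := by
      rw [← Real.rpow_add hN0]
      ring_nf
    rw [h5]
    push_cast
    calc CV * (N : ℝ) ^ (1 + e) * ((T : ℝ) * U) ≤
        CV * (N : ℝ) ^ (1 + e) * ((T : ℝ) * (2 * (N : ℝ) ^ e)) := by gcongr
      _ = _ := by ring
  have h5 : L ^ 2 = (C0 * c) ^ 2 * (T : ℝ) ^ 2 * (N : ℝ) ^ (-(2 * e)) := by
    have h6 : (N : ℝ) ^ (-(2 * e)) = ((N : ℝ) ^ (-e)) ^ 2 := by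
      rw [← Real.rpow_natCast, ← Real.rpow_mul hN0.le]
      congr 1
      push_cast
      ring
    rw [hL, h6]
    ring
  have h6 : (N : ℝ) ^ (1 + 2 * e) = (N : ℝ) ^ (1 + 4 * e) * (N : ℝ) ^ (-(2 * e)) := by
    rw [← Real.rpow_add hN0]
    ring_nf
  have h7 : (0 : ℝ) < (N : ℝ) ^ (-(2 * e)) := by positivity
  have h8 : (Y.card : ℝ) * ((C0 * c) ^ 2 * (T : ℝ) ^ 2 * (N : ℝ) ^ (-(2 * e))) ≤
      2 * CV * T * ((N : ℝ) ^ (1 + 4 * e) * (N : ℝ) ^ (-(2 * e))) := by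
    rw [← h5, ← h6]
    exact h3.trans h4
  have h9 : (Y.card : ℝ) * ((C0 * c) ^ 2 * (T : ℝ) ^ 2) ≤ 2 * CV * T * (N : ℝ) ^ (1 + 4 * e) := by
    refine le_of_mul_le_mul_right ?_ h7
    calc (Y.card : ℝ) * ((C0 * c) ^ 2 * (T : ℝ) ^ 2) * (N : ℝ) ^ (-(2 * e)) =
        (Y.card : ℝ) * ((C0 * c) ^ 2 * (T : ℝ) ^ 2 * (N : ℝ) ^ (-(2 * e))) := by ring
      _ ≤ _ := h8
      _ = 2 * CV * T * (N : ℝ) ^ (1 + 4 * e) * (N : ℝ) ^ (-(2 * e)) := by ring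
  have h10 : (0 : ℝ) < (C0 * c) ^ 2 := by positivity
  rw [div_mul_eq_mul_div, div_div, le_div_iff₀ (by positivity)]
  refine le_of_mul_le_mul_right ?_ hT0
  calc (Y.card : ℝ) * ((C0 * c) ^ 2 * T) * T = (Y.card : ℝ) * ((C0 * c) ^ 2 * (T : ℝ) ^ 2) := by ring
    _ ≤ _ := h9
    _ = 2 * CV * (N : ℝ) ^ (1 + 4 * e) * T := by ring

end CoreAux

open CoreAux Pool.Agent.Lib.TSP.CoreFAux

open Classical in
theorem core4 (b : Bool) (ε : ℝ) (hε : 0 < ε) : ∃ C : ℝ, 0 < C ∧ ∀ N T : ℕ, 1 ≤ T → T ^ 4 ≤ N →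
    (((Icc (N / 2) N).filter fun m : ℕ => (∀ p : ℕ, p.Prime → Odd p → ¬ ((p : ℤ) ^ 4 ∣ 4 * (m : ℤ) + n1 b)) ∧
      ¬ Rep b T m).card : ℝ) ≤ C * (N : ℝ) ^ (1 + ε) / T := by
  obtain ⟨e', he0, he1, he2⟩ : ∃ e' : ℝ, 0 < e' ∧ e' ≤ 1 / 100 ∧ 5 * e' ≤ ε := by
    refine ⟨min ε 1 / 100, ?_, ?_, ?_⟩
    · have : 0 < min ε 1 := lt_min hε one_pos
      positivity
    · have := min_le_right ε 1
      linarith
    · have := min_le_left ε 1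
      have : 0 < min ε 1 := lt_min hε one_pos
      linarith
  obtain ⟨A0, N1, hser⟩ := ser_low4 b e' he0
  obtain ⟨CV, hCV, hvar⟩ := var4 b e' he0
  obtain ⟨c, hc, hJ⟩ := Jt_lower b
  have hC0 := C0_pos
  set K : ℝ := 2 * CV / (C0 * c) ^ 2 with hK
  have hK0 : 0 < K := by positivity
  refine ⟨(N1 : ℝ) + 1 + 400 + (1 + 400 * K), by positivity, ?_⟩
  intro N T hT hTN
  have hTN' : T ≤ N := le_trans (Nat.le_self_pow (by norm_num) T) hTN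
  have hN1 : 1 ≤ N := le_trans hT hTN'
  have hN1' : (1 : ℝ) ≤ N := by exact_mod_cast hN1
  have hN0 : (0 : ℝ) < N := by linarith
  have hT0 : (0 : ℝ) < T := by exact_mod_cast hT
  have hN1c : (0 : ℝ) ≤ (N1 : ℝ) := Nat.cast_nonneg _
  have hq0 : (0 : ℝ) < (N : ℝ) ^ (1 + ε) / T := by positivity
  have hcardall : ∀ s : ℕ → Prop, ∀ _ : DecidablePred s,
      ((((Icc (N / 2) N).filter s).card : ℕ) : ℝ) ≤ (N : ℝ) + 1 := by
    intro s _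
    have h1 : ((Icc (N / 2) N).filter s).card ≤ N + 1 := by
      refine (card_filter_le _ _).trans ?_
      rw [Nat.card_Icc]
      omega
    exact_mod_cast h1
  set U := ⌈(N : ℝ) ^ e'⌉₊ with hU
  have hU1 : 1 ≤ U := by
    rw [hU, Nat.one_le_iff_ne_zero, Ne, Nat.ceil_eq_zero, not_le]
    positivity
  have hU2 := U_le hN1 he0
  obtain ⟨T', hT'⟩ : ∃ T' : ℕ, T' = T / (100 * U) := ⟨_, rfl⟩
  rw [mul_div_assoc]
  by_cases hT'1 : 1 ≤ T'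
  swap
  · -- `T' = 0`
    have h1 : T < 100 * U := by
      have h2 : T / (100 * U) = 0 := by omega
      rcases Nat.div_eq_zero_iff.1 h2 with h3 | h3
      · omega
      · exact h3
    have h2 : (T : ℝ) ≤ 200 * (N : ℝ) ^ e' := by
      have h3 : (T : ℝ) ≤ 100 * (U : ℝ) := by exact_mod_cast h1.le
      rw [← hU] at hU2
      linarith
    refine (hcardall _ _).trans ?_
    have h3 : (N : ℝ) + 1 ≤ 400 * ((N : ℝ) ^ (1 + ε) / T) := by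
      rw [mul_div_assoc', le_div_iff₀ hT0]
      calc ((N : ℝ) + 1) * T ≤ (2 * N) * (200 * (N : ℝ) ^ e') := by
            gcongr
            linarith
        _ = 400 * (N : ℝ) ^ (1 + e') := by
            rw [Real.rpow_add hN0, Real.rpow_one]
            ring
        _ ≤ _ := by
            have : (N : ℝ) ^ (1 + e') ≤ (N : ℝ) ^ (1 + ε) :=
              Real.rpow_le_rpow_of_exponent_le hN1' (by linarith)
            linarith
    have h4 : 0 ≤ (N1 : ℝ) * ((N : ℝ) ^ (1 + ε) / T) := mul_nonneg hN1c hq0.le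
    have h5 : 0 ≤ K * ((N : ℝ) ^ (1 + ε) / T) := mul_nonneg hK0.le hq0.le
    linarith
  by_cases hbig : N1 ≤ N
  · -- large `N`
    have hTT : T' * (100 * U) ≤ T := by
      rw [hT']
      exact Nat.div_mul_le_self _ _
    have hT'T : T' ≤ T := by
      rw [hT']
      exact Nat.div_le_self _ _
    have hTlow : T ≤ 200 * U * T' := by
      have h1 : T < (T' + 1) * (100 * U) := by
        rw [hT', mul_comm]
        exact Nat.lt_mul_div_succ T (by omega)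
      nlinarith
    have hT'4 : (100 * T') ^ 4 ≤ N := by
      refine le_trans (Nat.pow_le_pow_left ?_ 4) hTN
      refine le_trans ?_ hTT
      nlinarith
    have hT'N : T' ^ 4 ≤ N := le_trans (Nat.pow_le_pow_left hT'T 4) hTN
    have hQN : (T' * U) ^ 4 ≤ N := by
      refine le_trans (Nat.pow_le_pow_left ?_ 4) hTN
      refine le_trans ?_ hTT
      nlinarith
    have hN17 : 17 ≤ N := by
      refine le_trans ?_ hT'4
      have h1 : 100 ≤ 100 * T' := by omega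
      exact le_trans (by norm_num) (Nat.pow_le_pow_left h1 4)
    have h1 := hser N T' hbig hT'1 hT'N
    set E := (range (N + 1)).filter fun m : ℕ =>
      (∀ p : ℕ, p.Prime → Odd p → ¬ ((p : ℤ) ^ 4 ∣ 4 * (m : ℤ) + n1 b)) ∧
      ∑ q ∈ Qs (zp A0 N) T' U, A b m q < (N : ℝ) ^ (-e') with hE
    set Y := (Icc (N / 2) N).filter fun m : ℕ => ¬ Rep b T m ∧
      (N : ℝ) ^ (-e') ≤ ∑ q ∈ Qs (zp A0 N) T' U, A b m q with hYd
    have h2 : (Y.card : ℝ) ≤ K * (N : ℝ) ^ (1 + 4 * e') / T' := by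
      refine card_X4 b he0 hc hCV hvar hJ (zp A0 N) hN17 hT'1 hQN
        (P3_le_half b hT'1 hT'4) Y ?_ ?_ ?_
      · intro m hm
        exact mem_Icc.1 (mem_filter.1 hm).1
      · intro m hm h
        exact (mem_filter.1 hm).2.1 (Rep_mono b hT'T h)
      · intro m hm
        exact (mem_filter.1 hm).2.2
    refine (Nat.cast_le.2 ((card_le_card (t := E ∪ Y) ?_).trans (card_union_le E Y))).trans ?_
    · intro m hm
      obtain ⟨hm1, hm2, hm3⟩ := mem_filter.1 hm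
      rw [mem_union]
      by_cases hm4 : ∑ q ∈ Qs (zp A0 N) T' U, A b m q < (N : ℝ) ^ (-e')
      · refine Or.inl (mem_filter.2 ⟨?_, hm2, hm4⟩)
        have := (mem_Icc.1 hm1).2
        exact mem_range.2 (by omega)
      · exact Or.inr (mem_filter.2 ⟨hm1, hm3, not_lt.1 hm4⟩)
    push_cast
    have h5 : (N : ℝ) ^ (3 / 4 + e') ≤ (N : ℝ) ^ (1 + ε) / T := by
      rw [le_div_iff₀ hT0]
      have h6 := T_le4 hTN
      calc (N : ℝ) ^ (3 / 4 + e') * T ≤ (N : ℝ) ^ (3 / 4 + e') * (N : ℝ) ^ ((1 : ℝ) / 4) := by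
            gcongr
        _ = (N : ℝ) ^ (1 + e') := by
            rw [← Real.rpow_add hN0]
            congr 1
            ring
        _ ≤ _ := Real.rpow_le_rpow_of_exponent_le hN1' (by linarith)
    have hT'0 : (0 : ℝ) < T' := by exact_mod_cast hT'1
    have h6 : K * (N : ℝ) ^ (1 + 4 * e') / T' ≤ 400 * K * ((N : ℝ) ^ (1 + ε) / T) := by
      rw [mul_div_assoc', div_le_div_iff₀ hT'0 hT0]
      have h7 : (T : ℝ) ≤ 400 * (N : ℝ) ^ e' * T' := by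
        have h8 : (T : ℝ) ≤ 200 * (U : ℝ) * T' := by exact_mod_cast hTlow
        refine h8.trans ?_
        rw [← hU] at hU2
        have h9 : 200 * (U : ℝ) ≤ 400 * (N : ℝ) ^ e' := by linarith
        gcongr
      calc K * (N : ℝ) ^ (1 + 4 * e') * T ≤ K * (N : ℝ) ^ (1 + 4 * e') * (400 * (N : ℝ) ^ e' * T') := by
            gcongr
        _ = 400 * K * ((N : ℝ) ^ (1 + 4 * e') * (N : ℝ) ^ e') * T' := by ring
        _ = 400 * K * (N : ℝ) ^ (1 + 5 * e') * T' := by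
            rw [← Real.rpow_add hN0]
            ring_nf
        _ ≤ 400 * K * (N : ℝ) ^ (1 + ε) * T' := by
            have : (N : ℝ) ^ (1 + 5 * e') ≤ (N : ℝ) ^ (1 + ε) :=
              Real.rpow_le_rpow_of_exponent_le hN1' (by linarith)
            gcongr
    have h9 : 0 ≤ (N1 : ℝ) * ((N : ℝ) ^ (1 + ε) / T) := mul_nonneg hN1c hq0.le
    have h10 : (E.card : ℝ) ≤ (N : ℝ) ^ (1 + ε) / T := h1.trans h5
    have h11 : (Y.card : ℝ) ≤ 400 * K * ((N : ℝ) ^ (1 + ε) / T) := h2.trans h6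
    linarith
  · -- small `N`
    push Not at hbig
    refine (hcardall _ _).trans ?_
    have h2 : (1 : ℝ) ≤ (N : ℝ) ^ (1 + ε) / T := by
      rw [le_div_iff₀ hT0, one_mul]
      calc (T : ℝ) ≤ N := by exact_mod_cast hTN'
        _ = (N : ℝ) ^ (1 : ℝ) := (Real.rpow_one _).symm
        _ ≤ _ := Real.rpow_le_rpow_of_exponent_le hN1' (by linarith)
    have h3 : (N : ℝ) ≤ (N1 : ℝ) := by exact_mod_cast hbig.le
    have h4 : (N1 + 1 + 400 + (1 + 400 * K) : ℝ) ≤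
        (N1 + 1 + 400 + (1 + 400 * K)) * ((N : ℝ) ^ (1 + ε) / T) :=
      le_mul_of_one_le_right (by positivity) h2
    linarith

end Pool.Agent.Lib.TS4
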