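import Pool.Agent.Lib.TSP.LocF
import Pool.Agent.Lib.TSP.ThP

/-!
# Library TS4 (MP_1f2014_nt): power saving exceptional set, `k ≤ N^κ` for all `κ ≤ 1/4`. Definitions.
Upgrade of the library TSP from `T ≤ N^(1/5)` to `T ≤ N^(1/4)`. Paper: /team-store/1f2014_TS4.md.
-/

set_option autoImplicit false

open Finset

namespace Pool.Agent.Lib.TS4

open Pool.Agent.Lib.TSP

/-- the quartic polynomial on the reals -/
noncomputable def P3r (b : Bool) (x : ℝ) : ℝ :=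
  if b then 16 * x + 3360 * x ^ 2 + 313600 * x ^ 3 + 10976000 * x ^ 4
  else 32 * x + 3360 * x ^ 2 + 156800 * x ^ 3 + 2744000 * x ^ 4

/-- `∫_0^T e(β P₃(x)) dx` -/
noncomputable def II (b : Bool) (T : ℕ) (β : ℝ) : ℂ := ∫ x in (0 : ℝ)..T, e (β * P3r b x)

/-- the approximation on the major arcs -/
noncomputable def Psi4 (b : Bool) (T N : ℕ) (B : ℝ) (a q : ℕ) (β : ℝ) : ℂ :=
  ((1 - |β| / B : ℝ) : ℂ) * (M12 b N a q β * ((1 / (q : ℂ)) * S b a q * II b T β))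

/-- the singular integral -/
noncomputable def Jt (b : Bool) (T N : ℕ) (B : ℝ) (m : ℤ) : ℂ :=
  ∫ β in (-B)..B, ((1 - |β| / B : ℝ) : ℂ) *
    (Complex.exp (2 * Real.pi * (c1 b : ℂ) * zz N β) / zz N β) * II b T β * e (-((m : ℝ) * β))

end Pool.Agent.Lib.TS4
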