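import Pool.Agent.Lib.TSP.Div

/-!
# TS4.Div: two more divisor sums (0.8 h)  (as in TSP/Div.lean, whose auxiliary lemmas can be used)
PROOF. Off-diagonal pairs: `D = |P₃(t) - P₃(t')| ≥ 1` has at most `C N^(ε/2)` divisors (`T ≤ N` resp. `q ≤ Q ≤ N`). `div_sum3`: `∑_{q≤Q} D2 b T q ≤ T Q + T² C N^(ε/2)`.
`div_sum4`: `∑_{q≤Q} D2 b q q/q² ≤ ∑ 1/q + ∑_{t≠t'<Q} ∑_{q ∣ D, q > max(t,t')} 1/q² ≤ (1 + log Q) + C N^(ε/2) ∑_{j<Q} (2j+1)/(j+1)² ≤ C' N^ε`.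
-/

set_option autoImplicit false

open Finset

namespace Pool.Agent.Lib.TS4

open Pool.Agent.Lib.TSP

namespace DivAux

open Pool.Agent.Lib.TSP.DivAux

theorem D2_real (b : Bool) (T q : ℕ) : (D2 b T q : ℝ) =
    ∑ p ∈ range T ×ˢ range T, if (q : ℤ) ∣ P3 b p.1 - P3 b p.2 then (1 : ℝ) else 0 := by
  unfold D2
  rw [Finset.card_filter]
  push_cast
  rfl

theorem D2_div2 (b : Bool) (T q : ℕ) : (D2 b T q : ℝ) / (q : ℝ) ^ 2 =
    ∑ p ∈ range T ×ˢ range T, if (q : ℤ) ∣ P3 b p.1 - P3 b p.2 then (1 : ℝ) / (q : ℝ) ^ 2 else 0 := by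
  rw [D2_real, Finset.sum_div]
  refine Finset.sum_congr rfl fun p _ => ?_
  split_ifs <;> simp

/-- the number of divisors in a set -/
theorem card_dvd_le (I : Finset ℕ) {D : ℤ} (hD : D ≠ 0) :
    ∑ q ∈ I, (if (q : ℤ) ∣ D then (1 : ℝ) else 0) ≤ (D.natAbs.divisors.card : ℝ) := by
  rw [← Finset.sum_filter, Finset.sum_const, nsmul_eq_mul, mul_one]
  have h2 : (I.filter (fun q : ℕ => (q : ℤ) ∣ D)).card ≤ D.natAbs.divisors.card := by
    refine Finset.card_le_card fun q hq => ?_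
    have hq' := (Finset.mem_filter.mp hq).2
    rw [Nat.mem_divisors]
    exact ⟨Int.natCast_dvd.mp hq', by rwa [ne_eq, Int.natAbs_eq_zero]⟩
  exact_mod_cast h2

theorem sum_dvd2_le {I : Finset ℕ} {k : ℝ} (hk : 0 < k) (hI : ∀ q ∈ I, k ≤ (q : ℝ)) {D : ℤ} (hD : D ≠ 0) :
    ∑ q ∈ I, (if (q : ℤ) ∣ D then (1 : ℝ) / (q : ℝ) ^ 2 else 0) ≤ (D.natAbs.divisors.card : ℝ) / k ^ 2 := by
  have h1 : ∀ q ∈ I, (if (q : ℤ) ∣ D then (1 : ℝ) / (q : ℝ) ^ 2 else 0) ≤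
      (if (q : ℤ) ∣ D then (1 : ℝ) else 0) * (1 / k ^ 2) := by
    intro q hq
    split_ifs
    · rw [one_mul]
      exact one_div_le_one_div_of_le (by positivity) (pow_le_pow_left₀ hk.le (hI q hq) 2)
    · rw [zero_mul]
  refine (Finset.sum_le_sum h1).trans ?_
  rw [← Finset.sum_mul, mul_one_div]
  have h2 := card_dvd_le I hD
  gcongr

/-- `∑_{s,t<Q} 1/(max(s,t)+1)^2 ≤ 2 ∑ 1/j` -/
theorem sum_max2 (Q : ℕ) : ∑ p ∈ range Q ×ˢ range Q, (1 : ℝ) / (((max p.1 p.2 : ℕ) : ℝ) + 1) ^ 2 ≤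
    2 * ∑ q ∈ Ioc 0 Q, (1 : ℝ) / q := by
  rw [Finset.sum_product]
  induction Q with
  | zero => simp
  | succ Q ih =>
    rw [Finset.sum_range_succ, Finset.sum_Ioc_succ_top (Nat.zero_le Q)]
    have h1 : ∑ x ∈ range Q, ∑ y ∈ range (Q + 1), (1 : ℝ) / (((max x y : ℕ) : ℝ) + 1) ^ 2 =
        ∑ x ∈ range Q, ∑ y ∈ range Q, (1 : ℝ) / (((max x y : ℕ) : ℝ) + 1) ^ 2 +
          (Q : ℝ) / ((Q : ℝ) + 1) ^ 2 := by
      have : ∀ x ∈ range Q, ∑ y ∈ range (Q + 1), (1 : ℝ) / (((max x y : ℕ) : ℝ) + 1) ^ 2 =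
          ∑ y ∈ range Q, (1 : ℝ) / (((max x y : ℕ) : ℝ) + 1) ^ 2 + 1 / ((Q : ℝ) + 1) ^ 2 := by
        intro x hx
        rw [Finset.sum_range_succ, max_eq_right (Finset.mem_range.mp hx).le]
      rw [Finset.sum_congr rfl this, Finset.sum_add_distrib, Finset.sum_const, Finset.card_range,
        nsmul_eq_mul]
      ring
    have h2 : ∑ y ∈ range (Q + 1), (1 : ℝ) / (((max Q y : ℕ) : ℝ) + 1) ^ 2 =
        ((Q : ℝ) + 1) / ((Q : ℝ) + 1) ^ 2 := by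
      have : ∀ y ∈ range (Q + 1), (1 : ℝ) / (((max Q y : ℕ) : ℝ) + 1) ^ 2 = 1 / ((Q : ℝ) + 1) ^ 2 := by
        intro y hy
        rw [max_eq_left (by have := Finset.mem_range.mp hy; omega)]
      rw [Finset.sum_congr rfl this, Finset.sum_const, Finset.card_range, nsmul_eq_mul]
      push_cast
      ring
    simp only at h1 h2 ih ⊢
    rw [h1, h2]
    have h4 : ((Q + 1 : ℕ) : ℝ) = (Q : ℝ) + 1 := by push_cast; ring
    rw [h4]
    have h5 : (Q : ℝ) / ((Q : ℝ) + 1) ^ 2 + ((Q : ℝ) + 1) / ((Q : ℝ) + 1) ^ 2 ≤ 2 * (1 / ((Q : ℝ) + 1)) := by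
      rw [← add_div, mul_one_div, div_le_div_iff₀ (by positivity) (by positivity)]
      have : (0 : ℝ) ≤ Q := by positivity
      nlinarith
    linarith

end DivAux

open DivAux Pool.Agent.Lib.TSP.DivAux

theorem div_sum3 (b : Bool) (ε : ℝ) (hε : 0 < ε) : ∃ C : ℝ, 0 < C ∧ ∀ T Q N : ℕ, T ≤ N → Q ≤ N → 1 ≤ N →
    ∑ q ∈ Icc 1 Q, (D2 b T q : ℝ) ≤ C * (N : ℝ) ^ ε * ((T : ℝ) * Q + (T : ℝ) ^ 2) := by
  obtain ⟨C, hC1, hC⟩ := div_pair b ε hε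
  refine ⟨C, by positivity, ?_⟩
  intro T Q N hTN hQN hN
  have hN' : (1 : ℝ) ≤ N := by exact_mod_cast hN
  have hNe : (1 : ℝ) ≤ (N : ℝ) ^ ε := Real.one_le_rpow hN' hε.le
  simp_rw [D2_real]
  rw [Finset.sum_comm]
  have h1 : ∀ p ∈ range T ×ˢ range T,
      ∑ q ∈ Icc 1 Q, (if (q : ℤ) ∣ P3 b p.1 - P3 b p.2 then (1 : ℝ) else 0) ≤
      (if p.1 = p.2 then (Q : ℝ) else 0) + C * (N : ℝ) ^ ε := by
    rintro ⟨s, t⟩ hp
    rw [Finset.mem_product, Finset.mem_range, Finset.mem_range] at hp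
    simp only at hp ⊢
    have hnn : (0 : ℝ) ≤ C * (N : ℝ) ^ ε := by positivity
    split_ifs with hst
    · subst hst
      have h2 : ∑ q ∈ Icc 1 Q, (if (q : ℤ) ∣ P3 b s - P3 b s then (1 : ℝ) else 0) = Q := by
        rw [Finset.sum_congr rfl (fun q _ => if_pos (by simp)), Finset.sum_const, Nat.card_Icc,
          nsmul_eq_mul, mul_one, Nat.add_sub_cancel]
      rw [h2]
      linarith
    · have h2 := card_dvd_le (Icc 1 Q) (P3_ne b hst)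
      have h3 := hC N s t hst (by omega) (by omega)
      linarith
  refine (Finset.sum_le_sum h1).trans ?_
  rw [Finset.sum_add_distrib, sum_dg, Finset.sum_const, Finset.card_product, Finset.card_range,
    nsmul_eq_mul]
  have hT0 : (0 : ℝ) ≤ T := by positivity
  have hQ0 : (0 : ℝ) ≤ Q := by positivity
  have hCN : 1 ≤ C * (N : ℝ) ^ ε := by nlinarith
  have h4 : (T : ℝ) * Q ≤ C * (N : ℝ) ^ ε * ((T : ℝ) * Q) := le_mul_of_one_le_left (by positivity) hCN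
  push_cast
  have h5 : C * (N : ℝ) ^ ε * ((T : ℝ) * Q + (T : ℝ) ^ 2) =
      C * (N : ℝ) ^ ε * ((T : ℝ) * Q) + (T : ℝ) * T * (C * (N : ℝ) ^ ε) := by ring
  rw [h5]
  linarith

theorem div_sum4 (b : Bool) (ε : ℝ) (hε : 0 < ε) : ∃ C : ℝ, 0 < C ∧ ∀ Q N : ℕ, 1 ≤ N → Q ≤ N →
    ∑ q ∈ Icc 1 Q, (D2 b q q : ℝ) / (q : ℝ) ^ 2 ≤ C * (N : ℝ) ^ ε := by
  have hε2 : 0 < ε / 2 := by positivity
  obtain ⟨C, hC1, hC⟩ := div_pair b (ε / 2) hε2
  refine ⟨(1 + C * 2) * (1 + 1 / (ε / 2)), by positivity, ?_⟩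
  intro Q N hN hQN
  have hN' : (1 : ℝ) ≤ N := by exact_mod_cast hN
  have hNpos : (0 : ℝ) < N := by linarith
  have hNe : (1 : ℝ) ≤ (N : ℝ) ^ (ε / 2) := Real.one_le_rpow hN' hε2.le
  have hNN : (N : ℝ) ^ (ε / 2) * (N : ℝ) ^ (ε / 2) = (N : ℝ) ^ ε := by
    rw [← Real.rpow_add hNpos, add_halves]
  have hharm := harm (ε / 2) hε2 (K := 0) hQN hN
  have hIoc : Icc 1 Q = Ioc 0 Q := by
    ext q
    rw [Finset.mem_Icc, Finset.mem_Ioc]
    omega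
  -- split
  have h1 : ∀ q ∈ Icc 1 Q, (D2 b q q : ℝ) / (q : ℝ) ^ 2 ≤ 1 / q +
      ∑ p ∈ range Q ×ˢ range Q, (if p.1 ≠ p.2 ∧ max p.1 p.2 < q then
        (if (q : ℤ) ∣ P3 b p.1 - P3 b p.2 then (1 : ℝ) / (q : ℝ) ^ 2 else 0) else 0) := by
    intro q hq
    rw [Finset.mem_Icc] at hq
    rw [D2_div2]
    have hq0 : (0 : ℝ) < q := by exact_mod_cast (show 0 < q by omega)
    have h2 : ∑ p ∈ range q ×ˢ range q,
        (if (q : ℤ) ∣ P3 b p.1 - P3 b p.2 then (1 : ℝ) / (q : ℝ) ^ 2 else 0) ≤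
        ∑ p ∈ range q ×ˢ range q, ((if p.1 = p.2 then (1 : ℝ) / (q : ℝ) ^ 2 else 0) +
          (if p.1 ≠ p.2 ∧ max p.1 p.2 < q then
        (if (q : ℤ) ∣ P3 b p.1 - P3 b p.2 then (1 : ℝ) / (q : ℝ) ^ 2 else 0) else 0)) := by
      refine Finset.sum_le_sum ?_
      rintro ⟨s, t⟩ hp
      rw [Finset.mem_product, Finset.mem_range, Finset.mem_range] at hp
      simp only at hp ⊢
      by_cases hst : s = t
      · subst hst
        simp
      · have hm : max s t < q := max_lt hp.1 hp.2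
        have hc : s ≠ t ∧ max s t < q := ⟨hst, hm⟩
        rw [if_neg hst, if_pos hc, zero_add]
    refine h2.trans ?_
    rw [Finset.sum_add_distrib, sum_dg]
    have h3 : (q : ℝ) * (1 / (q : ℝ) ^ 2) = 1 / q := by field_simp
    rw [h3]
    refine add_le_add (le_refl _) ?_
    refine Finset.sum_le_sum_of_subset_of_nonneg ?_ ?_
    · intro p hp
      rw [Finset.mem_product, Finset.mem_range, Finset.mem_range] at hp ⊢
      omega
    · intro p _ _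
      split_ifs <;> positivity
  refine (Finset.sum_le_sum h1).trans ?_
  rw [Finset.sum_add_distrib, Finset.sum_comm]
  have h4 : ∀ p ∈ range Q ×ˢ range Q, ∑ q ∈ Icc 1 Q, (if p.1 ≠ p.2 ∧ max p.1 p.2 < q then
        (if (q : ℤ) ∣ P3 b p.1 - P3 b p.2 then (1 : ℝ) / (q : ℝ) ^ 2 else 0) else 0) ≤
        C * (N : ℝ) ^ (ε / 2) * (1 / (((max p.1 p.2 : ℕ) : ℝ) + 1) ^ 2) := by
    rintro ⟨s, t⟩ hp
    rw [Finset.mem_product, Finset.mem_range, Finset.mem_range] at hp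
    simp only at hp ⊢
    by_cases hst : s = t
    · have : ∑ q ∈ Icc 1 Q, (if s ≠ t ∧ max s t < q then
        (if (q : ℤ) ∣ P3 b s - P3 b t then (1 : ℝ) / (q : ℝ) ^ 2 else 0) else 0) = 0 := by
        refine Finset.sum_eq_zero fun q _ => ?_
        rw [if_neg (by simp [hst])]
      rw [this]
      positivity
    · have h5 : ∑ q ∈ Icc 1 Q, (if s ≠ t ∧ max s t < q then
        (if (q : ℤ) ∣ P3 b s - P3 b t then (1 : ℝ) / (q : ℝ) ^ 2 else 0) else 0) =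
          ∑ q ∈ (Icc 1 Q).filter (fun q => max s t < q),
            (if (q : ℤ) ∣ P3 b s - P3 b t then (1 : ℝ) / (q : ℝ) ^ 2 else 0) := by
        rw [Finset.sum_filter]
        refine Finset.sum_congr rfl fun q _ => ?_
        by_cases hm : max s t < q
        · rw [if_pos ⟨hst, hm⟩, if_pos hm]
        · rw [if_neg (fun h => hm h.2), if_neg hm]
      rw [h5]
      have hk : (0 : ℝ) < ((max s t : ℕ) : ℝ) + 1 := by positivity
      have h6 := sum_dvd2_le (I := (Icc 1 Q).filter (fun q => max s t < q)) hk (fun q hq => by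
        have := (Finset.mem_filter.mp hq).2
        exact_mod_cast this) (P3_ne b hst)
      have h7 := hC N s t hst (by omega) (by omega)
      refine h6.trans ?_
      rw [mul_one_div]
      gcongr
  have h5 := Finset.sum_le_sum h4
  rw [← Finset.mul_sum] at h5
  have h6 : C * (N : ℝ) ^ (ε / 2) * ∑ p ∈ range Q ×ˢ range Q, (1 : ℝ) / (((max p.1 p.2 : ℕ) : ℝ) + 1) ^ 2 ≤
      C * (N : ℝ) ^ (ε / 2) * (2 * ((1 + 1 / (ε / 2)) * (N : ℝ) ^ (ε / 2))) := by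
    have := sum_max2 Q
    gcongr
    linarith
  rw [hIoc] at h5 ⊢
  have hA : (0 : ℝ) ≤ 1 + 1 / (ε / 2) := by positivity
  have h8 : (1 + 1 / (ε / 2)) * (N : ℝ) ^ (ε / 2) ≤ (1 + 1 / (ε / 2)) * (N : ℝ) ^ ε := by
    rw [← hNN]
    have : (N : ℝ) ^ (ε / 2) * 1 ≤ (N : ℝ) ^ (ε / 2) * (N : ℝ) ^ (ε / 2) :=
      mul_le_mul_of_nonneg_left hNe (by positivity)
    rw [mul_one] at this
    exact mul_le_mul_of_nonneg_left this hA
  have h9 : C * (N : ℝ) ^ (ε / 2) * (2 * ((1 + 1 / (ε / 2)) * (N : ℝ) ^ (ε / 2))) =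
      C * 2 * (1 + 1 / (ε / 2)) * (N : ℝ) ^ ε := by
    rw [← hNN]
    ring
  have h10 : (1 + C * 2) * (1 + 1 / (ε / 2)) * (N : ℝ) ^ ε =
      (1 + 1 / (ε / 2)) * (N : ℝ) ^ ε + C * 2 * (1 + 1 / (ε / 2)) * (N : ℝ) ^ ε := by ring
  linarith

end Pool.Agent.Lib.TS4
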