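import Pool.Agent.Lib.TS4.Core
import Pool.Agent.Lib.TSP.FinA

/-!
# TS4.Fin: all `n`, `κ ≤ 1/4` (1.5 h)  (adapt TSP/FinA.lean)
PROOF. (1) For real `K > 0`, `K⁴ ≤ N`, `N ≥ 1`: the number of `n ≤ N`, `n ≡ 2 mod 4`, without `p⁴ ∣ n` for odd primes `p`, with `¬ Sol b n K` is at most `C₁ N^(1+ε)/K`. For `K < 140` trivial. Let `K ≥ 140`. `m = (n - n1 b)/4 ≤ N` (the numbers `n < 10`
for `b = true`: add 2). `m = 0`: add 1. Dyadic: `M_i = ⌊N/2^i⌋`, every `1 ≤ m ≤ N` lies in `[M_i/2, M_i]` for some `i ≤ log₂ N` (`M_{i+1} = M_i/2`). For each `i`: `T_i = min(⌊K/140⌋, ⌊M_i^(1/4)⌋) ≥ 1` (`M_i ≥ 1`), `T_i⁴ ≤ M_i`, `rep_sol`: `Rep b T_i m`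
gives `Sol b n (140 T_i)`, `140 T_i ≤ K`. `core4`: at most `C M_i^(1+ε)/T_i ≤ C M_i^(1+ε) (280/K + 2/M_i^(1/4)) ≤ C (280 N^(1+ε)/K + 2 N^(3/4+ε))`, and `N^(3/4) ≤ N/K`. Sum over at most `1 + log₂ N ≤ C N^ε` values of `i`: `C₁ N^(1+2ε)/K`; rename `ε`.
(2) As in TSP/FinA.lean with `κ ≤ 1/4`: `n = 4^j g⁴ n₃`, `s = 2^{⌈j/2⌉} g`, `s⁴ ≥ 4^j g⁴`, so `(N^κ/s)⁴ ≤ N/(4^j g⁴)`.
-/

set_option autoImplicit false

open Finset

namespace Pool.Agent.Lib.TS4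

open Pool.Agent.Lib.TSP

namespace FinAux

open Pool.Agent.Lib.TSP.FinAAux

theorem floor_root {M : ℕ} (hM : 1 ≤ M) : ∃ R : ℕ, 1 ≤ R ∧ R ^ 4 ≤ M ∧ (M : ℝ) ^ ((1 : ℝ) / 4) ≤ 2 * R := by
  have hM1 : (1 : ℝ) ≤ M := by exact_mod_cast hM
  have h1 : (1 : ℝ) ≤ (M : ℝ) ^ ((1 : ℝ) / 4) := Real.one_le_rpow hM1 (by norm_num)
  refine ⟨⌊(M : ℝ) ^ ((1 : ℝ) / 4)⌋₊, ?_, ?_, ?_⟩
  · apply Nat.le_floor
    rw [Nat.cast_one]
    exact h1
  · have h2 : (⌊(M : ℝ) ^ ((1 : ℝ) / 4)⌋₊ : ℝ) ≤ (M : ℝ) ^ ((1 : ℝ) / 4) := Nat.floor_le (by positivity)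
    have h3 : (⌊(M : ℝ) ^ ((1 : ℝ) / 4)⌋₊ : ℝ) ^ 4 ≤ ((M : ℝ) ^ ((1 : ℝ) / 4)) ^ 4 :=
      pow_le_pow_left₀ (by positivity) h2 4
    have h4 : ((M : ℝ) ^ ((1 : ℝ) / 4)) ^ 4 = M := by
      rw [← Real.rpow_natCast, ← Real.rpow_mul (by positivity)]
      norm_num
    rw [h4] at h3
    exact_mod_cast h3
  · have h2 := Nat.lt_floor_add_one ((M : ℝ) ^ ((1 : ℝ) / 4))
    have h3 : (1 : ℝ) ≤ ⌊(M : ℝ) ^ ((1 : ℝ) / 4)⌋₊ := by
      have : 1 ≤ ⌊(M : ℝ) ^ ((1 : ℝ) / 4)⌋₊ := by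
        apply Nat.le_floor
        rw [Nat.cast_one]
        exact h1
      exact_mod_cast this
    linarith

theorem log_bound {ε : ℝ} (hε : 0 < ε) {N : ℕ} (hN : 1 ≤ N) :
    ((Nat.log 2 N : ℕ) : ℝ) + 1 ≤ (2 / ε + 1) * (N : ℝ) ^ ε := by
  have hN1 : (1 : ℝ) ≤ N := by exact_mod_cast hN
  have hN0 : (0 : ℝ) < N := by linarith
  have h1 : (1 : ℝ) ≤ (N : ℝ) ^ ε := Real.one_le_rpow hN1 hε.le
  have h2 : Real.log N ≤ (N : ℝ) ^ ε / ε := Real.log_le_rpow_div hN0.le hε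
  have h3 : ((Nat.log 2 N : ℕ) : ℝ) * Real.log 2 ≤ Real.log N := by
    have h4 : 2 ^ Nat.log 2 N ≤ N := Nat.pow_log_le_self 2 (by omega)
    have h5 : ((2 : ℝ) ^ Nat.log 2 N) ≤ N := by exact_mod_cast h4
    have h6 := Real.log_le_log (by positivity) h5
    rwa [Real.log_pow] at h6
  have h7 : (1 : ℝ) / 2 < Real.log 2 := by
    have := Real.log_two_gt_d9
    linarith
  have h8 : (0 : ℝ) ≤ ((Nat.log 2 N : ℕ) : ℝ) := Nat.cast_nonneg _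
  have h9 : ((Nat.log 2 N : ℕ) : ℝ) * (1 / 2) ≤ ((Nat.log 2 N : ℕ) : ℝ) * Real.log 2 :=
    mul_le_mul_of_nonneg_left h7.le h8
  have h10 : ((Nat.log 2 N : ℕ) : ℝ) ≤ 2 / ε * (N : ℝ) ^ ε := by
    have : 2 / ε * (N : ℝ) ^ ε = 2 * ((N : ℝ) ^ ε / ε) := by ring
    linarith
  linarith

open Classical in
/-- one dyadic block -/
theorem block (b : Bool) {ε C : ℝ} (hε : 0 < ε) (hC : 0 < C)
    (hcore : ∀ N T : ℕ, 1 ≤ T → T ^ 4 ≤ N →
      (((Icc (N / 2) N).filter fun m : ℕ => (∀ p : ℕ, p.Prime → Odd p → ¬ ((p : ℤ) ^ 4 ∣ 4 * (m : ℤ) + n1 b)) ∧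
        ¬ Rep b T m).card : ℝ) ≤ C * (N : ℝ) ^ (1 + ε) / T)
    {N M T : ℕ} {K : ℝ} (hK : 0 < K) (hK4 : K ^ 4 ≤ N) (hT1 : 1 ≤ T) (hTK : K ≤ 280 * T)
    (hM1 : 1 ≤ M) (hMN : M ≤ N) :
    (((Icc (M / 2) M).filter fun m : ℕ => (∀ p : ℕ, p.Prime → Odd p → ¬ ((p : ℤ) ^ 4 ∣ 4 * (m : ℤ) + n1 b)) ∧
      ¬ Rep b T m).card : ℝ) ≤ 282 * C * (N : ℝ) ^ (1 + ε) / K := by
  obtain ⟨R, hR1, hR4, hR⟩ := floor_root hM1
  have hN1 : 1 ≤ N := hM1.trans hMN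
  have hN1r : (1 : ℝ) ≤ N := by exact_mod_cast hN1
  have hN0 : (0 : ℝ) < N := by linarith
  have hM1r : (1 : ℝ) ≤ M := by exact_mod_cast hM1
  have hM0 : (0 : ℝ) < M := by linarith
  have hMNr : (M : ℝ) ≤ N := by exact_mod_cast hMN
  have hTm1 : 1 ≤ min T R := le_min hT1 hR1
  have h1 := hcore M (min T R) hTm1 (le_trans (Nat.pow_le_pow_left (min_le_right _ _) 4) hR4)
  have h2 : (((Icc (M / 2) M).filter fun m : ℕ =>
      (∀ p : ℕ, p.Prime → Odd p → ¬ ((p : ℤ) ^ 4 ∣ 4 * (m : ℤ) + n1 b)) ∧ ¬ Rep b T m).card : ℝ) ≤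
      (((Icc (M / 2) M).filter fun m : ℕ =>
      (∀ p : ℕ, p.Prime → Odd p → ¬ ((p : ℤ) ^ 4 ∣ 4 * (m : ℤ) + n1 b)) ∧ ¬ Rep b (min T R) m).card : ℝ) := by
    have h3 := card_le_card (s := (Icc (M / 2) M).filter fun m : ℕ =>
      (∀ p : ℕ, p.Prime → Odd p → ¬ ((p : ℤ) ^ 4 ∣ 4 * (m : ℤ) + n1 b)) ∧ ¬ Rep b T m)
      (t := (Icc (M / 2) M).filter fun m : ℕ =>
      (∀ p : ℕ, p.Prime → Odd p → ¬ ((p : ℤ) ^ 4 ∣ 4 * (m : ℤ) + n1 b)) ∧ ¬ Rep b (min T R) m) (by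
        intro m hm
        rw [mem_filter] at hm ⊢
        exact ⟨hm.1, hm.2.1, fun hr => hm.2.2 (CoreAux.Rep_mono b (min_le_left _ _) hr)⟩)
    exact_mod_cast h3
  refine h2.trans (h1.trans ?_)
  have hT0 : (0 : ℝ) < T := by exact_mod_cast hT1
  have hR0 : (0 : ℝ) < R := by exact_mod_cast hR1
  have hMe : 0 < (M : ℝ) ^ (1 + ε) := Real.rpow_pos_of_pos hM0 _
  have hNe : 0 < (N : ℝ) ^ (1 + ε) := Real.rpow_pos_of_pos hN0 _
  have hMNe : (M : ℝ) ^ (1 + ε) ≤ (N : ℝ) ^ (1 + ε) := Real.rpow_le_rpow hM0.le hMNr (by linarith)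
  -- the two cases of the minimum
  have hA : C * (M : ℝ) ^ (1 + ε) / T ≤ 280 * C * (N : ℝ) ^ (1 + ε) / K := by
    rw [div_le_div_iff₀ hT0 hK]
    calc C * (M : ℝ) ^ (1 + ε) * K ≤ C * (N : ℝ) ^ (1 + ε) * (280 * T) := by gcongr
      _ = 280 * C * (N : ℝ) ^ (1 + ε) * T := by ring
  have hKr : K ≤ (N : ℝ) ^ ((1 : ℝ) / 4) := by
    have h3 : (K ^ 4) ^ ((1 : ℝ) / 4) ≤ (N : ℝ) ^ ((1 : ℝ) / 4) :=
      Real.rpow_le_rpow (by positivity) hK4 (by norm_num)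
    have h4 : (K ^ 4) ^ ((1 : ℝ) / 4) = K := by
      rw [← Real.rpow_natCast, ← Real.rpow_mul hK.le]
      norm_num
    rwa [h4] at h3
  have hB : C * (M : ℝ) ^ (1 + ε) / R ≤ 2 * C * (N : ℝ) ^ (1 + ε) / K := by
    rw [div_le_div_iff₀ hR0 hK]
    have h5 : (M : ℝ) ^ (1 + ε) = (M : ℝ) ^ (3 / 4 + ε) * (M : ℝ) ^ ((1 : ℝ) / 4) := by
      rw [← Real.rpow_add hM0]
      congr 1
      ring
    have h6 : (N : ℝ) ^ (1 + ε) = (N : ℝ) ^ (3 / 4 + ε) * (N : ℝ) ^ ((1 : ℝ) / 4) := by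
      rw [← Real.rpow_add hN0]
      congr 1
      ring
    have h7 : (M : ℝ) ^ (3 / 4 + ε) ≤ (N : ℝ) ^ (3 / 4 + ε) := Real.rpow_le_rpow hM0.le hMNr (by linarith)
    have h8 : 0 < (N : ℝ) ^ (3 / 4 + ε) := Real.rpow_pos_of_pos hN0 _
    have h9 : 0 < (M : ℝ) ^ ((1 : ℝ) / 4) := Real.rpow_pos_of_pos hM0 _
    have h10 : 0 < (N : ℝ) ^ ((1 : ℝ) / 4) := Real.rpow_pos_of_pos hN0 _
    calc C * (M : ℝ) ^ (1 + ε) * K = C * ((M : ℝ) ^ (3 / 4 + ε) * (M : ℝ) ^ ((1 : ℝ) / 4)) * K := by rw [h5]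
      _ ≤ C * ((N : ℝ) ^ (3 / 4 + ε) * (2 * R)) * (N : ℝ) ^ ((1 : ℝ) / 4) := by gcongr
      _ = 2 * C * ((N : ℝ) ^ (3 / 4 + ε) * (N : ℝ) ^ ((1 : ℝ) / 4)) * R := by ring
      _ = 2 * C * (N : ℝ) ^ (1 + ε) * R := by rw [← h6]
  have hS : 280 * C * (N : ℝ) ^ (1 + ε) / K + 2 * C * (N : ℝ) ^ (1 + ε) / K = 282 * C * (N : ℝ) ^ (1 + ε) / K := by
    ring
  have hp1 : 0 < 280 * C * (N : ℝ) ^ (1 + ε) / K := by positivity
  have hp2 : 0 < 2 * C * (N : ℝ) ^ (1 + ε) / K := by positivity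
  rcases le_total T R with h | h
  · rw [min_eq_left h]
    linarith
  · rw [min_eq_right h]
    linarith

theorem dyadic {N m : ℕ} (hm1 : 1 ≤ m) (hmN : m ≤ N) :
    ∃ i ∈ range (Nat.log 2 N + 1), 1 ≤ N / 2 ^ i ∧ N / 2 ^ i / 2 ≤ m ∧ m ≤ N / 2 ^ i := by
  classical
  have hP0 : m ≤ N / 2 ^ 0 := by simpa using hmN
  obtain ⟨i, hi⟩ : ∃ i : ℕ, i = Nat.findGreatest (fun i => m ≤ N / 2 ^ i) (Nat.log 2 N) := ⟨_, rfl⟩
  have h1 : m ≤ N / 2 ^ i := by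
    rw [hi]
    exact Nat.findGreatest_spec (P := fun i => m ≤ N / 2 ^ i) (Nat.zero_le _) hP0
  have h2 : i ≤ Nat.log 2 N := by
    rw [hi]
    exact Nat.findGreatest_le _
  refine ⟨i, mem_range.2 (by omega), hm1.trans h1, ?_, h1⟩
  rw [Nat.div_div_eq_div_mul, ← pow_succ]
  by_contra hcon
  push Not at hcon
  have h3 : i + 1 ≤ Nat.log 2 N := by
    apply Nat.le_log_of_pow_le (by norm_num)
    have h4 : 1 ≤ N / 2 ^ (i + 1) := by omega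
    have h5 := (Nat.le_div_iff_mul_le (show 0 < 2 ^ (i + 1) by positivity)).1 h4
    omega
  have h6 : i + 1 ≤ Nat.findGreatest (fun i => m ≤ N / 2 ^ i) (Nat.log 2 N) :=
    Nat.le_findGreatest h3 hcon.le
  omega

theorem E_bound4 (b : Bool) (ε : ℝ) (hε : 0 < ε) : ∃ C : ℝ, 0 < C ∧ ∀ N : ℕ, 1 ≤ N → ∀ K : ℝ, 0 < K →
    K ^ 4 ≤ N → ((E b N K).card : ℝ) ≤ C * (N : ℝ) ^ (1 + ε) / K := by
  classical
  obtain ⟨C, hC, hcore⟩ := core4 b (ε / 2) (by positivity)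
  refine ⟨282 * C * (2 / (ε / 2) + 1) + 143, by positivity, ?_⟩
  intro N hN K hK hK4
  have hN1 : (1 : ℝ) ≤ N := by exact_mod_cast hN
  have hN0 : (0 : ℝ) < N := by linarith
  have hNe : (N : ℝ) ≤ (N : ℝ) ^ (1 + ε) := by
    calc (N : ℝ) = (N : ℝ) ^ (1 : ℝ) := (Real.rpow_one _).symm
      _ ≤ _ := Real.rpow_le_rpow_of_exponent_le hN1 (by linarith)
  have hNe0 : 0 < (N : ℝ) ^ (1 + ε) := by linarith
  have hD0 : 0 < 282 * C * (2 / (ε / 2) + 1) := by positivity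
  by_cases hK140 : K < 140
  · have h1 : ((E b N K).card : ℝ) ≤ N := by
      have h3 : (E b N K).card ≤ (Icc 1 N).card := card_le_card (filter_subset _ _)
      have h2 : (Icc 1 N).card = N := by simp
      exact_mod_cast h3.trans h2.le
    rw [le_div_iff₀ hK]
    have h2 : ((E b N K).card : ℝ) * K ≤ N * 140 :=
      mul_le_mul h1 hK140.le hK.le (by linarith)
    nlinarith [mul_pos hD0 hNe0]
  · push Not at hK140
    obtain ⟨T, hT⟩ : ∃ T : ℕ, T = ⌊K / 140⌋₊ := ⟨_, rfl⟩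
    have hT1 : 1 ≤ T := by
      rw [hT]
      apply Nat.le_floor
      rw [Nat.cast_one]
      linarith
    have hTle : (T : ℝ) ≤ K / 140 := by
      rw [hT]
      exact Nat.floor_le (by positivity)
    have hTlt : K / 140 < T + 1 := by
      rw [hT]
      exact Nat.lt_floor_add_one _
    have hT1r : (1 : ℝ) ≤ T := by exact_mod_cast hT1
    have hTK : K ≤ 280 * T := by linarith
    obtain ⟨G, hG⟩ : ∃ G : ℕ → Finset ℕ, ∀ i, G i = (Icc (N / 2 ^ i / 2) (N / 2 ^ i)).filter fun m : ℕ =>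
        (∀ p : ℕ, p.Prime → Odd p → ¬ ((p : ℤ) ^ 4 ∣ 4 * (m : ℤ) + n1 b)) ∧ ¬ Rep b T m := ⟨_, fun _ => rfl⟩
    have hsub : E b N K ⊆ ({2, 6} : Finset ℕ) ∪ (({0} : Finset ℕ) ∪ (range (Nat.log 2 N + 1)).biUnion G).image
        fun m : ℕ => (4 * (m : ℤ) + n1 b).toNat := by
      intro n hn
      rw [E, mem_filter, mem_Icc] at hn
      obtain ⟨⟨hn1, hnN⟩, h4, hp, hs⟩ := hn
      rw [mem_union]
      by_cases h2 : n = 2
      · left; simp [h2]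
      by_cases h6 : n = 6
      · left; simp [h6]
      right
      obtain ⟨m, hmN, hm⟩ := ex_m b n N hnN h4 h2 h6
      rw [mem_image]
      refine ⟨m, ?_, ?_⟩
      · rw [mem_union]
        rcases Nat.eq_zero_or_pos m with h0 | h0
        · left
          simp [h0]
        · right
          obtain ⟨i, hi1, hi2, hi3, hi4⟩ := dyadic h0 hmN
          rw [mem_biUnion]
          refine ⟨i, hi1, ?_⟩
          rw [hG, mem_filter, mem_Icc]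
          refine ⟨⟨hi3, hi4⟩, ?_, ?_⟩
          · intro p hpp hpo hd
            apply hp p hpp hpo
            rw [← hm] at hd
            exact_mod_cast hd
          · intro hr
            exact hs (sol_mono (rep_sol b T m n hr hm) (by linarith))
      · rw [← hm]
        exact Int.toNat_natCast n
    have hcard := (card_le_card hsub).trans (card_union_le _ _)
    have hcard2 := hcard.trans (Nat.add_le_add_left (card_image_le.trans (card_union_le _ _)) _)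
    have h26 : (({2, 6} : Finset ℕ)).card = 2 := by decide
    have h01 : (({0} : Finset ℕ)).card = 1 := by decide
    rw [h26, h01] at hcard2
    have hcard2' := hcard2.trans (Nat.add_le_add_left (Nat.add_le_add_left card_biUnion_le _) _)
    have hcard3 : ((E b N K).card : ℝ) ≤ 2 + (1 + ∑ i ∈ range (Nat.log 2 N + 1), ((G i).card : ℝ)) := by
      exact_mod_cast hcard2'
    have hterm : ∀ i ∈ range (Nat.log 2 N + 1), ((G i).card : ℝ) ≤ 282 * C * (N : ℝ) ^ (1 + ε / 2) / K := by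
      intro i hi
      have hM1 : 1 ≤ N / 2 ^ i := by
        rw [Nat.le_div_iff_mul_le (by positivity), one_mul]
        have h5 : i ≤ Nat.log 2 N := by
          have := mem_range.1 hi
          omega
        exact (Nat.pow_le_pow_right (by norm_num) h5).trans (Nat.pow_log_le_self 2 (by omega))
      rw [hG]
      exact block b (by positivity) hC hcore hK hK4 hT1 hTK hM1 (Nat.div_le_self _ _)
    have hsum := sum_le_sum hterm
    rw [sum_const, card_range, nsmul_eq_mul] at hsum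
    have hlog := log_bound (show (0 : ℝ) < ε / 2 by positivity) hN
    have hb1 : ((Nat.log 2 N + 1 : ℕ) : ℝ) * (282 * C * (N : ℝ) ^ (1 + ε / 2) / K) ≤
        282 * C * (2 / (ε / 2) + 1) * (N : ℝ) ^ (1 + ε) / K := by
      have h6 : (N : ℝ) ^ (1 + ε) = (N : ℝ) ^ (ε / 2) * (N : ℝ) ^ (1 + ε / 2) := by
        rw [← Real.rpow_add hN0]
        congr 1
        ring
      have h7 : (0 : ℝ) ≤ 282 * C * (N : ℝ) ^ (1 + ε / 2) / K := by positivity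
      push_cast
      calc (((Nat.log 2 N : ℕ) : ℝ) + 1) * (282 * C * (N : ℝ) ^ (1 + ε / 2) / K) ≤
          ((2 / (ε / 2) + 1) * (N : ℝ) ^ (ε / 2)) * (282 * C * (N : ℝ) ^ (1 + ε / 2) / K) :=
            mul_le_mul_of_nonneg_right hlog h7
        _ = 282 * C * (2 / (ε / 2) + 1) * ((N : ℝ) ^ (ε / 2) * (N : ℝ) ^ (1 + ε / 2)) / K := by ring
        _ = _ := by rw [← h6]
    have hKN : K ≤ (N : ℝ) ^ (1 + ε) := by
      have h3 : K ≤ K ^ 4 := by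
        calc K = K ^ 1 := (pow_one K).symm
          _ ≤ K ^ 4 := pow_le_pow_right₀ (by linarith) (by norm_num)
      linarith
    have hb2 : (3 : ℝ) ≤ 143 * (N : ℝ) ^ (1 + ε) / K := by
      rw [le_div_iff₀ hK]
      nlinarith
    calc ((E b N K).card : ℝ) ≤ 3 + ∑ i ∈ range (Nat.log 2 N + 1), ((G i).card : ℝ) := by linarith
      _ ≤ 143 * (N : ℝ) ^ (1 + ε) / K + 282 * C * (2 / (ε / 2) + 1) * (N : ℝ) ^ (1 + ε) / K :=
          add_le_add hb2 (hsum.trans hb1)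
      _ = (282 * C * (2 / (ε / 2) + 1) + 143) * (N : ℝ) ^ (1 + ε) / K := by ring

theorem E_bound4' (b : Bool) (ε : ℝ) (hε : 0 < ε) : ∃ C : ℝ, 0 < C ∧ ∀ N : ℕ, 1 ≤ N → ∀ K : ℝ, 0 < K →
    K ^ 4 ≤ 2 * N → ((E b N K).card : ℝ) ≤ C * (N : ℝ) ^ (1 + ε) / K := by
  classical
  obtain ⟨C, hC, h⟩ := E_bound4 b ε hε
  refine ⟨2 * C, by positivity, ?_⟩
  intro N hN K hK hK4
  have hN0 : (0 : ℝ) < N := by exact_mod_cast hN
  have h1 := h N hN (K / 2) (by positivity) (by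
    rw [div_pow]
    norm_num
    linarith)
  have h2 : (E b N K).card ≤ (E b N (K / 2)).card := by
    apply card_le_card
    intro n hn
    rw [E, mem_filter] at hn ⊢
    exact ⟨hn.1, hn.2.1, hn.2.2.1, fun hs => hn.2.2.2 (sol_mono hs (by linarith))⟩
  have h3 : ((E b N K).card : ℝ) ≤ ((E b N (K / 2)).card : ℝ) := by exact_mod_cast h2
  refine h3.trans (h1.trans (le_of_eq ?_))
  field_simp

theorem term_bound4 (b' : Bool) (κ ε C1 : ℝ) (hκ4 : κ ≤ 1 / 4) (hε : 0 < ε) (hC1 : 0 < C1)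
    (hE : ∀ N : ℕ, 1 ≤ N → ∀ K : ℝ, 0 < K → K ^ 4 ≤ 2 * N → ((E b' N K).card : ℝ) ≤ C1 * (N : ℝ) ^ (1 + ε) / K)
    (N j g : ℕ) (hN : 1 ≤ N) (hg : 1 ≤ g) :
    ((E b' (N / (4 ^ j * g ^ 4)) ((N : ℝ) ^ κ / (2 ^ ((j + 1) / 2) * g))).card : ℝ)
      ≤ C1 * (N : ℝ) ^ (1 - κ + ε) * ((1 / 2) ^ j * (1 / (g : ℝ) ^ 2)) := by
  have hN1 : (1 : ℝ) ≤ N := by exact_mod_cast hN
  have hg1 : (1 : ℝ) ≤ g := by exact_mod_cast hg
  have hN0 : (0 : ℝ) < N := by linarith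
  obtain ⟨M, hM⟩ : ∃ M : ℕ, M = N / (4 ^ j * g ^ 4) := ⟨_, rfl⟩
  rw [← hM]
  rcases Nat.eq_zero_or_pos M with hM0 | hMpos
  · rw [hM0, E_zero]
    push_cast
    positivity
  obtain ⟨D, hD⟩ : ∃ D : ℕ, D = 4 ^ j * g ^ 4 := ⟨_, rfl⟩
  obtain ⟨s, hs⟩ : ∃ s : ℕ, s = 2 ^ ((j + 1) / 2) * g := ⟨_, rfl⟩
  have hsr : (2 : ℝ) ^ ((j + 1) / 2) * g = (s : ℝ) := by rw [hs]; push_cast; ring
  rw [hsr]
  rw [← hD] at hM
  have hs1 : 1 ≤ s := by rw [hs]; exact Nat.mul_pos (by positivity) hg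
  have hD1 : 1 ≤ D := by rw [hD]; exact Nat.mul_pos (by positivity) (by positivity)
  have hsD : D ≤ s ^ 4 := by
    rw [hs, hD, mul_pow]
    apply Nat.mul_le_mul_right
    rw [← pow_mul]
    calc 4 ^ j = 2 ^ (2 * j) := by rw [pow_mul]; norm_num
      _ ≤ 2 ^ ((j + 1) / 2 * 4) := Nat.pow_le_pow_right (by norm_num) (by omega)
  have hNM : N ≤ s ^ 4 * (2 * M) := by
    have h3 : N < D * (M + 1) := by
      rw [hM]
      have := Nat.lt_mul_div_succ N (show 0 < D by omega)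
      exact this
    have h4 : D * (M + 1) ≤ D * (2 * M) := Nat.mul_le_mul_left _ (by omega)
    have h5 : D * (2 * M) ≤ s ^ 4 * (2 * M) := Nat.mul_le_mul_right _ hsD
    omega
  have hsr1 : (1 : ℝ) ≤ s := by exact_mod_cast hs1
  have hs0 : (0 : ℝ) < s := by linarith
  have hDr1 : (1 : ℝ) ≤ D := by exact_mod_cast hD1
  have hD0 : (0 : ℝ) < D := by linarith
  have hNMr : (N : ℝ) ≤ (s : ℝ) ^ 4 * (2 * M) := by exact_mod_cast hNM
  have hNκ : 0 < (N : ℝ) ^ κ := Real.rpow_pos_of_pos hN0 _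
  have hK4 : ((N : ℝ) ^ κ / s) ^ 4 ≤ 2 * M := by
    rw [div_pow, div_le_iff₀ (by positivity)]
    have h6 : ((N : ℝ) ^ κ) ^ 4 ≤ N := by
      rw [← Real.rpow_natCast, ← Real.rpow_mul hN0.le]
      calc (N : ℝ) ^ (κ * ((4 : ℕ) : ℝ)) ≤ (N : ℝ) ^ (1 : ℝ) :=
            Real.rpow_le_rpow_of_exponent_le hN1 (by push_cast; linarith)
        _ = N := Real.rpow_one _
    linarith [mul_comm ((s : ℝ) ^ 4) (2 * (M : ℝ))]
  have hb := hE M hMpos ((N : ℝ) ^ κ / s) (by positivity) hK4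
  refine hb.trans ?_
  have hMr : (M : ℝ) ≤ (N : ℝ) / D := by
    rw [hM]
    exact Nat.cast_div_le
  have hM1 : (M : ℝ) ^ (1 + ε) ≤ (N : ℝ) ^ (1 + ε) / D := by
    calc (M : ℝ) ^ (1 + ε) ≤ ((N : ℝ) / D) ^ (1 + ε) :=
          Real.rpow_le_rpow (by positivity) hMr (by linarith)
      _ = (N : ℝ) ^ (1 + ε) / (D : ℝ) ^ (1 + ε) := Real.div_rpow hN0.le hD0.le _
      _ ≤ (N : ℝ) ^ (1 + ε) / D := by
          apply div_le_div_of_nonneg_left (by positivity) hD0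
          calc (D : ℝ) = (D : ℝ) ^ (1 : ℝ) := (Real.rpow_one _).symm
            _ ≤ _ := Real.rpow_le_rpow_of_exponent_le hDr1 (by linarith)
  have hsDb : (s : ℝ) / D ≤ (1 / 2) ^ j * (1 / (g : ℝ) ^ 2) := by
    have h7 : (2 : ℝ) ^ ((j + 1) / 2) ≤ 2 ^ j := pow_le_pow_right₀ (by norm_num) (by omega)
    rw [← hsr]
    have hDr : (D : ℝ) = 4 ^ j * (g : ℝ) ^ 4 := by rw [hD]; push_cast; ring
    have h8 : (1 / 2 : ℝ) ^ j * (1 / (g : ℝ) ^ 2) = 1 / (2 ^ j * (g : ℝ) ^ 2) := by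
      rw [one_div_pow, one_div_mul_one_div]
    have h9 : (4 : ℝ) ^ j = 2 ^ j * 2 ^ j := by rw [← mul_pow]; norm_num
    have hg0 : (0 : ℝ) < g := by linarith
    rw [hDr, h8, div_le_div_iff₀ (by positivity) (by positivity), h9, one_mul]
    calc (2 : ℝ) ^ ((j + 1) / 2) * g * (2 ^ j * (g : ℝ) ^ 2)
        ≤ 2 ^ j * g * (2 ^ j * (g : ℝ) ^ 2) := by gcongr
      _ = 2 ^ j * 2 ^ j * (g : ℝ) ^ 3 := by ring
      _ ≤ 2 ^ j * 2 ^ j * (g : ℝ) ^ 4 := by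
          apply mul_le_mul_of_nonneg_left _ (by positivity)
          exact pow_le_pow_right₀ hg1 (by norm_num)
  have hfin : (N : ℝ) ^ (1 + ε) / (N : ℝ) ^ κ = (N : ℝ) ^ (1 - κ + ε) := by
    rw [← Real.rpow_sub hN0]
    congr 1
    ring
  calc C1 * (M : ℝ) ^ (1 + ε) / ((N : ℝ) ^ κ / s)
      ≤ C1 * ((N : ℝ) ^ (1 + ε) / D) / ((N : ℝ) ^ κ / s) := by
        apply div_le_div_of_nonneg_right _ (by positivity)
        exact mul_le_mul_of_nonneg_left hM1 hC1.le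
    _ = C1 * ((N : ℝ) ^ (1 + ε) / (N : ℝ) ^ κ) * (s / D) := by
        field_simp
    _ = C1 * (N : ℝ) ^ (1 - κ + ε) * (s / D) := by rw [hfin]
    _ ≤ _ := mul_le_mul_of_nonneg_left hsDb (by positivity)

end FinAux

open FinAux Pool.Agent.Lib.TSP.FinAAux

open Classical in
theorem fin_all4 (b : Bool) (κ ε : ℝ) (hκ : 0 < κ) (hκ4 : κ ≤ 1 / 4) (hε : 0 < ε) : ∃ C : ℝ, 0 < C ∧ ∀ N : ℕ, 1 ≤ N →
    (((Icc 1 N).filter fun n : ℕ => Odd (padicValNat 2 n) ∧ ¬ Sol b n ((N : ℝ) ^ κ)).card : ℝ)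
      ≤ C * (N : ℝ) ^ (1 - κ + ε) := by
  obtain ⟨Ca, hCa, hEa⟩ := E_bound4' b ε hε
  obtain ⟨Cb, hCb, hEb⟩ := E_bound4' (!b) ε hε
  refine ⟨4 * (Ca + Cb), by positivity, ?_⟩
  intro N hN
  have hN1 : (1 : ℝ) ≤ N := by exact_mod_cast hN
  have hN0 : (0 : ℝ) < N := by linarith
  have hsub : ((Icc 1 N).filter fun n : ℕ => Odd (padicValNat 2 n) ∧ ¬ Sol b n ((N : ℝ) ^ κ)) ⊆
      (range (N + 1) ×ˢ Icc 1 N).biUnion fun jg =>
        (E (if Even jg.1 then b else !b) (N / (4 ^ jg.1 * jg.2 ^ 4))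
          ((N : ℝ) ^ κ / (2 ^ ((jg.1 + 1) / 2) * jg.2))).image fun n3 => 4 ^ jg.1 * (jg.2 ^ 4 * n3) := by
    intro n hn
    rw [mem_filter, mem_Icc] at hn
    obtain ⟨⟨hn1, hnN⟩, ho, hs⟩ := hn
    obtain ⟨j, g, n3, hg, hn3, hnn, h4, hp⟩ := decomp n hn1 ho
    rw [mem_biUnion]
    have hg0 : 0 < g ^ 4 * n3 := by positivity
    have hj0 : 0 < 4 ^ j := by positivity
    refine ⟨(j, g), ?_, ?_⟩
    · rw [mem_product, mem_range, mem_Icc]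
      refine ⟨?_, hg, ?_⟩
      · have h5 : j < 4 ^ j := Nat.lt_pow_self (by norm_num)
        have h6 : 4 ^ j ≤ n := by
          rw [hnn]
          exact Nat.le_mul_of_pos_right _ hg0
        show j < N + 1
        omega
      · show g ≤ N
        have h5 : g ≤ g ^ 4 := Nat.le_self_pow (by norm_num) _
        have h6 : g ^ 4 ≤ g ^ 4 * n3 := Nat.le_mul_of_pos_right _ hn3
        have h7 : g ^ 4 * n3 ≤ n := by
          rw [hnn]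
          exact Nat.le_mul_of_pos_left _ hj0
        omega
    · rw [mem_image]
      refine ⟨n3, ?_, hnn.symm⟩
      rw [E, mem_filter, mem_Icc]
      refine ⟨⟨hn3, ?_⟩, h4, hp, ?_⟩
      · rw [Nat.le_div_iff_mul_le (by positivity)]
        calc n3 * (4 ^ j * g ^ 4) = n := by rw [hnn]; ring
          _ ≤ N := hnN
      · intro hsol
        apply hs
        have h8 := sol_step b j g n3 _ hsol
        rw [← hnn] at h8
        refine sol_mono h8 (le_of_eq ?_)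
        have hg0 : (0 : ℝ) < g := by exact_mod_cast hg
        show (2 : ℝ) ^ ((j + 1) / 2) * (g * ((N : ℝ) ^ κ / (2 ^ ((j + 1) / 2) * g))) = (N : ℝ) ^ κ
        field_simp
  have hcard : ((((Icc 1 N).filter fun n : ℕ => Odd (padicValNat 2 n) ∧ ¬ Sol b n ((N : ℝ) ^ κ)).card : ℕ) : ℝ)
      ≤ ∑ jg ∈ range (N + 1) ×ˢ Icc 1 N, ((E (if Even jg.1 then b else !b) (N / (4 ^ jg.1 * jg.2 ^ 4))
          ((N : ℝ) ^ κ / (2 ^ ((jg.1 + 1) / 2) * jg.2))).card : ℝ) := by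
    have h9 := (card_le_card hsub).trans card_biUnion_le
    have h10 := h9.trans (sum_le_sum fun jg _ => card_image_le)
    exact_mod_cast h10
  refine hcard.trans ?_
  have hterm : ∀ jg ∈ range (N + 1) ×ˢ Icc 1 N, ((E (if Even jg.1 then b else !b) (N / (4 ^ jg.1 * jg.2 ^ 4))
          ((N : ℝ) ^ κ / (2 ^ ((jg.1 + 1) / 2) * jg.2))).card : ℝ)
        ≤ (Ca + Cb) * (N : ℝ) ^ (1 - κ + ε) * ((1 / 2) ^ jg.1 * (1 / (jg.2 : ℝ) ^ 2)) := by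
    intro jg hjg
    rw [mem_product, mem_Icc] at hjg
    have hpos : (0 : ℝ) < (N : ℝ) ^ (1 - κ + ε) := Real.rpow_pos_of_pos hN0 _
    have hpos2 : (0 : ℝ) ≤ (1 / 2) ^ jg.1 * (1 / (jg.2 : ℝ) ^ 2) := by positivity
    by_cases he : Even jg.1
    · rw [if_pos he]
      refine (term_bound4 b κ ε Ca hκ4 hε hCa hEa N jg.1 jg.2 hN hjg.2.1).trans ?_
      apply mul_le_mul_of_nonneg_right _ hpos2
      apply mul_le_mul_of_nonneg_right _ hpos.le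
      linarith
    · rw [if_neg he]
      refine (term_bound4 (!b) κ ε Cb hκ4 hε hCb hEb N jg.1 jg.2 hN hjg.2.1).trans ?_
      apply mul_le_mul_of_nonneg_right _ hpos2
      apply mul_le_mul_of_nonneg_right _ hpos.le
      linarith
  refine (sum_le_sum hterm).trans ?_
  rw [← mul_sum, sum_product]
  have hprod : ∑ j ∈ range (N + 1), ∑ g ∈ Icc 1 N, ((1 : ℝ) / 2) ^ j * (1 / (g : ℝ) ^ 2) ≤ 4 := by
    rw [← sum_mul_sum]
    have h1 := sum_j (N + 1)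
    have h2 := sum_g N
    have h3 : (0 : ℝ) ≤ ∑ g ∈ Icc 1 N, (1 : ℝ) / (g : ℝ) ^ 2 := sum_nonneg fun g _ => by positivity
    calc _ ≤ (2 : ℝ) * 2 := mul_le_mul h1 h2 h3 (by norm_num)
      _ = 4 := by norm_num
  have hpos : (0 : ℝ) < (Ca + Cb) * (N : ℝ) ^ (1 - κ + ε) := by positivity
  calc _ ≤ (Ca + Cb) * (N : ℝ) ^ (1 - κ + ε) * 4 := mul_le_mul_of_nonneg_left hprod hpos.le
    _ = 4 * (Ca + Cb) * (N : ℝ) ^ (1 - κ + ε) := by ring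

end Pool.Agent.Lib.TS4
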