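import Pool.Agent.Lib.TS4.Trf
import Pool.Agent.Lib.TSP.Mom

/-!
# TS4.Mom: high moments with the large sieve (1.2 h)
PROOF. (1) `mean_moment`: `W = ∏ P`, `F(n) = ∑_S ∏_{p∈S} g p n` has period `W`. `TSP.moment` with `N = W M`: `M Σ_W ≤ M W c + E` for all `M ≥ 1` (`Σ_W` the sum over `range W`,
`c = (Y/2)^(-4k/5) exp 4000`, `E` independent of `M`), so `Σ_W ≤ W c` (divide by `M`, `M → ∞`).
(2) `F(n)^k = ∑_{f : Fin k → SS} ∏_i ∏_{p ∈ f i} g p n` (`Finset.sum_pow'`/`prod_univ_sum`; index set `Fintype.piFinset`), the summand has period `d_f = ∏ (⋃ f i) ≤ ∏_i ∏ f i ≤ Y^k`, `d_f ∣ W`. `ls_transfer` with `D = Y^k`,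
`‖F^k‖² = F^(2k)`.
-/

set_option autoImplicit false

open Finset

namespace Pool.Agent.Lib.TS4

open Pool.Agent.Lib.TSP

namespace MomAux

private theorem per_sum (F : ℕ → ℝ) (W : ℕ) (hF : ∀ n, F (n + W) = F n) (M : ℕ) :
    ∑ n ∈ range (M * W), F n = M * ∑ n ∈ range W, F n := by
  have hMW : ∀ M n, F (M * W + n) = F n := by
    intro M
    induction M with
    | zero => intro n; simp
    | succ M ih =>
      intro n
      have : (M + 1) * W + n = (M * W + n) + W := by ring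
      rw [this, hF, ih]
  induction M with
  | zero => simp
  | succ M ih =>
    rw [add_mul, one_mul, Finset.sum_range_add, ih]
    simp only [hMW]
    push_cast
    ring

private theorem per_of_dvd (f : ℕ → ℝ) (p : ℕ) (hf : ∀ n, f (n + p) = f n) {d : ℕ} (hd : p ∣ d) (n : ℕ) :
    f (n + d) = f n := by
  obtain ⟨t, rfl⟩ := hd
  induction t with
  | zero => simp
  | succ t ih =>
    have : n + p * (t + 1) = (n + p * t) + p := by ring
    rw [this, hf, ih]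

end MomAux

theorem mean_moment (g : ℕ → ℕ → ℝ) (P : Finset ℕ) (k z Y : ℕ) (hz : 2 ≤ z) (hP : ∀ p ∈ P, p.Prime ∧ z < p)
    (hper : ∀ p ∈ P, ∀ n, g p (n + p) = g p n) (hmean : ∀ p ∈ P, ∑ n ∈ range p, g p n = 0)
    (hg : ∀ p ∈ P, ∀ n, |g p n| ≤ 3 / (p : ℝ)) (hk : (k : ℝ) ^ 10 ≤ z) (hY : 1 ≤ Y)
    (SS : Finset (Finset ℕ)) (hS : ∀ S ∈ SS, S ⊆ P ∧ Y < 2 * ∏ p ∈ S, p ∧ ∏ p ∈ S, p ≤ Y) :
    ∑ n ∈ range (∏ p ∈ P, p), (∑ S ∈ SS, ∏ p ∈ S, g p n) ^ (2 * k) ≤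
      ((∏ p ∈ P, p : ℕ) : ℝ) * (((Y : ℝ) / 2) ^ (-(4 / 5 * (k : ℝ))) * Real.exp 4000) := by
  set W : ℕ := ∏ p ∈ P, p with hW
  set F : ℕ → ℝ := fun n => (∑ S ∈ SS, ∏ p ∈ S, g p n) ^ (2 * k) with hF
  have hFper : ∀ n, F (n + W) = F n := by
    intro n
    rw [hF]
    simp only
    congr 1
    refine Finset.sum_congr rfl fun S hSS => Finset.prod_congr rfl fun p hp => ?_
    have hpP : p ∈ P := (hS S hSS).1 hp
    exact MomAux.per_of_dvd (g p) p (hper p hpP) (Finset.dvd_prod_of_mem (fun q => q) hpP) n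
  set c : ℝ := ((Y : ℝ) / 2) ^ (-(4 / 5 * (k : ℝ))) * Real.exp 4000 with hc
  set E : ℝ := (∑ S ∈ SS, (3 : ℝ) ^ S.card) ^ (2 * k) with hE
  have hE0 : 0 ≤ E := by rw [hE]; positivity
  have key : ∀ M : ℕ, (M : ℝ) * ∑ n ∈ range W, F n ≤ (M : ℝ) * (W * c) + E := by
    intro M
    have h1 := moment g P k z Y (M * W) hz hP hper hmean hg hk hY SS hS
    have h2 := MomAux.per_sum F W hFper M
    rw [← h2]
    refine h1.trans (le_of_eq ?_)
    rw [hc, hE]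
    push_cast
    ring
  refine le_of_forall_pos_le_add fun ε hε => ?_
  obtain ⟨M, hM⟩ := exists_nat_gt (E / ε)
  have hM0 : (0 : ℝ) < M := lt_of_le_of_lt (by positivity) hM
  have h1 := key M
  rw [div_lt_iff₀ hε] at hM
  have h2 : (M : ℝ) * ∑ n ∈ range W, F n ≤ (M : ℝ) * (W * c + ε) := by
    rw [mul_add]
    linarith
  exact le_of_mul_le_mul_left h2 hM0

theorem moment4 : ∃ C : ℝ, 1 ≤ C ∧ ∀ (g : ℕ → ℕ → ℝ) (P : Finset ℕ) (k z Y N : ℕ), 2 ≤ z →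
    (∀ p ∈ P, p.Prime ∧ z < p) → (∀ p ∈ P, ∀ n, g p (n + p) = g p n) → (∀ p ∈ P, ∑ n ∈ range p, g p n = 0) →
    (∀ p ∈ P, ∀ n, |g p n| ≤ 3 / (p : ℝ)) → (k : ℝ) ^ 10 ≤ z → 1 ≤ Y → ∀ SS : Finset (Finset ℕ),
    (∀ S ∈ SS, S ⊆ P ∧ Y < 2 * ∏ p ∈ S, p ∧ ∏ p ∈ S, p ≤ Y) →
    ∑ n ∈ range N, (∑ S ∈ SS, ∏ p ∈ S, g p n) ^ (2 * k) ≤
      C * ((N : ℝ) + (Y : ℝ) ^ (2 * k)) * (((Y : ℝ) / 2) ^ (-(4 / 5 * (k : ℝ))) * Real.exp 4000) := by
  classical
  obtain ⟨C, hC1, hC⟩ := ls_transfer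
  refine ⟨C, hC1, fun g P k z Y N hz hP hper hmean hg hk hY SS hS => ?_⟩
  have hmm := mean_moment g P k z Y hz hP hper hmean hg hk hY SS hS
  set W : ℕ := ∏ p ∈ P, p with hW
  have hW1 : 1 ≤ W := Finset.prod_pos fun p hp => (hP p hp).1.pos
  set I : Finset (Fin k → Finset ℕ) := Fintype.piFinset (fun _ : Fin k => SS) with hI
  set h : (Fin k → Finset ℕ) → ℕ → ℂ := fun f n => ∏ i, ∏ p ∈ f i, ((g p n : ℝ) : ℂ) with hh
  set d : (Fin k → Finset ℕ) → ℕ := fun f => ∏ p ∈ P.filter (fun p => ∃ i, p ∈ f i), p with hd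
  have hsub : ∀ f ∈ I, ∀ i, f i ∈ SS := fun f hf => Fintype.mem_piFinset.1 hf
  have hd1 : ∀ f ∈ I, 1 ≤ d f ∧ d f ≤ Y ^ k ∧ d f ∣ W := by
    intro f hf
    have hfi := hsub f hf
    refine ⟨Finset.prod_pos fun p hp => (hP p (Finset.mem_filter.1 hp).1).1.pos, ?_,
      Finset.prod_dvd_prod_of_subset _ _ _ (Finset.filter_subset _ _)⟩
    calc d f = ∏ p ∈ P, (if ∃ i, p ∈ f i then p else 1) := by
          rw [hd]; exact Finset.prod_filter _ _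
      _ ≤ ∏ p ∈ P, p ^ (univ.filter fun i => p ∈ f i).card := by
          refine Finset.prod_le_prod' fun p hp => ?_
          have hp1 : 1 ≤ p := (hP p hp).1.pos
          split_ifs with h1
          · obtain ⟨i, hi⟩ := h1
            have h2 : 1 ≤ (univ.filter fun i => p ∈ f i).card :=
              Finset.card_pos.2 ⟨i, Finset.mem_filter.2 ⟨Finset.mem_univ _, hi⟩⟩
            calc p = p ^ 1 := (pow_one p).symm
              _ ≤ _ := Nat.pow_le_pow_right hp1 h2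
          · exact Nat.one_le_pow _ _ hp1
      _ = ∏ i, ∏ p ∈ f i, p :=
          (TSP.MomAux.prod_exp P f (fun i => (hS _ (hfi i)).1) (fun p => p)).symm
      _ ≤ ∏ _i : Fin k, Y := Finset.prod_le_prod' fun i _ => (hS _ (hfi i)).2.2
      _ = Y ^ k := by rw [Finset.prod_const, Finset.card_univ, Fintype.card_fin]
  have hhper : ∀ f ∈ I, ∀ n, h f (n + d f) = h f n := by
    intro f hf n
    have hfi := hsub f hf
    rw [hh]
    refine Finset.prod_congr rfl fun i _ => Finset.prod_congr rfl fun p hp => ?_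
    have hpP : p ∈ P := (hS _ (hfi i)).1 hp
    have hpd : p ∣ d f := Finset.dvd_prod_of_mem (fun q => q) (Finset.mem_filter.2 ⟨hpP, i, hp⟩)
    rw [MomAux.per_of_dvd (g p) p (hper p hpP) hpd n]
  have hsum : ∀ n, ‖∑ f ∈ I, h f n‖ ^ 2 = (∑ S ∈ SS, ∏ p ∈ S, g p n) ^ (2 * k) := by
    intro n
    have h1 : ∑ f ∈ I, h f n = (((∑ S ∈ SS, ∏ p ∈ S, g p n) ^ k : ℝ) : ℂ) := by
      have h2 := Finset.prod_univ_sum (fun _ : Fin k => SS) (fun _ S => ∏ p ∈ S, ((g p n : ℝ) : ℂ))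
      rw [Finset.prod_const, Finset.card_univ, Fintype.card_fin] at h2
      rw [hh, hI, ← h2]
      push_cast
      rfl
    rw [h1, Complex.norm_real, Real.norm_eq_abs, sq_abs, ← pow_mul, mul_comm k 2]
  have h1 := hC I h d W (Y ^ k) N hW1 (Nat.one_le_pow _ _ hY) hd1 hhper
  simp only [hsum] at h1
  refine h1.trans ?_
  have hWr : (0 : ℝ) < W := by exact_mod_cast hW1
  have hc0 : 0 ≤ C * ((N : ℝ) + ((Y ^ k : ℕ) : ℝ) ^ 2) / W := by positivity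
  refine (mul_le_mul_of_nonneg_left hmm hc0).trans (le_of_eq ?_)
  push_cast
  rw [← pow_mul, mul_comm k 2]
  field_simp

end Pool.Agent.Lib.TS4
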