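import Pool.Agent.Lib.TS4.Cheb
import Pool.Agent.Lib.TSP.SerF

/-!
# TS4.Ser: lower bound of the singular series, `T ≤ N^(1/4)` (1 h)
PROOF. `rough4`: copy the proof of `TSP.rough` (file TSP/Rgh.lean, namespace RghAux has all auxiliary lemmas), with `cheb4` in place of `cheb (ε/2)`: at most `2 log N` blocks, `2 log N · N^(3/4) + 1 ≤ N^(3/4+ε)`.
`ser_low4`: copy the proof of `TSP.ser_low` (file TSP/SerF.lean) with `rough4` in place of `rough`.
-/

set_option autoImplicit false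

open Finset

namespace Pool.Agent.Lib.TS4

open Pool.Agent.Lib.TSP Pool.Agent.Lib.TSP.RghAux Pool.Agent.Lib.TSP.SerFAux

theorem rough4 (b : Bool) (ε : ℝ) (hε : 0 < ε) : ∃ A1 : ℕ, ∀ A0 : ℕ, A1 ≤ A0 → ∃ N0 : ℕ, ∀ N T : ℕ, N0 ≤ N →
    T ^ 4 ≤ N → (((range (N + 1)).filter fun n : ℕ => 1 / 4 < |∑ r ∈ (Rset (zp A0 N) T).filter
      (fun r => 1 < r ∧ Squarefree r), A b n r|).card : ℝ) ≤ (N : ℝ) ^ (3 / 4 + ε) := by
  obtain ⟨A1, hA1⟩ := cheb4
  refine ⟨A1, fun A0 hA0 => ?_⟩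
  obtain ⟨N1, hN1⟩ := hA1 A0 hA0
  have hlog : ∀ᶠ N : ℕ in Filter.atTop, 2 * Real.log N + 1 ≤ (N : ℝ) ^ (ε / 2) := by
    have h1 : (fun x : ℝ => Real.log x) =o[Filter.atTop] fun x : ℝ => x ^ (ε / 2) :=
      isLittleO_log_rpow_atTop (by positivity)
    have h2 := h1.bound (c := 1 / 4) (by norm_num)
    have h3 := (tendsto_rpow_atTop (y := ε / 2) (by positivity)).eventually_ge_atTop 2
    have h4 := (h2.and h3).and (Filter.eventually_ge_atTop (1 : ℝ))
    filter_upwards [tendsto_natCast_atTop_atTop.eventually h4] with N hN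
    obtain ⟨⟨hN1, hN2⟩, hN3⟩ := hN
    rw [Real.norm_of_nonneg (Real.log_nonneg hN3), Real.norm_of_nonneg (by positivity)] at hN1
    linarith
  have hlog8 : ∀ᶠ N : ℕ in Filter.atTop, 8 ≤ Real.log N :=
    (Real.tendsto_log_atTop.comp tendsto_natCast_atTop_atTop).eventually_ge_atTop 8
  obtain ⟨N2, hN2⟩ := Filter.eventually_atTop.1 (hlog.and hlog8)
  refine ⟨max N1 (max N2 2), fun N T hN hT => ?_⟩
  have hNN1 : N1 ≤ N := (le_max_left _ _).trans hN
  have hNN2 : N2 ≤ N := (le_max_left _ _).trans ((le_max_right _ _).trans hN)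
  have hN2' : 2 ≤ N := (le_max_right _ _).trans ((le_max_right _ _).trans hN)
  obtain ⟨hl1, hl8⟩ := hN2 N hNN2
  set z := zp A0 N with hz
  have hTN : T ≤ N := by
    rcases Nat.eq_zero_or_pos T with h | h
    · omega
    · exact (Nat.le_self_pow (by norm_num) T).trans hT
  set I := Nat.log 2 T + 1 with hI
  have hIlog : (I : ℝ) ≤ 2 * Real.log N := by
    have h1 : (Nat.log 2 T : ℝ) ≤ Real.log N / Real.log 2 := by
      have h2 : Nat.log 2 T ≤ Nat.log 2 N := Nat.log_mono_right hTN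
      have h3 : (Nat.log 2 N : ℝ) ≤ Real.logb 2 N := Real.natLog_le_logb N 2
      have h4 : ((Nat.log 2 T : ℕ) : ℝ) ≤ (Nat.log 2 N : ℕ) := by exact_mod_cast h2
      rw [Real.logb] at h3
      linarith
    have h5 : Real.log N / Real.log 2 ≤ 1.5 * Real.log N := by
      rw [div_le_iff₀ (Real.log_pos (by norm_num))]
      have := Real.log_two_gt_d9
      nlinarith
    rw [hI]
    push_cast
    linarith
  -- the bad sets
  let Bad : ℕ → Finset ℕ := fun i => (range N).filter fun n : ℕ =>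
    1 / (Real.log N) ^ 2 < |∑ S ∈ SB z T i, ∏ p ∈ S, A b n p|
  have hBad : ∀ i, ((Bad i).card : ℝ) ≤ (N : ℝ) ^ (3 / 4 + ε / 2) := by
    intro i
    refine le_trans ?_ (Real.rpow_le_rpow_of_exponent_le (x := (N : ℝ)) (y := (3 / 4 : ℝ)) (z := 3 / 4 + ε / 2)
      (by exact_mod_cast (by omega : 1 ≤ N)) (by linarith))
    refine hN1 N hNN1 (fun p n => A b n p) (PP z T) (T / 2 ^ i) (SB z T i) ?_ ?_ ?_ ?_ ?_ ?_
    · exact (Nat.pow_le_pow_left (Nat.div_le_self _ _) 4).trans hT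
    · exact fun p hp => prime_PP hp
    · intro p _ n
      have := A_per b (n : ℤ) p
      push_cast
      exact this
    · intro p hp
      exact A_sum b (prime_PP hp).1
    · intro p hp n
      exact A_p_le b n (prime_PP hp).1
    · exact fun S hS => mem_SB hS
  have hsub : ((range (N + 1)).filter fun n : ℕ => 1 / 4 < |∑ r ∈ (Rset z T).filter
      (fun r => 1 < r ∧ Squarefree r), A b n r|) ⊆ insert N ((range I).biUnion Bad) := by
    intro n hn
    rw [mem_filter, mem_range] at hn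
    obtain ⟨hn1, hn2⟩ := hn
    rw [mem_insert]
    by_cases hnN : n = N
    · exact Or.inl hnN
    right
    have hnN' : n < N := by omega
    by_contra hcon
    rw [mem_biUnion] at hcon
    push Not at hcon
    have h1 : ∀ i ∈ range I, |∑ S ∈ SB z T i, ∏ p ∈ S, A b n p| ≤ 1 / (Real.log N) ^ 2 := by
      intro i hi
      have := hcon i hi
      simp only [Bad, mem_filter, mem_range, not_and, not_lt] at this
      exact this hnN'
    rw [sum_eq, sum_blocks] at hn2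
    have h2 : |∑ i ∈ range I, ∑ S ∈ SB z T i, ∏ p ∈ S, A b n p| ≤ I * (1 / (Real.log N) ^ 2) := by
      refine (abs_sum_le_sum_abs _ _).trans ((sum_le_sum h1).trans ?_)
      simp
    have h3 : (I : ℝ) * (1 / (Real.log N) ^ 2) ≤ 1 / 4 := by
      rw [mul_one_div, div_le_iff₀ (by positivity)]
      nlinarith
    linarith
  have hcard := card_le_card hsub
  have h1 : (((range I).biUnion Bad).card : ℝ) ≤ I * (N : ℝ) ^ (3 / 4 + ε / 2) := by
    have h2 : (((range I).biUnion Bad).card : ℝ) ≤ ∑ i ∈ range I, ((Bad i).card : ℝ) := by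
      exact_mod_cast card_biUnion_le
    refine h2.trans ((sum_le_sum fun i _ => hBad i).trans ?_)
    simp
  have h2 : ((insert N ((range I).biUnion Bad)).card : ℝ) ≤ ((range I).biUnion Bad).card + 1 := by
    exact_mod_cast card_insert_le _ _
  have hNpos : (0 : ℝ) < N := by positivity
  have h3 : (1 : ℝ) ≤ (N : ℝ) ^ (3 / 4 + ε / 2) :=
    Real.one_le_rpow (by exact_mod_cast (by omega : 1 ≤ N)) (by positivity)
  calc (((range (N + 1)).filter fun n : ℕ => 1 / 4 < |∑ r ∈ (Rset z T).filter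
      (fun r => 1 < r ∧ Squarefree r), A b n r|).card : ℝ)
      ≤ ((insert N ((range I).biUnion Bad)).card : ℝ) := by exact_mod_cast hcard
    _ ≤ I * (N : ℝ) ^ (3 / 4 + ε / 2) + 1 := by linarith
    _ ≤ (2 * Real.log N) * (N : ℝ) ^ (3 / 4 + ε / 2) + (N : ℝ) ^ (3 / 4 + ε / 2) := by
        have : (0 : ℝ) ≤ (N : ℝ) ^ (3 / 4 + ε / 2) := by positivity
        nlinarith
    _ = (2 * Real.log N + 1) * (N : ℝ) ^ (3 / 4 + ε / 2) := by ring
    _ ≤ (N : ℝ) ^ (ε / 2) * (N : ℝ) ^ (3 / 4 + ε / 2) := by gcongr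
    _ = (N : ℝ) ^ (3 / 4 + ε) := by
        rw [← Real.rpow_add hNpos]
        congr 1
        ring

open Classical in
theorem ser_low4 (b : Bool) (ε : ℝ) (hε : 0 < ε) : ∃ A0 N0 : ℕ, ∀ N T : ℕ, N0 ≤ N → 1 ≤ T → T ^ 4 ≤ N →
    (((range (N + 1)).filter fun m : ℕ => (∀ p : ℕ, p.Prime → Odd p → ¬ ((p : ℤ) ^ 4 ∣ 4 * (m : ℤ) + n1 b)) ∧
      ∑ q ∈ Qs (zp A0 N) T ⌈(N : ℝ) ^ ε⌉₊, A b m q < (N : ℝ) ^ (-ε)).card : ℝ) ≤ (N : ℝ) ^ (3 / 4 + ε) := by
  obtain ⟨A1, hA1⟩ := rough4 b ε hε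
  set A0 : ℕ := max A1 6 with hA0
  have hA6 : 6 ≤ A0 := le_max_right _ _
  have hA0pos : (0 : ℝ) < A0 := by
    have : (6 : ℝ) ≤ A0 := by exact_mod_cast hA6
    linarith
  set κ : ℝ := ε / (80 * A0) with hκdef
  have hκ : 0 < κ := by positivity
  have hκε : κ < ε := by
    rw [hκdef, div_lt_iff₀ (by positivity)]
    have : (6 : ℝ) ≤ A0 := by exact_mod_cast hA6
    nlinarith
  obtain ⟨N1, hN1⟩ := hA1 A0 (le_max_left _ _)
  obtain ⟨N2, hN2⟩ := rou_abs A0 hA6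
  obtain ⟨N3, hN3⟩ := rou_sq A0 hA6
  obtain ⟨N4, hN4⟩ := smo_low A0 κ hκ
  obtain ⟨N5, hN5⟩ := smo_tail A0 (by omega) ε hε
  obtain ⟨N6, hN6⟩ := asym κ ε hκ hκε
  refine ⟨A0, N1 + N2 + N3 + N4 + N5 + N6, fun N T hN hT hT5 => ?_⟩
  have hTN : T ≤ N := (Nat.le_self_pow (by norm_num) T).trans hT5
  refine le_trans ?_ (hN1 N T (by omega) hT5)
  have hsub : ((range (N + 1)).filter fun m : ℕ => (∀ p : ℕ, p.Prime → Odd p → ¬ ((p : ℤ) ^ 4 ∣ 4 * (m : ℤ) + n1 b)) ∧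
      ∑ q ∈ Qs (zp A0 N) T ⌈(N : ℝ) ^ ε⌉₊, A b m q < (N : ℝ) ^ (-ε)) ⊆
      (range (N + 1)).filter fun n : ℕ => 1 / 4 < |∑ r ∈ (Rset (zp A0 N) T).filter
      (fun r => 1 < r ∧ Squarefree r), A b n r| := by
    intro m hm
    obtain ⟨hm1, hm2, hm3⟩ := Finset.mem_filter.1 hm
    refine Finset.mem_filter.2 ⟨hm1, ?_⟩
    by_contra hcon
    have hcon' : |∑ r ∈ (Rset (zp A0 N) T).filter (fun r => 1 < r ∧ Squarefree r), A b m r| ≤ 1 / 4 :=
      not_lt.1 hcon
    have hg : Good (A b m) (4 * m + (n1 b).toNat) := good b m hm2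
    have hmN : m ≤ N := by
      have := Finset.mem_range.1 hm1
      omega
    have hn1 : 1 ≤ 4 * m + (n1 b).toNat := by
      cases b <;> simp [n1]
    have hn2 : 4 * m + (n1 b).toNat ≤ 5 * N + 10 := by
      cases b <;> simp [n1] <;> omega
    have hsq := hN3 N T (by omega) hTN (A b m) _ hg hn1 hn2
    have habs := hN2 N T (by omega) hTN (A b m) _ hg hn1 hn2
    have hR := rset_low hg.one hT hcon' hsq
    have hP := hN4 N (by omega) (A b m) _ hg
    rw [← smo_prod (zp A0 N) (A b m) hg.one hg.mul] at hP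
    have htail := hN5 N (by omega) (A b m) _ hg ((⌈(N : ℝ) ^ ε⌉₊ : ℕ) : ℝ) (Nat.le_ceil _)
    have htail' : ∑ q ∈ (Ws (zp A0 N)).divisors.filter (fun q : ℕ => ⌈(N : ℝ) ^ ε⌉₊ < q), |A b m q| ≤
        (N : ℝ) ^ (-(ε / (20 * A0))) := by
      refine le_trans (le_of_eq ?_) htail
      refine Finset.sum_congr (Finset.filter_congr fun q _ => ?_) fun _ _ => rfl
      exact Nat.cast_lt.symm
    have hdec := dec (zp A0 N) T ⌈(N : ℝ) ^ ε⌉₊ (A b m) _ hg _ htail'
    have has := hN6 N (by omega)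
    have e4 : ε / (20 * (A0 : ℝ)) = 4 * κ := by
      rw [hκdef]
      field_simp
      ring
    rw [e4] at hdec
    have hNpos : 0 ≤ (N : ℝ) ^ (-(4 * κ)) := Real.rpow_nonneg (Nat.cast_nonneg _) _
    have hPpos : 0 ≤ (N : ℝ) ^ (-κ) := Real.rpow_nonneg (Nat.cast_nonneg _) _
    have h7 := mul_le_mul_of_nonneg_left habs hNpos
    have h8 := (abs_le.1 hdec).1
    have h9 : (N : ℝ) ^ (-κ) / 2 ≤ (∑ q ∈ (Ws (zp A0 N)).divisors, A b m q) *
        ∑ r ∈ Rset (zp A0 N) T, A b m r := by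
      calc (N : ℝ) ^ (-κ) / 2 = (N : ℝ) ^ (-κ) * (1 / 2) := by ring
        _ ≤ (∑ q ∈ (Ws (zp A0 N)).divisors, A b m q) * (1 / 2) :=
            mul_le_mul_of_nonneg_right hP (by norm_num)
        _ ≤ _ := mul_le_mul_of_nonneg_left hR (hPpos.trans hP)
    linarith
  exact_mod_cast Finset.card_le_card hsub

end Pool.Agent.Lib.TS4
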