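import Pool.Agent.Lib.VL.LsDual
import Pool.Agent.Lib.HLT.Fourier

/-!
# TS4.Trf: large sieve transfer from a complete period to a short one (1.2 h)
PROOF. `H = ∑ h i` has period `W`. Discrete Fourier: `H(n) = ∑_{a<W} c(a) e(an/W)`, `c(a) = (1/W) ∑_{n<W} H(n) e(-an/W)`. If `h` has period `d ∣ W` its coefficient at `a` vanishes unless `(W/d) ∣ a`
(sum over the classes modulo `d`: `∑_{j < W/d} e(-a d j/W) = 0` unless `W/d ∣ a`). So `c(a) ≠ 0` only for `a` with `(W/d_i) ∣ a` for some `i`, i.e. `a/W = b/d_i`. Two different such `a/W` in `[0,1)`: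
`nrm(b/d - b'/d') ≥ 1/(d d') ≥ 1/D²` (not an integer). `VL.ls_dual` with `δ = 1/D²` (`ex (y * β)` is `e(yβ)`), and Parseval `∑_a |c(a)|² = (1/W) ∑_{n<W} |H(n)|²`
(orthogonality; the library has `HLT.parseval` in `HLT/Fourier.lean`).
-/

set_option autoImplicit false

open Finset

namespace Pool.Agent.Lib.TS4

namespace TrfAux

open Pool.Agent.HLT

theorem ex_eq_one_iff {N : ℕ} (hN : 0 < N) (k : ℤ) : ex (k / N) = 1 ↔ (N : ℤ) ∣ k := by
  unfold ex
  rw [Complex.exp_eq_one_iff]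
  have hN' : (N : ℂ) ≠ 0 := by exact_mod_cast hN.ne'
  have hpi : (2 * (Real.pi : ℂ) * Complex.I) ≠ 0 := Complex.two_pi_I_ne_zero
  constructor
  · rintro ⟨m, hm⟩
    refine ⟨m, ?_⟩
    have h1 : ((k : ℂ) / N) * (2 * (Real.pi : ℂ) * Complex.I) = m * (2 * (Real.pi : ℂ) * Complex.I) := by
      rw [← hm]
      push_cast
      ring
    have h2 := mul_right_cancel₀ hpi h1
    rw [div_eq_iff hN'] at h2
    have h3 : ((k : ℤ) : ℂ) = ((N * m : ℤ) : ℂ) := by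
      rw [h2]
      push_cast
      ring
    exact_mod_cast h3
  · rintro ⟨m, rfl⟩
    refine ⟨m, ?_⟩
    push_cast
    field_simp

theorem sum_ex {N : ℕ} (hN : 0 < N) (k : ℤ) :
    ∑ ξ ∈ range N, ex (k * (ξ / N)) = if (N : ℤ) ∣ k then (N : ℂ) else 0 := by
  have h1 : ∀ ξ : ℕ, ex (k * (ξ / N)) = ex (k / N) ^ ξ := by
    intro ξ
    rw [← ex_nat_mul]
    congr 1
    ring
  simp_rw [h1]
  split_ifs with h
  · rw [(ex_eq_one_iff hN k).2 h]
    simp
  · have hne : ex (k / N) ≠ 1 := fun h' => h ((ex_eq_one_iff hN k).1 h')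
    rw [geom_sum_eq hne]
    have h2 : ex (k / N) ^ N = 1 := by
      rw [← ex_nat_mul]
      have h3 : ((N : ℝ) * ((k : ℝ) / N)) = ((k : ℤ) : ℝ) := by
        have : (N : ℝ) ≠ 0 := by exact_mod_cast hN.ne'
        field_simp
      rw [h3]
      exact ex_int k
    rw [h2, sub_self, zero_div]

theorem per_mul {f : ℕ → ℂ} {d : ℕ} (hf : ∀ n, f (n + d) = f n) (k n : ℕ) : f (n + d * k) = f n := by
  induction k with
  | zero => simp
  | succ k ih =>
    have : n + d * (k + 1) = (n + d * k) + d := by ring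
    rw [this, hf, ih]

theorem per_dvd {f : ℕ → ℂ} {d W : ℕ} (hf : ∀ n, f (n + d) = f n) (h : d ∣ W) (n : ℕ) : f (n + W) = f n := by
  obtain ⟨k, rfl⟩ := h
  exact per_mul hf k n

theorem per_mod {f : ℕ → ℂ} {d : ℕ} (hf : ∀ n, f (n + d) = f n) (n : ℕ) : f (n % d) = f n := by
  conv_rhs => rw [← Nat.mod_add_div n d]
  rw [per_mul hf]

/-- the Fourier coefficient -/
noncomputable def co (W : ℕ) (G : ℕ → ℂ) (a : ℕ) : ℂ :=
  (1 / (W : ℂ)) * ∑ n ∈ range W, G n * ex (-((n : ℝ) * ((a : ℝ) / W)))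

theorem inversion {W : ℕ} (hW : 0 < W) {G : ℕ → ℂ} (hG : ∀ n, G (n + W) = G n) (n : ℕ) :
    ∑ a ∈ range W, co W G a * ex ((n : ℝ) * ((a : ℝ) / W)) = G n := by
  have hW' : (W : ℂ) ≠ 0 := by exact_mod_cast hW.ne'
  have h1 : ∀ a ∈ range W, co W G a * ex ((n : ℝ) * ((a : ℝ) / W)) =
      ∑ m ∈ range W, (1 / (W : ℂ)) * G m * ex (((((n : ℤ) - m : ℤ)) : ℝ) * ((a : ℝ) / W)) := by
    intro a _
    unfold co
    rw [mul_assoc, Finset.sum_mul, Finset.mul_sum]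
    refine sum_congr rfl fun m _ => ?_
    have h2 : ex (((((n : ℤ) - m : ℤ)) : ℝ) * ((a : ℝ) / W)) =
        ex (-((m : ℝ) * ((a : ℝ) / W))) * ex ((n : ℝ) * ((a : ℝ) / W)) := by
      rw [← ex_add]
      congr 1
      push_cast
      ring
    rw [h2]
    ring
  rw [sum_congr rfl h1, sum_comm]
  have h3 : ∀ m ∈ range W, ∑ a ∈ range W, (1 / (W : ℂ)) * G m * ex (((((n : ℤ) - m : ℤ)) : ℝ) * ((a : ℝ) / W)) =
      if m = n % W then G m else 0 := by
    intro m hm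
    rw [← mul_sum, sum_ex hW]
    have hm' := mem_range.1 hm
    have h4 : (W : ℤ) ∣ ((n : ℤ) - m) ↔ m = n % W := by
      rw [← Nat.modEq_iff_dvd]
      unfold Nat.ModEq
      rw [Nat.mod_eq_of_lt hm']
    by_cases hmn : m = n % W
    · rw [if_pos (h4.2 hmn), if_pos hmn]
      field_simp
    · rw [if_neg (fun h => hmn (h4.1 h)), if_neg hmn]
      ring
  rw [sum_congr rfl h3, sum_ite_eq' (range W) (n % W)]
  rw [if_pos (mem_range.2 (Nat.mod_lt _ hW))]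
  exact per_mod hG n

theorem sum_block (d M : ℕ) (f : ℕ → ℂ) :
    ∑ n ∈ range (d * M), f n = ∑ r ∈ range d, ∑ j ∈ range M, f (r + d * j) := by
  rw [sum_comm]
  induction M with
  | zero => simp
  | succ M ih =>
    rw [sum_range_succ, ← ih, Nat.mul_succ, sum_range_add]
    congr 1
    refine sum_congr rfl fun r _ => ?_
    rw [add_comm]

theorem co_vanish {W d : ℕ} (hW : 0 < W) (hd : 0 < d) (hdW : d ∣ W) {f : ℕ → ℂ} (hf : ∀ n, f (n + d) = f n)
    {a : ℕ} (ha : ¬ (W / d ∣ a)) : ∑ n ∈ range W, f n * ex (-((n : ℝ) * ((a : ℝ) / W))) = 0 := by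
  obtain ⟨M, rfl⟩ := hdW
  have hM : 0 < M := Nat.pos_of_mul_pos_left hW |> fun h => by
    rcases Nat.eq_zero_or_pos M with h0 | h0
    · subst h0
      simp at hW
    · exact h0
  rw [Nat.mul_div_cancel_left M hd] at ha
  rw [sum_block d M]
  refine sum_eq_zero fun r _ => ?_
  have hdR : (d : ℝ) ≠ 0 := by exact_mod_cast hd.ne'
  have hMR : (M : ℝ) ≠ 0 := by exact_mod_cast hM.ne'
  have h1 : ∀ j ∈ range M, f (r + d * j) * ex (-(((r + d * j : ℕ) : ℝ) * ((a : ℝ) / ((d * M : ℕ) : ℝ)))) =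
      f r * ex (-((r : ℝ) * ((a : ℝ) / ((d * M : ℕ) : ℝ)))) * ex (((-(a : ℤ) : ℤ) : ℝ) * ((j : ℝ) / M)) := by
    intro j _
    rw [per_mul hf, mul_assoc, ← ex_add]
    congr 2
    push_cast
    field_simp
    ring
  rw [sum_congr rfl h1, ← mul_sum, sum_ex hM, if_neg, mul_zero]
  intro h
  rw [dvd_neg] at h
  exact ha (by exact_mod_cast h)

theorem par {W : ℕ} (hW : 0 < W) {G : ℕ → ℂ} (hG : ∀ n, G (n + W) = G n) :
    ∑ a ∈ range W, ‖co W G a‖ ^ 2 = 1 / (W : ℝ) * ∑ n ∈ range W, ‖G n‖ ^ 2 := by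
  have hWR : (W : ℝ) ≠ 0 := by exact_mod_cast hW.ne'
  have hshift : ∀ {M : Type} [AddCommMonoid M] (f : ℕ → M), (∀ n, f (n + W) = f n) →
      ∑ n ∈ Icc 1 W, f n = ∑ n ∈ range W, f n := by
    intro M _ f hf
    obtain ⟨V, rfl⟩ : ∃ V, W = V + 1 := ⟨W - 1, by omega⟩
    have e1 : Icc 1 (V + 1) = (range (V + 1)).image (fun n => n + 1) := by
      ext x
      simp only [mem_Icc, mem_image, mem_range]
      constructor
      · intro h
        exact ⟨x - 1, by omega, by omega⟩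
      · rintro ⟨y, hy, rfl⟩
        omega
    rw [e1, sum_image (fun x _ y _ h => by simpa using h), sum_range_succ, sum_range_succ']
    congr 1
    have := hf 0
    rw [zero_add] at this
    exact this
  have h1 := parseval W W le_rfl hW (fun n => (starRingEnd ℂ) (G n))
  have h2 : ∀ a ∈ range W, ‖co W G a‖ ^ 2 =
      1 / (W : ℝ) ^ 2 * ‖∑ n ∈ Icc 1 W, (starRingEnd ℂ) (G n) * ex ((n : ℝ) * ((a : ℝ) / W))‖ ^ 2 := by
    intro a _
    have h3 : ∑ n ∈ Icc 1 W, (starRingEnd ℂ) (G n) * ex ((n : ℝ) * ((a : ℝ) / W)) =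
        (starRingEnd ℂ) (∑ n ∈ range W, G n * ex (-((n : ℝ) * ((a : ℝ) / W)))) := by
      rw [hshift (fun n => (starRingEnd ℂ) (G n) * ex ((n : ℝ) * ((a : ℝ) / W))), map_sum]
      · refine sum_congr rfl fun n _ => ?_
        rw [map_mul, ← ex_neg, neg_neg]
      · intro n
        rw [hG]
        congr 1
        have : (((n + W : ℕ) : ℝ) * ((a : ℝ) / W)) = (n : ℝ) * ((a : ℝ) / W) + ((a : ℤ) : ℝ) := by
          push_cast
          field_simp
        rw [this, ex_add_int]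
    rw [h3, RCLike.norm_conj]
    unfold co
    rw [norm_mul, mul_pow]
    congr 1
    rw [norm_div, norm_one, Complex.norm_natCast]
    rw [div_pow, one_pow]
  rw [sum_congr rfl h2, ← mul_sum, h1, hshift (fun n => ‖(starRingEnd ℂ) (G n)‖ ^ 2)]
  · simp only [RCLike.norm_conj]
    field_simp
  · intro n
    simp only [hG]

theorem spaced {W D d d' : ℕ} (hW : 0 < W) (hd : 1 ≤ d) (hd' : 1 ≤ d') (hdD : d ≤ D) (hdD' : d' ≤ D)
    (hdW : d ∣ W) (hdW' : d' ∣ W) {a b : ℕ} (ha : a < W) (hb : b < W) (hab : a ≠ b)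
    (h1 : W / d ∣ a) (h2 : W / d' ∣ b) : 1 / (D : ℝ) ^ 2 ≤ nrm ((a : ℝ) / W - (b : ℝ) / W) := by
  obtain ⟨M, hM⟩ := hdW
  obtain ⟨M', hM'⟩ := hdW'
  have e1 : W / d = M := by rw [hM]; exact Nat.mul_div_cancel_left M hd
  have e2 : W / d' = M' := by rw [hM']; exact Nat.mul_div_cancel_left M' hd'
  rw [e1] at h1
  rw [e2] at h2
  obtain ⟨u, rfl⟩ := h1
  obtain ⟨v, rfl⟩ := h2
  have hWR : (0 : ℝ) < W := by exact_mod_cast hW
  have hdR : (0 : ℝ) < d := by exact_mod_cast hd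
  have hdR' : (0 : ℝ) < d' := by exact_mod_cast hd'
  have hDR : (0 : ℝ) < D := hdR.trans_le (by exact_mod_cast hdD)
  have f1 : ((M * u : ℕ) : ℝ) / W = (u : ℝ) / d := by
    have hMR : (W : ℝ) = d * M := by exact_mod_cast hM
    have hM0 : (M : ℝ) ≠ 0 := by
      intro h0
      rw [h0, mul_zero] at hMR
      exact hWR.ne' hMR
    rw [hMR]
    push_cast
    field_simp
  have f2 : ((M' * v : ℕ) : ℝ) / W = (v : ℝ) / d' := by
    have hMR : (W : ℝ) = d' * M' := by exact_mod_cast hM'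
    have hM0 : (M' : ℝ) ≠ 0 := by
      intro h0
      rw [h0, mul_zero] at hMR
      exact hWR.ne' hMR
    rw [hMR]
    push_cast
    field_simp
  set x : ℝ := ((M * u : ℕ) : ℝ) / W - ((M' * v : ℕ) : ℝ) / W with hx
  have hne : x - round x ≠ 0 := by
    intro h0
    have h3 : x = ((round x : ℤ) : ℝ) := by linarith
    have h4 : ((((M * u : ℕ) : ℤ) - ((M' * v : ℕ) : ℤ) : ℤ) : ℝ) = ((W * round x : ℤ) : ℝ) := by
      have : x * W = ((M * u : ℕ) : ℝ) - ((M' * v : ℕ) : ℝ) := by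
        rw [hx]
        field_simp
      push_cast
      rw [← h3]
      push_cast at this
      linarith
    have h5 : (((M * u : ℕ) : ℤ) - ((M' * v : ℕ) : ℤ) : ℤ) = W * round x := by exact_mod_cast h4
    have h6 : (W : ℤ) ∣ (((M * u : ℕ) : ℤ) - ((M' * v : ℕ) : ℤ)) := ⟨_, h5⟩
    have h7 := Int.eq_zero_of_dvd_of_natAbs_lt_natAbs h6 (by
      omega)
    apply hab
    omega
  have h8 : x - round x = (((u * d' - v * d - round x * (d * d') : ℤ)) : ℝ) / (d * d') := by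
    rw [hx, f1, f2]
    push_cast
    field_simp
  have h9 : (1 : ℝ) ≤ |(((u * d' - v * d - round x * (d * d') : ℤ)) : ℝ)| := by
    have h10 : (u * d' - v * d - round x * (d * d') : ℤ) ≠ 0 := by
      intro h0
      apply hne
      rw [h8, h0]
      simp
    have := Int.one_le_abs h10
    exact_mod_cast this
  unfold nrm
  rw [h8, abs_div, abs_of_pos (mul_pos hdR hdR')]
  apply div_le_div₀ (abs_nonneg _) h9 (mul_pos hdR hdR')
  rw [sq]
  exact mul_le_mul (by exact_mod_cast hdD) (by exact_mod_cast hdD') hdR'.le hDR.le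

end TrfAux

open TrfAux

theorem ls_transfer : ∃ C : ℝ, 1 ≤ C ∧ ∀ {ι : Type} (I : Finset ι) (h : ι → ℕ → ℂ) (d : ι → ℕ) (W D N : ℕ),
    1 ≤ W → 1 ≤ D → (∀ i ∈ I, 1 ≤ d i ∧ d i ≤ D ∧ d i ∣ W) → (∀ i ∈ I, ∀ n, h i (n + d i) = h i n) →
    ∑ n ∈ range N, ‖∑ i ∈ I, h i n‖ ^ 2 ≤
      C * ((N : ℝ) + (D : ℝ) ^ 2) / W * ∑ n ∈ range W, ‖∑ i ∈ I, h i n‖ ^ 2 := by
  classical
  obtain ⟨C, hC1, hC⟩ := Pool.Agent.VL.ls_dual
  refine ⟨C, hC1, ?_⟩
  intro ι I h d W D N hW hD hd hper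
  have hW0 : 0 < W := hW
  have hWR : (0 : ℝ) < W := by exact_mod_cast hW0
  have hDR : (1 : ℝ) ≤ D := by exact_mod_cast hD
  set G : ℕ → ℂ := fun n => ∑ i ∈ I, h i n with hGdef
  have hG : ∀ n, G (n + W) = G n := by
    intro n
    rw [hGdef]
    exact sum_congr rfl fun i hi => per_dvd (hper i hi) (hd i hi).2.2 n
  set s : Finset ℕ := (range W).filter (fun a => ∃ i ∈ I, W / d i ∣ a) with hs
  have hvan : ∀ a ∈ range W, a ∉ s → co W G a = 0 := by
    intro a ha hns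
    have h1 : ∀ i ∈ I, ¬ (W / d i ∣ a) := by
      intro i hi hdv
      exact hns (mem_filter.2 ⟨ha, i, hi, hdv⟩)
    unfold co
    rw [hGdef]
    have h2 : ∑ n ∈ range W, (∑ i ∈ I, h i n) * Pool.Agent.HLT.ex (-((n : ℝ) * ((a : ℝ) / W))) =
        ∑ i ∈ I, ∑ n ∈ range W, h i n * Pool.Agent.HLT.ex (-((n : ℝ) * ((a : ℝ) / W))) := by
      rw [sum_comm]
      exact sum_congr rfl fun n _ => by rw [sum_mul]
    rw [h2, sum_eq_zero fun i hi => co_vanish hW0 (hd i hi).1 (hd i hi).2.2 (hper i hi) (h1 i hi), mul_zero]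
  have hsub : s ⊆ range W := filter_subset _ _
  have hrep : ∀ n : ℕ, G n = ∑ a ∈ s, co W G a * Pool.Agent.HLT.ex ((n : ℝ) * ((a : ℝ) / W)) := by
    intro n
    rw [← inversion hW0 hG n]
    symm
    refine sum_subset hsub fun a ha hns => ?_
    rw [hvan a ha hns, zero_mul]
  have hls := hC s (fun a => (a : ℝ) / W) (co W G) (1 / (D : ℝ) ^ 2) N (by positivity)
    (by
      rw [div_le_one (by positivity)]
      nlinarith) (by
      intro a ha b hb hab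
      obtain ⟨ha1, i, hi, hdi⟩ := mem_filter.1 ha
      obtain ⟨hb1, j, hj, hdj⟩ := mem_filter.1 hb
      exact spaced hW0 (hd i hi).1 (hd j hj).1 (hd i hi).2.1 (hd j hj).2.1 (hd i hi).2.2 (hd j hj).2.2
        (mem_range.1 ha1) (mem_range.1 hb1) hab hdi hdj)
  have h1 : ∑ n ∈ range N, ‖G n‖ ^ 2 =
      ∑ y ∈ range N, ‖∑ a ∈ s, co W G a * Pool.Agent.HLT.ex (y * ((a : ℝ) / W))‖ ^ 2 :=
    sum_congr rfl fun n _ => by rw [← hrep n]
  have h2 : ∑ a ∈ s, ‖co W G a‖ ^ 2 ≤ 1 / (W : ℝ) * ∑ n ∈ range W, ‖G n‖ ^ 2 := by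
    rw [← par hW0 hG]
    exact sum_le_sum_of_subset_of_nonneg hsub fun a _ _ => by positivity
  have h3 : (1 : ℝ) / (1 / (D : ℝ) ^ 2) = (D : ℝ) ^ 2 := by
    rw [one_div_one_div]
  rw [h3] at hls
  calc ∑ n ∈ range N, ‖G n‖ ^ 2 ≤ C * ((N : ℝ) + (D : ℝ) ^ 2) * ∑ a ∈ s, ‖co W G a‖ ^ 2 := by
        rw [h1]
        exact hls
    _ ≤ C * ((N : ℝ) + (D : ℝ) ^ 2) * (1 / (W : ℝ) * ∑ n ∈ range W, ‖G n‖ ^ 2) := by
        apply mul_le_mul_of_nonneg_left h2
        positivity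
    _ = C * ((N : ℝ) + (D : ℝ) ^ 2) / W * ∑ n ∈ range W, ‖G n‖ ^ 2 := by ring

end Pool.Agent.Lib.TS4
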