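import Pool.Agent.Lib.TS4.App
import Pool.Agent.Lib.TS4.Div
import Pool.Agent.Lib.TSP.VarA

/-!
# TS4.VarA: the major arcs, `Q ≤ N^(1/4)` (1.5 h)  (compare TSP/VarA.lean; its auxiliary lemmas can be used)
PROOF. `B = T/N`, `w = zz N β`, `|w|² = 1/N² + β²`, `kq = q² N |w|²`. For `q ≤ Q`, `|β| ≤ B`: `kq ≤ Q²(1+T²)/N ≤ 2Q⁴/N ≤ 2`. With `Θ = θ₁θ₂`:
`F - Psi4 = (Θ - M12) f + M12 (f - (S/q) II) + (|β|/B) M12 (S/q) II`; `|..|² ≤ 3(..)`.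
(1) `|Θ - M12|² ≤ C² kq²/(q²|w|²) ≤ 2C² kq/(q²|w|²) = 2C² N`, so `∫_{-B}^{B} |Θ-M12|² ≤ 4 C² T`; with `msq` the sum over `q` is
`≤ C' T Q ∑_{q≤Q} D2 b T q ≤ C'' N^ε T Q (T Q + T²) ≤ 2 C'' N^(1+ε)` (`div_sum3`, `Q⁴ ≤ N`).
(2) `|M12|² ≤ C²/(q²|w|²)`, `f_app4`, `(1+μ)² ≤ 2 + 2μ²`, `μ = min(|β|T⁴, T/q)`: `μ²/|w|² ≤ 2T⁸/(1 + (qT³β)²)`, `∫ μ²/|w|² ≤ 2πT⁵/q`, `∫ 1/|w|² ≤ πN`:
`∑_q (C/q²) q D2 b q q (N + T⁵/q) ≤ C N^(1+ε) Q + C T⁵ N^ε ≤ C' N^(1+ε) Q` (`div_sum2`, `div_sum4`, `T⁵ ≤ TN`).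
(3) `|(S/q) II| ≤ T`, at most `q` values of `a`: `∑_q (C/q²) q T² ∫ β²/(B²|w|²) ≤ ∑_q (C/q) T² 2/B ≤ C' N^(1+ε) T`.
-/

set_option autoImplicit false

open Finset

namespace Pool.Agent.Lib.TS4

open Pool.Agent.Lib.TSP

namespace VarAAux

open Pool.Agent.Lib.TSP.VarAAux

theorem Psi4_cont (b : Bool) (T : ℕ) {N : ℕ} (hN : 1 ≤ N) (B : ℝ) (a q : ℕ) :
    Continuous (Psi4 b T N B a q) := by
  have h1 : Continuous fun β : ℝ => Complex.exp (2 * Real.pi * (c1 b : ℂ) * zz N β) / zz N β :=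
    (Complex.continuous_exp.comp (continuous_const.mul (zz_cont N))).div (zz_cont N) (zz_ne hN)
  unfold Psi4 M12
  refine Continuous.mul ?_ ((continuous_const.mul h1).mul (continuous_const.mul (II_cont b T)))
  exact Complex.continuous_ofReal.comp (by fun_prop)

theorem SI_le (b : Bool) (a : ℤ) {q : ℕ} (hq : 0 < q) (T : ℕ) (β : ℝ) :
    ‖(1 / (q : ℂ)) * S b a q * II b T β‖ ≤ T := by
  have hq' : (0 : ℝ) < q := by exact_mod_cast hq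
  rw [norm_mul, norm_mul, norm_div, Complex.norm_natCast, norm_one]
  have h1 : 1 / (q : ℝ) * ‖S b a q‖ ≤ 1 := by
    calc 1 / (q : ℝ) * ‖S b a q‖ ≤ 1 / (q : ℝ) * q := by
          gcongr
          exact S_le b a q
      _ = 1 := by field_simp
  calc 1 / (q : ℝ) * ‖S b a q‖ * ‖II b T β‖ ≤ 1 * T :=
        mul_le_mul h1 (II_le b T β) (norm_nonneg _) zero_le_one
    _ = T := one_mul _

/-- the pointwise decomposition -/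
theorem pt41 {b : Bool} {X P : ℝ} {N T q a : ℕ} {β B : ℝ} (hB : 0 < B) (hq : 0 < q)
    (hM : ‖M12 b N a q β‖ ≤ P)
    (hD : ‖th 490 (v1 b) N ((a : ℝ) / q + β) * th 350 (v2 b) N ((a : ℝ) / q + β) - M12 b N a q β‖
      ≤ X) :
    ‖F b T N ((a : ℝ) / q + β) - Psi4 b T N B a q β‖ ^ 2 ≤
      3 * (X ^ 2 * ‖f b T ((a : ℝ) / q + β)‖ ^ 2 +
        P ^ 2 * ‖f b T ((a : ℝ) / q + β) - (1 / (q : ℂ)) * S b a q * II b T β‖ ^ 2 +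
        P ^ 2 * ((β / B) ^ 2 * (T : ℝ) ^ 2)) := by
  set θ : ℂ := th 490 (v1 b) N ((a : ℝ) / q + β) * th 350 (v2 b) N ((a : ℝ) / q + β) with hθ
  set M : ℂ := M12 b N a q β with hM'
  set s : ℂ := (1 / (q : ℂ)) * S b a q * II b T β with hs
  set φ : ℂ := f b T ((a : ℝ) / q + β) with hφ
  have e1 : F b T N ((a : ℝ) / q + β) - Psi4 b T N B a q β =
      (θ - M) * φ + M * (φ - s) + ((|β| / B : ℝ) : ℂ) * (M * s) := by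
    unfold F Psi4
    rw [← hθ, ← hM', ← hs, ← hφ]
    push_cast
    ring
  have hP0 : 0 ≤ P := le_trans (norm_nonneg _) hM
  have n1' : ‖(θ - M) * φ‖ ≤ X * ‖φ‖ := by
    rw [norm_mul]
    exact mul_le_mul_of_nonneg_right hD (norm_nonneg _)
  have n2' : ‖M * (φ - s)‖ ≤ P * ‖φ - s‖ := by
    rw [norm_mul]
    exact mul_le_mul_of_nonneg_right hM (norm_nonneg _)
  have n3' : ‖((|β| / B : ℝ) : ℂ) * (M * s)‖ ≤ |β| / B * (P * T) := by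
    rw [norm_mul, norm_mul, Complex.norm_real, Real.norm_of_nonneg (by positivity)]
    refine mul_le_mul_of_nonneg_left ?_ (by positivity)
    exact mul_le_mul hM (SI_le b a hq T β) (norm_nonneg _) hP0
  have hX : ‖F b T N ((a : ℝ) / q + β) - Psi4 b T N B a q β‖ ≤
      X * ‖φ‖ + P * ‖φ - s‖ + |β| / B * (P * T) := by
    rw [e1]
    refine (norm_add_le _ _).trans (add_le_add ((norm_add_le _ _).trans (add_le_add n1' n2')) n3')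
  refine (pow_le_pow_left₀ (norm_nonneg _) hX 2).trans ((sq3 _ _ _).trans (le_of_eq ?_))
  have : (|β| / B * (P * T)) ^ 2 = P ^ 2 * ((β / B) ^ 2 * (T : ℝ) ^ 2) := by
    rw [mul_pow, div_pow, sq_abs]
    ring
  rw [this]
  ring

/-- `1/|w|²` -/
noncomputable def R (N : ℕ) (β : ℝ) : ℝ := (N : ℝ) ^ 2 * (1 + ((N : ℝ) * β) ^ 2)⁻¹

theorem R_nonneg (N : ℕ) (β : ℝ) : 0 ≤ R N β := by
  unfold R
  positivity

theorem R_cont (N : ℕ) : Continuous (R N) := by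
  unfold R
  refine continuous_const.mul (Continuous.inv₀ (by fun_prop) ?_)
  intro β
  positivity

theorem R_beta (N : ℕ) (β : ℝ) : R N β * β ^ 2 ≤ 1 := by
  have h2 : (0 : ℝ) < 1 + ((N : ℝ) * β) ^ 2 := by positivity
  have h3 : R N β * β ^ 2 = ((N : ℝ) * β) ^ 2 / (1 + ((N : ℝ) * β) ^ 2) := by
    unfold R
    field_simp
  rw [h3, div_le_one h2]
  linarith

theorem inv_zz_sq {N : ℕ} (hN : 1 ≤ N) (β : ℝ) : (‖zz N β‖ ^ 2)⁻¹ = R N β := by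
  have hN' : (0 : ℝ) < N := by exact_mod_cast hN
  have h2 : (0 : ℝ) < 1 + ((N : ℝ) * β) ^ 2 := by positivity
  rw [norm_zz_sq]
  unfold R
  have h1 : (1 / (N : ℝ)) ^ 2 + β ^ 2 = (1 + ((N : ℝ) * β) ^ 2) / (N : ℝ) ^ 2 := by
    field_simp
  rw [h1, inv_div]
  field_simp

theorem kq_eq {N : ℕ} (hN : 1 ≤ N) (q : ℕ) (β : ℝ) : kq N q β = (q : ℝ) ^ 2 * N * ‖zz N β‖ ^ 2 := by
  have hN' : (0 : ℝ) < N := by exact_mod_cast hN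
  rw [norm_zz_sq]
  unfold kq
  field_simp

/-- `μ² R ≤ 2 T⁸/(1 + (q T³ β)²)` -/
theorem mu_bound (N : ℕ) {T q : ℕ} (hq : 0 < q) (β : ℝ) :
    R N β * (min (|β| * (T : ℝ) ^ 4) ((T : ℝ) / q)) ^ 2 ≤
      2 * (T : ℝ) ^ 2 / (q : ℝ) ^ 2 * R (q * T ^ 3) β := by
  have hq' : (0 : ℝ) < q := by exact_mod_cast hq
  set μ : ℝ := min (|β| * (T : ℝ) ^ 4) ((T : ℝ) / q) with hμ
  have hμ0 : 0 ≤ μ := le_min (by positivity) (by positivity)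
  have h1 : μ ^ 2 ≤ β ^ 2 * (T : ℝ) ^ 8 := by
    calc μ ^ 2 ≤ (|β| * (T : ℝ) ^ 4) ^ 2 := pow_le_pow_left₀ hμ0 (min_le_left _ _) 2
      _ = β ^ 2 * (T : ℝ) ^ 8 := by
        rw [mul_pow, sq_abs]
        ring
  have h2 : μ ^ 2 ≤ (T : ℝ) ^ 2 / (q : ℝ) ^ 2 := by
    calc μ ^ 2 ≤ ((T : ℝ) / q) ^ 2 := pow_le_pow_left₀ hμ0 (min_le_right _ _) 2
      _ = (T : ℝ) ^ 2 / (q : ℝ) ^ 2 := by rw [div_pow]
  have h3 := R_beta N β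
  have h0 := R_nonneg N β
  have a1 : R N β * μ ^ 2 ≤ (T : ℝ) ^ 8 := by
    calc R N β * μ ^ 2 ≤ R N β * (β ^ 2 * (T : ℝ) ^ 8) := mul_le_mul_of_nonneg_left h1 h0
      _ = (R N β * β ^ 2) * (T : ℝ) ^ 8 := by ring
      _ ≤ 1 * (T : ℝ) ^ 8 := by gcongr
      _ = (T : ℝ) ^ 8 := one_mul _
  have a2 : R N β * μ ^ 2 * ((q : ℝ) ^ 2 * β ^ 2) ≤ (T : ℝ) ^ 2 := by
    calc R N β * μ ^ 2 * ((q : ℝ) ^ 2 * β ^ 2)
        ≤ R N β * ((T : ℝ) ^ 2 / (q : ℝ) ^ 2) * ((q : ℝ) ^ 2 * β ^ 2) := by gcongr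
      _ = (R N β * β ^ 2) * (T : ℝ) ^ 2 := by field_simp
      _ ≤ 1 * (T : ℝ) ^ 2 := by gcongr
      _ = (T : ℝ) ^ 2 := one_mul _
  have hpos : (0 : ℝ) < 1 + ((q : ℝ) * (T : ℝ) ^ 3 * β) ^ 2 := by positivity
  have e1 : 2 * (T : ℝ) ^ 2 / (q : ℝ) ^ 2 * R (q * T ^ 3) β =
      2 * (T : ℝ) ^ 8 / (1 + ((q : ℝ) * (T : ℝ) ^ 3 * β) ^ 2) := by
    unfold R
    push_cast
    field_simp
  rw [e1, le_div_iff₀ hpos]
  have e2 : R N β * μ ^ 2 * (1 + ((q : ℝ) * (T : ℝ) ^ 3 * β) ^ 2) =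
      R N β * μ ^ 2 + (R N β * μ ^ 2 * ((q : ℝ) ^ 2 * β ^ 2)) * (T : ℝ) ^ 6 := by ring
  rw [e2]
  have a3 : (R N β * μ ^ 2 * ((q : ℝ) ^ 2 * β ^ 2)) * (T : ℝ) ^ 6 ≤ (T : ℝ) ^ 2 * (T : ℝ) ^ 6 := by
    gcongr
  nlinarith [a1, a3]

theorem int_R {N : ℕ} (hN : 1 ≤ N) (B : ℝ) : (∫ β in (-B)..B, R N β) ≤ Real.pi * N := int_inv hN B

/-- the pointwise bound, summed over `a` -/
theorem pt42 {b : Bool} {C₁ C₂ : ℝ} {N T q : ℕ} {β B : ℝ} (hB : 0 < B) (hq : 0 < q) (hN : 1 ≤ N)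
    (hκ : kq N q β ≤ 2) (hC₁ : 0 < C₁) (hC₂ : 0 < C₂)
    (hprod : ∀ (N : ℕ) (a : ℤ) (q : ℕ) (β : ℝ),
      1 ≤ N → 0 < q → IsCoprime a (q : ℤ) → kq N q β ≤ 5 →
      ‖th 490 (v1 b) N ((a : ℝ) / q + β) * th 350 (v2 b) N ((a : ℝ) / q + β)‖ ≤ C₁ / (q * ‖zz N β‖) ∧
      ‖M12 b N a q β‖ ≤ C₁ / (q * ‖zz N β‖) ∧
      ‖th 490 (v1 b) N ((a : ℝ) / q + β) * th 350 (v2 b) N ((a : ℝ) / q + β) - M12 b N a q β‖
        ≤ C₁ * kq N q β / (q * ‖zz N β‖))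
    (hf : ∀ (T q : ℕ) (β : ℝ), 0 < q →
      ∑ a ∈ range q, ‖f b T ((a : ℝ) / q + β) - (1 / (q : ℂ)) * S b a q * II b T β‖ ^ 2
        ≤ C₂ * q * D2 b q q * (1 + min (|β| * (T : ℝ) ^ 4) ((T : ℝ) / q)) ^ 2) :
    ∑ a ∈ cop q, ‖F b T N ((a : ℝ) / q + β) - Psi4 b T N B a q β‖ ^ 2 ≤
      3 * (2 * C₁ ^ 2 * N * (q * D2 b T q) + C₁ ^ 2 * (T : ℝ) ^ 2 / (q * B ^ 2)) +
      (6 * C₁ ^ 2 * C₂ * (D2 b q q / q)) * R N β +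
      (12 * C₁ ^ 2 * C₂ * (T : ℝ) ^ 2 * (D2 b q q / (q : ℝ) ^ 3)) * R (q * T ^ 3) β := by
  have hq' : (0 : ℝ) < q := by exact_mod_cast hq
  have hN' : (0 : ℝ) < N := by exact_mod_cast hN
  have hz : 0 < ‖zz N β‖ := norm_pos_iff.mpr (zz_ne hN β)
  set P : ℝ := C₁ / (q * ‖zz N β‖) with hP
  set X : ℝ := C₁ * kq N q β / (q * ‖zz N β‖) with hX
  have hk0 : 0 ≤ kq N q β := by
    rw [kq_eq hN]
    positivity
  have hP2 : P ^ 2 = C₁ ^ 2 / (q : ℝ) ^ 2 * R N β := by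
    rw [hP, div_pow, mul_pow, ← inv_zz_sq hN]
    field_simp
  have hX2 : X ^ 2 ≤ 2 * C₁ ^ 2 * N := by
    have h1 : X ^ 2 = C₁ ^ 2 * N * kq N q β := by
      rw [hX, kq_eq hN]
      field_simp
    rw [h1]
    have : C₁ ^ 2 * N * kq N q β ≤ C₁ ^ 2 * N * 2 := by gcongr
    linarith
  have h1 : ∀ a ∈ cop q, ‖F b T N ((a : ℝ) / q + β) - Psi4 b T N B a q β‖ ^ 2 ≤
      3 * (X ^ 2 * ‖f b T ((a : ℝ) / q + β)‖ ^ 2 +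
        P ^ 2 * ‖f b T ((a : ℝ) / q + β) - (1 / (q : ℂ)) * S b a q * II b T β‖ ^ 2 +
        P ^ 2 * ((β / B) ^ 2 * (T : ℝ) ^ 2)) := by
    intro a ha
    have hc : IsCoprime (a : ℤ) (q : ℤ) := by
      unfold cop at ha
      exact Nat.isCoprime_iff_coprime.mpr (mem_filter.mp ha).2
    obtain ⟨_, h2, h3⟩ := hprod N a q β hN hq hc (by linarith)
    rw [Int.cast_natCast] at h3
    exact pt41 hB hq h2 h3
  refine (sum_le_sum h1).trans ?_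
  rw [← mul_sum, sum_add_distrib, sum_add_distrib, ← mul_sum, ← mul_sum, sum_const, nsmul_eq_mul]
  have s1 : ∑ a ∈ cop q, ‖f b T ((a : ℝ) / q + β)‖ ^ 2 ≤ (q : ℝ) * D2 b T q :=
    (sum_le_sum_of_subset_of_nonneg (cop_sub q) (fun _ _ _ => by positivity)).trans (msq b T hq β)
  have s2 : ∑ a ∈ cop q, ‖f b T ((a : ℝ) / q + β) - (1 / (q : ℂ)) * S b a q * II b T β‖ ^ 2 ≤
      C₂ * q * D2 b q q * (1 + min (|β| * (T : ℝ) ^ 4) ((T : ℝ) / q)) ^ 2 :=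
    (sum_le_sum_of_subset_of_nonneg (cop_sub q) (fun _ _ _ => by positivity)).trans (hf T q β hq)
  have s3 : ((cop q).card : ℝ) * (P ^ 2 * ((β / B) ^ 2 * (T : ℝ) ^ 2)) ≤
      C₁ ^ 2 * (T : ℝ) ^ 2 / (q * B ^ 2) := by
    have h2 := R_beta N β
    calc ((cop q).card : ℝ) * (P ^ 2 * ((β / B) ^ 2 * (T : ℝ) ^ 2))
        ≤ (q : ℝ) * (P ^ 2 * ((β / B) ^ 2 * (T : ℝ) ^ 2)) :=
          mul_le_mul_of_nonneg_right (cop_card q) (by positivity)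
      _ = C₁ ^ 2 * (T : ℝ) ^ 2 / (q * B ^ 2) * (R N β * β ^ 2) := by
          rw [hP2]
          field_simp
      _ ≤ C₁ ^ 2 * (T : ℝ) ^ 2 / (q * B ^ 2) * 1 := by gcongr
      _ = _ := mul_one _
  have t1 : X ^ 2 * ∑ a ∈ cop q, ‖f b T ((a : ℝ) / q + β)‖ ^ 2 ≤ 2 * C₁ ^ 2 * N * (q * D2 b T q) :=
    mul_le_mul hX2 s1 (sum_nonneg fun _ _ => by positivity) (by positivity)
  have t2 : P ^ 2 * ∑ a ∈ cop q, ‖f b T ((a : ℝ) / q + β) - (1 / (q : ℂ)) * S b a q * II b T β‖ ^ 2 ≤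
      (2 * C₁ ^ 2 * C₂ * (D2 b q q / q)) * R N β +
      (4 * C₁ ^ 2 * C₂ * (T : ℝ) ^ 2 * (D2 b q q / (q : ℝ) ^ 3)) * R (q * T ^ 3) β := by
    refine (mul_le_mul_of_nonneg_left s2 (by positivity)).trans ?_
    rw [hP2]
    set μ : ℝ := min (|β| * (T : ℝ) ^ 4) ((T : ℝ) / q) with hμ
    have m1 : (1 + μ) ^ 2 ≤ 2 + 2 * μ ^ 2 := by nlinarith [sq_nonneg (1 - μ)]
    have m2 := mu_bound N (T := T) hq β
    rw [← hμ] at m2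
    have h0 := R_nonneg N β
    calc C₁ ^ 2 / (q : ℝ) ^ 2 * R N β * (C₂ * q * D2 b q q * (1 + μ) ^ 2)
        ≤ C₁ ^ 2 / (q : ℝ) ^ 2 * R N β * (C₂ * q * D2 b q q * (2 + 2 * μ ^ 2)) := by gcongr
      _ = (2 * C₁ ^ 2 * C₂ * (D2 b q q / q)) * R N β +
          (2 * C₁ ^ 2 * C₂ * (D2 b q q / q)) * (R N β * μ ^ 2) := by
          field_simp
      _ ≤ (2 * C₁ ^ 2 * C₂ * (D2 b q q / q)) * R N β +
          (2 * C₁ ^ 2 * C₂ * (D2 b q q / q)) * (2 * (T : ℝ) ^ 2 / (q : ℝ) ^ 2 * R (q * T ^ 3) β) := by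
          gcongr
      _ = _ := by
          field_simp
          ring
  linarith

theorem perq4 {b : Bool} {C₁ C₂ : ℝ} {N T q : ℕ} (hq : 0 < q) (hN : 1 ≤ N) (hT : 1 ≤ T)
    (hκ : ∀ β : ℝ, |β| ≤ (T : ℝ) / N → kq N q β ≤ 2) (hC₁ : 0 < C₁) (hC₂ : 0 < C₂)
    (hprod : ∀ (N : ℕ) (a : ℤ) (q : ℕ) (β : ℝ),
      1 ≤ N → 0 < q → IsCoprime a (q : ℤ) → kq N q β ≤ 5 →
      ‖th 490 (v1 b) N ((a : ℝ) / q + β) * th 350 (v2 b) N ((a : ℝ) / q + β)‖ ≤ C₁ / (q * ‖zz N β‖) ∧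
      ‖M12 b N a q β‖ ≤ C₁ / (q * ‖zz N β‖) ∧
      ‖th 490 (v1 b) N ((a : ℝ) / q + β) * th 350 (v2 b) N ((a : ℝ) / q + β) - M12 b N a q β‖
        ≤ C₁ * kq N q β / (q * ‖zz N β‖))
    (hf : ∀ (T q : ℕ) (β : ℝ), 0 < q →
      ∑ a ∈ range q, ‖f b T ((a : ℝ) / q + β) - (1 / (q : ℂ)) * S b a q * II b T β‖ ^ 2
        ≤ C₂ * q * D2 b q q * (1 + min (|β| * (T : ℝ) ^ 4) ((T : ℝ) / q)) ^ 2) :
    ∑ a ∈ cop q, (∫ β in (-((T : ℝ) / N))..((T : ℝ) / N),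
      ‖F b T N ((a : ℝ) / q + β) - Psi4 b T N ((T : ℝ) / N) a q β‖ ^ 2) ≤
      12 * C₁ ^ 2 * T * (q * D2 b T q) + 6 * C₁ ^ 2 * (T * N) * (1 / q) +
      6 * Real.pi * C₁ ^ 2 * C₂ * N * (D2 b q q / q) +
      12 * Real.pi * C₁ ^ 2 * C₂ * (T : ℝ) ^ 5 * (D2 b q q / (q : ℝ) ^ 2) := by
  have hN' : (0 : ℝ) < N := by exact_mod_cast hN
  have hT' : (0 : ℝ) < T := by exact_mod_cast hT
  have hq' : (0 : ℝ) < q := by exact_mod_cast hq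
  set B : ℝ := (T : ℝ) / N with hB
  have hB0 : 0 < B := by positivity
  have hcont : ∀ a : ℕ, Continuous fun β : ℝ => ‖F b T N ((a : ℝ) / q + β) - Psi4 b T N B a q β‖ ^ 2 := by
    intro a
    exact ((((F_cont' b T hN).comp (continuous_const.add continuous_id)).sub (Psi4_cont b T hN B a q)).norm).pow 2
  rw [← intervalIntegral.integral_finsetSum (fun a _ => (hcont a).intervalIntegrable _ _)]
  set K : ℝ := 3 * (2 * C₁ ^ 2 * N * (q * D2 b T q) + C₁ ^ 2 * (T : ℝ) ^ 2 / (q * B ^ 2)) with hK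
  set A₁ : ℝ := 6 * C₁ ^ 2 * C₂ * (D2 b q q / q) with hA₁
  set A₂ : ℝ := 12 * C₁ ^ 2 * C₂ * (T : ℝ) ^ 2 * (D2 b q q / (q : ℝ) ^ 3) with hA₂
  have hpt : ∀ β ∈ Set.Icc (-B) B, (∑ a ∈ cop q, ‖F b T N ((a : ℝ) / q + β) - Psi4 b T N B a q β‖ ^ 2) ≤
      K + A₁ * R N β + A₂ * R (q * T ^ 3) β := by
    intro β hβ
    have hβ' : |β| ≤ B := abs_le.mpr ⟨hβ.1, hβ.2⟩
    exact pt42 hB0 hq hN (hκ β hβ') hC₁ hC₂ hprod hf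
  have hsc : Continuous fun β : ℝ => ∑ a ∈ cop q, ‖F b T N ((a : ℝ) / q + β) - Psi4 b T N B a q β‖ ^ 2 :=
    continuous_finsetSum _ fun a _ => hcont a
  have hc0 : Continuous fun _ : ℝ => K := continuous_const
  have hc1 : Continuous fun β : ℝ => A₁ * R N β := continuous_const.mul (R_cont N)
  have hc2 : Continuous fun β : ℝ => A₂ * R (q * T ^ 3) β := continuous_const.mul (R_cont _)
  have hgc : Continuous fun β : ℝ => K + A₁ * R N β + A₂ * R (q * T ^ 3) β := (hc0.add hc1).add hc2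
  refine (intervalIntegral.integral_mono_on (by linarith) (hsc.intervalIntegrable _ _)
    (hgc.intervalIntegrable _ _) hpt).trans ?_
  have hint : (∫ u in (-B)..B, K + A₁ * R N u + A₂ * R (q * T ^ 3) u) =
      (B - -B) * K + A₁ * (∫ u in (-B)..B, R N u) + A₂ * (∫ u in (-B)..B, R (q * T ^ 3) u) := by
    have hc01 : Continuous fun β : ℝ => K + A₁ * R N β := hc0.add hc1
    have e1 : (∫ u in (-B)..B, K + A₁ * R N u + A₂ * R (q * T ^ 3) u) =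
        (∫ u in (-B)..B, K + A₁ * R N u) + (∫ u in (-B)..B, A₂ * R (q * T ^ 3) u) :=
      intervalIntegral.integral_add (hc01.intervalIntegrable _ _) (hc2.intervalIntegrable _ _)
    have e2 : (∫ u in (-B)..B, K + A₁ * R N u) = (∫ _u in (-B)..B, K) + (∫ u in (-B)..B, A₁ * R N u) :=
      intervalIntegral.integral_add (hc0.intervalIntegrable _ _) (hc1.intervalIntegrable _ _)
    have e3 : (∫ _u in (-B)..B, K) = (B - -B) * K := by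
      rw [intervalIntegral.integral_const, smul_eq_mul]
    have e4 : (∫ u in (-B)..B, A₁ * R N u) = A₁ * ∫ u in (-B)..B, R N u :=
      intervalIntegral.integral_const_mul _ _
    have e5 : (∫ u in (-B)..B, A₂ * R (q * T ^ 3) u) = A₂ * ∫ u in (-B)..B, R (q * T ^ 3) u :=
      intervalIntegral.integral_const_mul _ _
    rw [e1, e2, e3, e4, e5]
  rw [hint]
  have hA10 : 0 ≤ A₁ := by positivity
  have hA20 : 0 ≤ A₂ := by positivity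
  have hqT : 1 ≤ q * T ^ 3 := Nat.one_le_iff_ne_zero.mpr (by positivity)
  have i1 := mul_le_mul_of_nonneg_left (int_R hN B) hA10
  have i2 := mul_le_mul_of_nonneg_left (int_R hqT B) hA20
  refine (add_le_add (add_le_add (le_refl _) i1) i2).trans (le_of_eq ?_)
  rw [hK, hA₁, hA₂, hB]
  push_cast
  field_simp
  ring

end VarAAux

open VarAAux in
theorem varA4 (b : Bool) (ε : ℝ) (hε : 0 < ε) : ∃ C : ℝ, 0 < C ∧ ∀ N T Q : ℕ, 1 ≤ T → T ≤ Q → Q ^ 4 ≤ N →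
    ∑ q ∈ Icc 1 Q, ∑ a ∈ cop q, (∫ β in (-((T : ℝ) / N))..((T : ℝ) / N),
      ‖F b T N ((a : ℝ) / q + β) - Psi4 b T N ((T : ℝ) / N) a q β‖ ^ 2) ≤ C * (N : ℝ) ^ (1 + ε) * Q := by
  obtain ⟨C₁, hC₁, hprod⟩ := prod_bounds b
  obtain ⟨C₂, hC₂, hf⟩ := f_app4 b
  obtain ⟨C₃, hC₃, hdiv3⟩ := div_sum3 b ε hε
  obtain ⟨C₄, hC₄, hdiv4⟩ := div_sum4 b ε hε
  obtain ⟨C₅, hC₅, hdiv2⟩ := div_sum2 b ε hε
  have hπ := Real.pi_pos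
  refine ⟨24 * C₁ ^ 2 * C₃ + 6 * C₁ ^ 2 * (1 + 1 / ε) + 6 * Real.pi * C₁ ^ 2 * C₂ * C₅ +
    12 * Real.pi * C₁ ^ 2 * C₂ * C₄, by positivity, ?_⟩
  intro N T Q hT hTQ hQN
  have hQ1 : 1 ≤ Q := hT.trans hTQ
  have hN : 1 ≤ N := le_trans (Nat.one_le_pow _ _ hQ1) hQN
  have hQle : Q ≤ N := le_trans (Nat.le_self_pow (by norm_num) Q) hQN
  have hTle : T ≤ N := hTQ.trans hQle
  have hN' : (0 : ℝ) < N := by exact_mod_cast hN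
  have hN1 : (1 : ℝ) ≤ N := by exact_mod_cast hN
  have hT' : (1 : ℝ) ≤ T := by exact_mod_cast hT
  have hQ' : (1 : ℝ) ≤ Q := by exact_mod_cast hQ1
  have hTQ' : (T : ℝ) ≤ Q := by exact_mod_cast hTQ
  have hQN' : (Q : ℝ) ^ 4 ≤ N := by exact_mod_cast hQN
  have hκ : ∀ q ∈ Icc 1 Q, ∀ β : ℝ, |β| ≤ (T : ℝ) / N → kq N q β ≤ 2 := by
    intro q hq β hβ
    have hqQ' : (q : ℝ) ≤ Q := by exact_mod_cast (mem_Icc.mp hq).2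
    have h1 : β ^ 2 ≤ ((T : ℝ) / N) ^ 2 := by
      rw [← sq_abs β]
      exact pow_le_pow_left₀ (abs_nonneg _) hβ 2
    have h2 : (N : ℝ) * β ^ 2 ≤ (T : ℝ) ^ 2 / N := by
      calc (N : ℝ) * β ^ 2 ≤ N * ((T : ℝ) / N) ^ 2 := mul_le_mul_of_nonneg_left h1 hN'.le
        _ = (T : ℝ) ^ 2 / N := by field_simp
    have h3 : 1 / (N : ℝ) ≤ (T : ℝ) ^ 2 / N := by
      gcongr
      nlinarith
    unfold kq
    calc (q : ℝ) ^ 2 * (1 / (N : ℝ) + N * β ^ 2) ≤ (Q : ℝ) ^ 2 * ((T : ℝ) ^ 2 / N + (T : ℝ) ^ 2 / N) := by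
          gcongr
      _ ≤ (Q : ℝ) ^ 2 * ((Q : ℝ) ^ 2 / N + (Q : ℝ) ^ 2 / N) := by gcongr
      _ = 2 * (Q : ℝ) ^ 4 / N := by ring
      _ ≤ 2 := by
          rw [div_le_iff₀ hN']
          linarith
  have hper : ∀ q ∈ Icc 1 Q, ∑ a ∈ cop q, (∫ β in (-((T : ℝ) / N))..((T : ℝ) / N),
      ‖F b T N ((a : ℝ) / q + β) - Psi4 b T N ((T : ℝ) / N) a q β‖ ^ 2) ≤
      12 * C₁ ^ 2 * T * Q * D2 b T q + 6 * C₁ ^ 2 * (T * N) * (1 / q) +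
      6 * Real.pi * C₁ ^ 2 * C₂ * N * (D2 b q q / q) +
      12 * Real.pi * C₁ ^ 2 * C₂ * (T : ℝ) ^ 5 * (D2 b q q / (q : ℝ) ^ 2) := by
    intro q hq
    have hq1 := (mem_Icc.mp hq).1
    have hqQ' : (q : ℝ) ≤ Q := by exact_mod_cast (mem_Icc.mp hq).2
    refine (perq4 hq1 hN hT (hκ q hq) hC₁ hC₂ hprod hf).trans ?_
    have : 12 * C₁ ^ 2 * T * (q * (D2 b T q : ℝ)) ≤ 12 * C₁ ^ 2 * T * Q * D2 b T q := by
      calc 12 * C₁ ^ 2 * T * (q * (D2 b T q : ℝ)) ≤ 12 * C₁ ^ 2 * T * (Q * (D2 b T q : ℝ)) := by gcongr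
        _ = _ := by ring
    linarith
  refine (sum_le_sum hper).trans ?_
  rw [sum_add_distrib, sum_add_distrib, sum_add_distrib, ← mul_sum, ← mul_sum, ← mul_sum, ← mul_sum]
  have s1 := Pool.Agent.Lib.TSP.VarAAux.harm hN hQ1 hQle hε
  have s2 := hdiv2 Q N hQ1 hQle
  have s3 := hdiv3 T Q N hTle hQle hN
  have s4 := hdiv4 Q N hN hQle
  have hNe : (N : ℝ) ^ (1 + ε) = N * (N : ℝ) ^ ε := by
    rw [Real.rpow_add hN', Real.rpow_one]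
  have hNε : 0 < (N : ℝ) ^ ε := Real.rpow_pos_of_pos hN' ε
  have b1 : 12 * C₁ ^ 2 * T * Q * ∑ q ∈ Icc 1 Q, (D2 b T q : ℝ) ≤ 24 * C₁ ^ 2 * C₃ * (N * (N : ℝ) ^ ε) * Q := by
    have h1 : (T : ℝ) * Q * ((T : ℝ) * Q + (T : ℝ) ^ 2) ≤ 2 * N * Q := by
      calc (T : ℝ) * Q * ((T : ℝ) * Q + (T : ℝ) ^ 2) ≤ (Q : ℝ) * Q * ((Q : ℝ) * Q + (Q : ℝ) ^ 2) := by gcongr
        _ = 2 * (Q : ℝ) ^ 4 := by ring
        _ ≤ 2 * N := by linarith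
        _ ≤ 2 * N * Q := by nlinarith
    calc 12 * C₁ ^ 2 * T * Q * ∑ q ∈ Icc 1 Q, (D2 b T q : ℝ)
        ≤ 12 * C₁ ^ 2 * T * Q * (C₃ * (N : ℝ) ^ ε * ((T : ℝ) * Q + (T : ℝ) ^ 2)) := by gcongr
      _ = 12 * C₁ ^ 2 * C₃ * (N : ℝ) ^ ε * ((T : ℝ) * Q * ((T : ℝ) * Q + (T : ℝ) ^ 2)) := by ring
      _ ≤ 12 * C₁ ^ 2 * C₃ * (N : ℝ) ^ ε * (2 * N * Q) := by gcongr
      _ = _ := by ring
  have b2 : 6 * C₁ ^ 2 * (T * N) * ∑ q ∈ Icc 1 Q, 1 / (q : ℝ) ≤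
      6 * C₁ ^ 2 * (1 + 1 / ε) * (N * (N : ℝ) ^ ε) * Q := by
    calc 6 * C₁ ^ 2 * (T * N) * ∑ q ∈ Icc 1 Q, 1 / (q : ℝ)
        ≤ 6 * C₁ ^ 2 * (Q * N) * ((1 + 1 / ε) * (N : ℝ) ^ ε) := by gcongr
      _ = _ := by ring
  have b3 : 6 * Real.pi * C₁ ^ 2 * C₂ * N * ∑ q ∈ Icc 1 Q, (D2 b q q : ℝ) / q ≤
      6 * Real.pi * C₁ ^ 2 * C₂ * C₅ * (N * (N : ℝ) ^ ε) * Q := by
    calc 6 * Real.pi * C₁ ^ 2 * C₂ * N * ∑ q ∈ Icc 1 Q, (D2 b q q : ℝ) / q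
        ≤ 6 * Real.pi * C₁ ^ 2 * C₂ * N * (C₅ * (N : ℝ) ^ ε * Q) := by gcongr
      _ = _ := by ring
  have b4 : 12 * Real.pi * C₁ ^ 2 * C₂ * (T : ℝ) ^ 5 * ∑ q ∈ Icc 1 Q, (D2 b q q : ℝ) / (q : ℝ) ^ 2 ≤
      12 * Real.pi * C₁ ^ 2 * C₂ * C₄ * (N * (N : ℝ) ^ ε) * Q := by
    have h1 : (T : ℝ) ^ 5 ≤ N * Q := by
      calc (T : ℝ) ^ 5 ≤ (Q : ℝ) ^ 5 := by gcongr
        _ = (Q : ℝ) ^ 4 * Q := by ring
        _ ≤ N * Q := by gcongr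
    calc 12 * Real.pi * C₁ ^ 2 * C₂ * (T : ℝ) ^ 5 * ∑ q ∈ Icc 1 Q, (D2 b q q : ℝ) / (q : ℝ) ^ 2
        ≤ 12 * Real.pi * C₁ ^ 2 * C₂ * (N * Q) * (C₄ * (N : ℝ) ^ ε) := by gcongr
      _ = _ := by ring
  calc _ ≤ 24 * C₁ ^ 2 * C₃ * (N * (N : ℝ) ^ ε) * Q + 6 * C₁ ^ 2 * (1 + 1 / ε) * (N * (N : ℝ) ^ ε) * Q +
        6 * Real.pi * C₁ ^ 2 * C₂ * C₅ * (N * (N : ℝ) ^ ε) * Q +
        12 * Real.pi * C₁ ^ 2 * C₂ * C₄ * (N * (N : ℝ) ^ ε) * Q :=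
          add_le_add (add_le_add (add_le_add b1 b2) b3) b4
    _ = _ := by
        rw [hNe]
        ring

end Pool.Agent.Lib.TS4
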